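import Pool.Agent.H21.DIR.Sel
import Pool.Agent.H21.FS.Qp

/-!
# DIR: the mass of the pairs which are not parallel, the numbers
-/

set_option autoImplicit false

namespace Pool.DIR21

open Finset Real Matrix
open Pool.Agent.H49.Ent Pool.Agent.H32.Dense Pool.STK Pool.POT Pool.FAD Pool.SLO Pool.TQ
open Pool.K2S (Pe)
open Pool.BFL (Pb)
open Pool.FS21 (ex_pow)

/-- **Two full bodies are parallel off a small event.** -/
theorem mass_num {h κ₁ δ F₀ : ℝ} (hκ : κ₁ < h) (hh : h ≤ 1) (hκ0 : 0 ≤ κ₁) (hδ : 0 < δ)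
    (hδ1 : δ ≤ 1) (hF : 1 ≤ F₀) :
    ∃ η ϖ : ℝ, 0 < η ∧ 0 < ϖ ∧ ∀ C c₀ : ℝ, 1 ≤ C → 0 ≤ c₀ → ∃ X0 : ℕ,
    ∀ (Ω Γ ζ σ : Type) (_ : Fintype Ω) (_ : Fintype Γ) (p : Ω → ℝ) (q : Γ → ℝ) (f : Γ → Ω)
      (Z : Ω → Fin 2 → ℤ) (Bs : Ω → σ) (A B : Γ → Matrix (Fin 2) (Fin 2) ℝ) (Y : Γ → ζ) (X : ℕ),
      X0 ≤ X → IsLaw p → IsLaw q → (∀ ω, mg q f ω ≤ F₀ * p ω) → Det q Y A → Det q Y B →
      Det q Y (fun w => Bs (f w)) → (∀ w, (A w).det ≠ 0) → (∀ w, (B w).det ≠ 0) →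
      (∀ w, Inc c₀ (Tx 2 X) (A w)) → (∀ w, Inc c₀ (Tx 2 X) (B w)) →
      DF q (fun _ => Tx 2 X) A (fun w => xv X (Z (f w))) Y ≤ η * X →
      DF q (fun _ => Tx 2 X) B (fun w => xv X (Z (f w))) Y ≤ η * X →
      (∀ ω i, |(Z ω i : ℝ)| ≤ C * 2 ^ X) →
      (∀ G : Ω → Prop, ϖ ≤ Pe p G → 0 < Pe p G →
        CH (cond p G True) Z Bs ≤ (2 - h) * X * Real.log 2 + η * X) →
      Pe q (fun w => ∃ a b : Fin 2, (2 : ℝ) ^ (-(κ₁ * X)) <
        |wg (fun i => A w i a) (fun i => B w i b)|) ≤ δ := by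
  classical
  have hL2 : 0 < Real.log 2 := Real.log_pos (by norm_num)
  have hL1 : Real.log 2 ≤ 1 := by
    have := Real.log_two_lt_d9
    linarith
  obtain ⟨g, hg⟩ : ∃ g : ℝ, g = (h - κ₁) * Real.log 2 := ⟨_, rfl⟩
  have hg0 : 0 < g := by
    rw [hg]
    exact mul_pos (by linarith) hL2
  have hg1 : g ≤ 1 := by
    rw [hg]
    calc (h - κ₁) * Real.log 2 ≤ 1 * 1 := mul_le_mul (by linarith) hL1 hL2.le zero_le_one
      _ = 1 := one_mul 1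
  have hF0 : 0 < F₀ := by linarith
  obtain ⟨η, hη⟩ : ∃ η : ℝ, η = g * δ / 16 := ⟨_, rfl⟩
  have hη0 : 0 < η := by rw [hη]; positivity
  obtain ⟨ϖ, hϖ⟩ : ∃ ϖ : ℝ, ϖ = g * δ / (32 * F₀) := ⟨_, rfl⟩
  have hϖ0 : 0 < ϖ := by rw [hϖ]; positivity
  obtain ⟨K, hK⟩ := exists_nat_gt (32 * F₀ / (g * δ))
  have hKR : (0 : ℝ) < K := lt_of_le_of_lt (by positivity) hK
  have hK0 : 0 < K := by exact_mod_cast hKR
  refine ⟨η, ϖ, hη0, hϖ0, fun C c₀ hC hc => ?_⟩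
  obtain ⟨D, hD⟩ : ∃ D : ℝ, D = 2 * (|Cc 2 c₀| / δ) + Cp 2 c₀ + Real.log 8 +
    Real.log (9 * C) + Real.log (K + 1) := ⟨_, rfl⟩
  obtain ⟨X2, hX2⟩ := ex_lin (a := g / 32) (b := D) (by positivity)
  refine ⟨max X2 1, fun Ω Γ ζ σ iΩ iΓ p q f Z Bs A B Y X hX hp hq hden hdA hdB hdS hA hB hTA hTB
    h1 h2 hZ nf => ?_⟩
  have l2 : X2 ≤ X := (le_max_left _ _).trans hX
  have l3 : (1 : ℝ) ≤ X := by exact_mod_cast (le_max_right _ _).trans hX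
  have hX0 : (0 : ℝ) < X := by linarith
  have hDX := hX2 X l2
  by_contra hcon
  push Not at hcon
  have hR0 : 0 ≤ (2 - h) * X * Real.log 2 + η * X := by
    have : 0 ≤ 2 - h := by linarith
    positivity
  have key := mass hp hq X hF0 hden Z Bs Y hdA hdB hdS hA hB hc hTA hTB h1 h2
    (r := (2 : ℝ) ^ (-(κ₁ * X))) (by positivity) hδ hcon.le (C := C) (ϖ := ϖ) (by linarith)
    hϖ0.le hR0 hZ nf hK0
  have e1 : Real.log ((2 : ℝ) ^ (-(κ₁ * X))) = -(κ₁ * X * Real.log 2) := by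
    rw [Real.log_rpow (by norm_num)]
    ring
  rw [e1] at key
  have e2 : (η * X + |Cc 2 c₀|) / δ = g / 16 * X + |Cc 2 c₀| / δ := by
    rw [add_div, hη]
    congr 1
    field_simp
  have l9 : 0 ≤ Real.log (9 * C) := Real.log_nonneg (by linarith)
  have e4 : Real.log (4 * (C * 2 ^ X) + 1) ≤ X + Real.log (9 * C) := by
    have h1 : (1 : ℝ) ≤ 2 ^ X := one_le_pow₀ (by norm_num)
    have h2 := log_pow_le (A := 9 * C) (by linarith) X (y := 4 * (C * 2 ^ X) + 1)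
      (by positivity) (by nlinarith)
    have h3 : X * Real.log 2 ≤ X := mul_le_of_le_one_right hX0.le hL1
    linarith
  have e5 : F₀ / δ / K + F₀ / δ * ϖ ≤ g / 16 := by
    have h1 : F₀ / δ / K ≤ g / 32 := by
      rw [div_lt_iff₀ (by positivity)] at hK
      rw [div_div, div_le_div_iff₀ (by positivity) (by norm_num)]
      nlinarith
    have h2 : F₀ / δ * ϖ = g / 32 := by
      rw [hϖ]
      field_simp
    linarith
  have e5' : 0 ≤ F₀ / δ / K + F₀ / δ * ϖ := by positivity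
  have e6 : (F₀ / δ / K + F₀ / δ * ϖ) * (2 * Real.log (4 * (C * 2 ^ X) + 1)) ≤
      g / 8 * X + Real.log (9 * C) := by
    calc _ ≤ (F₀ / δ / K + F₀ / δ * ϖ) * (2 * (X + Real.log (9 * C))) :=
          mul_le_mul_of_nonneg_left (by linarith) e5'
      _ ≤ g / 16 * (2 * (X + Real.log (9 * C))) :=
          mul_le_mul_of_nonneg_right e5 (by positivity)
      _ ≤ _ := by nlinarith
  have e7 : η * X ≤ g / 16 * X := by
    refine mul_le_mul_of_nonneg_right ?_ hX0.le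
    rw [hη]
    nlinarith
  have e8 : g * X = h * X * Real.log 2 - κ₁ * X * Real.log 2 := by
    rw [hg]
    ring
  rw [e2] at key
  have hgX : 0 < g * X := by positivity
  rw [hD] at hDX
  nlinarith

end Pool.DIR21
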