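import Pool.Agent.H21.DIR.Vec
import Pool.Agent.H21.DIR.Mas
import Pool.Agent.H64.P5.Ful

/-!
# DIR: samples of one line and linked copies have parallel bodies

`same`: two tuples of samples of the same line. `lnk`: two tuples with the same height and the same
base. In both cases the two bodies are parallel off a small event.
-/

set_option autoImplicit false

namespace Pool.DIR21

open Finset Real Matrix
open Pool.Agent.H49.Ent Pool.Agent.H32.Dense Pool.STK Pool.POT Pool.FAD Pool.SLO Pool.TQ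
open Pool.K2S (Pe)
open Pool.BFL (Pb)

/-- Two bodies are not parallel. -/
def RR (ρ : ℝ) (A B : Matrix (Fin 2) (Fin 2) ℝ) : Prop :=
  ∃ a b : Fin 2, ρ < |wg (co A a) (co B b)|

/-- The conclusion of `mass_num`. -/
def MN (h κ₁ δ F₀ η ϖ C c₀ : ℝ) (X0 : ℕ) : Prop :=
  ∀ (Ω Γ ζ σ : Type) (_ : Fintype Ω) (_ : Fintype Γ) (p : Ω → ℝ) (q : Γ → ℝ) (f : Γ → Ω)
    (Z : Ω → Fin 2 → ℤ) (Bs : Ω → σ) (A B : Γ → Matrix (Fin 2) (Fin 2) ℝ) (Y : Γ → ζ) (X : ℕ),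
    X0 ≤ X → IsLaw p → IsLaw q → (∀ ω, mg q f ω ≤ F₀ * p ω) → Det q Y A → Det q Y B →
    Det q Y (fun w => Bs (f w)) → (∀ w, (A w).det ≠ 0) → (∀ w, (B w).det ≠ 0) →
    (∀ w, Inc c₀ (Tx 2 X) (A w)) → (∀ w, Inc c₀ (Tx 2 X) (B w)) →
    DF q (fun _ => Tx 2 X) A (fun w => xv X (Z (f w))) Y ≤ η * X →
    DF q (fun _ => Tx 2 X) B (fun w => xv X (Z (f w))) Y ≤ η * X →
    (∀ ω i, |(Z ω i : ℝ)| ≤ C * 2 ^ X) →
    (∀ G : Ω → Prop, ϖ ≤ Pe p G → 0 < Pe p G →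
      CH (cond p G True) Z Bs ≤ (2 - h) * X * Real.log 2 + η * X) →
    Pe q (fun w => RR ((2 : ℝ) ^ (-(κ₁ * X))) (A w) (B w)) ≤ δ

theorem mass_mn {h κ₁ δ F₀ : ℝ} (hκ : κ₁ < h) (hh : h ≤ 1) (hκ0 : 0 ≤ κ₁) (hδ : 0 < δ)
    (hδ1 : δ ≤ 1) (hF : 1 ≤ F₀) :
    ∃ η ϖ : ℝ, 0 < η ∧ 0 < ϖ ∧ ∀ C c₀ : ℝ, 1 ≤ C → 0 ≤ c₀ → ∃ X0 : ℕ,
      MN h κ₁ δ F₀ η ϖ C c₀ X0 :=
  mass_num hκ hh hκ0 hδ hδ1 hF

section im

variable {Ω Ω' : Type} [Fintype Ω] [Fintype Ω'] {p : Ω → ℝ} {q : Ω' → ℝ} {f : Ω' → Ω}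

theorem Pb_im (h : Im q p f) (G : Ω → Prop) : Pb p G = Pb q (fun w => G (f w)) := by
  rw [Pb_ci, Pb_ci]
  exact (h.Ex (fun ω => ci (G ω))).symm

theorem Pb_mono {G G' : Ω → Prop} (h0 : ∀ ω, 0 ≤ p ω) (h : ∀ ω, 0 < p ω → G ω → G' ω) :
    Pb p G ≤ Pb p G' := by
  rw [Pb_ci, Pb_ci]
  refine Finset.sum_le_sum fun ω _ => ?_
  rcases (h0 ω).eq_or_lt with h1 | h1
  · rw [← h1, zero_mul, zero_mul]
  · exact mul_le_mul_of_nonneg_left (ci_mono (h ω h1)) h1.le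

theorem Pb_or (h0 : ∀ ω, 0 ≤ p ω) (G G' : Ω → Prop) :
    Pb p (fun ω => G ω ∨ G' ω) ≤ Pb p G + Pb p G' := by
  rw [Pb_ci, Pb_ci, Pb_ci, ← Finset.sum_add_distrib]
  refine Finset.sum_le_sum fun ω _ => ?_
  rw [← mul_add]
  refine mul_le_mul_of_nonneg_left ?_ (h0 ω)
  by_cases h1 : G ω
  · rw [ci1 h1, ci1 (Or.inl h1)]
    linarith [ci_nonneg (G' ω)]
  · by_cases h2 : G' ω
    · rw [ci0 h1, ci1 h2, ci1 (Or.inr h2)]
      linarith
    · rw [ci0 h1, ci0 h2, ci0 (fun h => h.elim h1 h2)]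
      linarith

theorem Pb_nonneg (h0 : ∀ ω, 0 ≤ p ω) (G : Ω → Prop) : 0 ≤ Pb p G := by
  rw [Pb_ci]
  exact Finset.sum_nonneg fun ω _ => mul_nonneg (h0 ω) (ci_nonneg _)

end im

variable {Ω Λ τ B β ρ σ : Type} [Fintype Ω] {p : Ω → ℝ} {L : Ω → Λ} {th : Ω → τ}
  {b : Ω → B} {hgt : Ω → Fin 2 → ℤ} {S : Ω → ρ} {Wd : Ω → β} {Z : Ω → Fin 2 → ℤ} {Bs : Ω → σ}
  {M : B → Matrix (Fin 2) (Fin 2) ℝ} {X : ℕ} {C Lm d R ϖ : ℝ}

/-- The body of a tuple of samples. -/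
def bdv (M : B → Matrix (Fin 2) (Fin 2) ℝ) (b : Ω → B) (th : Ω → τ) {n : ℕ}
    (A0 : (Fin (n + 2) → τ) → Matrix (Fin 2) (Fin 2) ℝ) (v : Fin (n + 2) → Ω) :
    Matrix (Fin 2) (Fin 2) ℝ := bod M A0 (b (v 0)) fun j => th (v j)

/-- **Two tuples of samples of the same line.** -/
theorem DrOk.same (hH : DrOk p L th b hgt S Wd Z Bs M X C Lm d R ϖ) {h κ₁ δ F₀ η : ℝ} {X0 : ℕ}
    (hm : MN h κ₁ δ F₀ η ϖ C (4 * Lm) X0) (hX : X0 ≤ X) (hF : 1 ≤ F₀) (hL0 : 0 ≤ Lm)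
    (hϖ : 0 < ϖ)
    (hR : R + (d + Real.log 2) / ϖ ≤ (2 - h) * X * Real.log 2 + η * X) {n : ℕ}
    {A0 : (Fin (n + 2) → τ) → Matrix (Fin 2) (Fin 2) ℝ} (hA : ∀ t, (A0 t).det ≠ 0)
    (hinv : ∀ t i j, |(A0 t)⁻¹ i j| ≤ 2 ^ X) {e₀ : ℝ}
    (hbody : DF (tup p L (n + 2)) (fun _ => Tx 2 X) (fun w => A0 fun j => th (w j.succ))
      (fun w => xv X (hgt (w 0)))
      (fun w => (b (w 0), (th (w 0), fun j : Fin (n + 2) => th (w j.succ)))) ≤ e₀)
    (he : e₀ + (2 * (2 * n + 4) + 1) * d + Pool.POT64.Cch 2 Lm C ≤ η * X) :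
    Pb (tup p L (n + 1 + 1 + (n + 1))) (fun w => RR ((2 : ℝ) ^ (-(κ₁ * X)))
      (bdv M b th A0 fun i => w (Fin.castAdd (n + 1 + 1) i))
      (bdv M b th A0 fun j => w (Fin.natAdd (n + 1 + 1) j))) ≤ δ := by
  have hp := hH.law
  have hq := tup_isLaw hp L (n + 1 + 1 + (n + 1) + 1)
  have hq0 := hq.nonneg
  have him0 : Im (tup p L (n + 1 + 1 + (n + 1) + 1)) p (fun w => w 0) :=
    im_tup hp.nonneg L _ 0
  have him : Im (tup p L (n + 1 + 1 + (n + 1) + 1)) (tup p L (n + 1 + 1 + (n + 1)))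
      (fun w => w ∘ Fin.succ) :=
    im_of_marg (tup_sub hp.nonneg L (M := n + 1 + 1 + (n + 1)) (N := n + 1 + 1 + (n + 1) + 1)
      Fin.succ (Fin.succ_injective _))
  rw [Pb_im him]
  have hd0 : 0 ≤ d := (MI_nonneg hp.nonneg _ _ _).trans hH.h0
  have k1 := hH.df_tup hL0 hinv hbody (n + 1 + 1 + (n + 1)) (Fin.castAdd (n + 1 + 1))
    (Fin.castAdd_injective _ _)
  have k2 := hH.df_tup hL0 hinv hbody (n + 1 + 1 + (n + 1)) (Fin.natAdd (n + 1 + 1))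
    (Fin.natAdd_injective _ _)
  have hnum : e₀ + (2 * (((n + 1 + 1 + (n + 1) : ℕ) : ℝ) + 1) + 1) * d +
      Pool.POT64.Cch 2 Lm C ≤ η * X := by
    refine le_trans (le_of_eq ?_) he
    push_cast
    ring
  have k3 := hm Ω (Fin (n + 1 + 1 + (n + 1) + 1 + 1) → Ω) _ σ inferInstance inferInstance p
    (tup p L (n + 1 + 1 + (n + 1) + 1)) (fun w => w 0) Z Bs
    (fun w => bod M A0 (b (w 0)) fun j => th (w (Fin.castAdd (n + 1 + 1) j).succ))
    (fun w => bod M A0 (b (w 0)) fun j => th (w (Fin.natAdd (n + 1 + 1) j).succ))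
    (dat Wd b th) X hX hp hq (mg_le him0 fun w => by
      rcases (hq0 w).eq_or_lt with h1 | h1
      · rw [← h1, mul_zero]
      · nlinarith)
    (by
      intro w w' _ _ e
      simp only [dat, Prod.mk.injEq] at e
      have e4 := fun j => congrFun e.2.2.2 j
      simp only [e.2.1]
      congr 1
      funext j
      exact e4 _)
    (by
      intro w w' _ _ e
      simp only [dat, Prod.mk.injEq] at e
      have e4 := fun j => congrFun e.2.2.2 j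
      simp only [e.2.1]
      congr 1
      funext j
      exact e4 _)
    (by
      intro w w' x y e
      simp only [dat, Prod.mk.injEq] at e
      refine hH.BY _ _ (him0.pos hq0 x) (him0.pos hq0 y) ?_
      simp only [Prod.mk.injEq]
      exact ⟨e.1, e.2.2.1, e.2.1⟩)
    (fun w => hH.bod_det hA _ _) (fun w => hH.bod_det hA _ _) (fun w => hH.bod_inc hinv _ _)
    (fun w => hH.bod_inc hinv _ _) (k1.trans hnum) (k2.trans hnum) hH.Z_b
    (fun G h1 h2 => (hH.nfB hϖ G h1 h2).trans hR)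
  rw [← Pb_Pe] at k3
  refine le_trans (Pb_mono hq0 ?_) k3
  intro w hw h1
  have hb : ∀ j, b (w j) = b (w 0) := fun j =>
    hH.Lb _ _ (((tup_pos_iff hp.nonneg L _ w).1 hw).1 j) (((tup_pos_iff hp.nonneg L _ w).1 hw).1 0)
      (tup_line hp.nonneg L hw j)
  unfold bdv at h1
  simp only [Function.comp, hb] at h1
  exact h1

/-- The event that the body is big. -/
def Bg (M : B → Matrix (Fin 2) (Fin 2) ℝ) (b : Ω → B) (th : Ω → τ) {n : ℕ}
    (A0 : (Fin (n + 2) → τ) → Matrix (Fin 2) (Fin 2) ℝ) (κ : ℝ) (w : Fin (n + 2 + 1) → Ω) : Prop :=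
  κ ≤ nb (bod M A0 (b (w 0)) fun j => th (w j.succ))

omit [Fintype Ω] in
theorem Bg_det {n : ℕ} {A0 : (Fin (n + 2) → τ) → Matrix (Fin 2) (Fin 2) ℝ} {κ : ℝ}
    (q : (Fin (n + 2 + 1) → Ω) → ℝ) : Det q (dat Wd b th) (Bg M b th A0 κ) := by
  intro w w' _ _ e
  simp only [dat, Prod.mk.injEq] at e
  have e4 := fun j => congrFun e.2.2.2 j
  unfold Bg
  have e5 : (fun j : Fin (n + 2) => th (w j.succ)) = fun j => th (w' j.succ) := e.2.2.2
  rw [e.2.1, e5]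

omit [Fintype Ω] in
theorem bod_dt {n : ℕ} {A0 : (Fin (n + 2) → τ) → Matrix (Fin 2) (Fin 2) ℝ}
    (q : (Fin (n + 2 + 1) → Ω) → ℝ) :
    Det q (dat Wd b th) (fun w => bod M A0 (b (w 0)) fun j => th (w j.succ)) := by
  intro w w' _ _ e
  simp only [dat, Prod.mk.injEq] at e
  have e5 : (fun j : Fin (n + 2) => th (w j.succ)) = fun j => th (w' j.succ) := e.2.2.2
  simp only [e.2.1, e5]

/-- **Two tuples with the same height and the same base.** -/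
theorem DrOk.lnk (hH : DrOk p L th b hgt S Wd Z Bs M X C Lm d R ϖ) {h κ₁ δ F₀ η : ℝ} {X0 : ℕ}
    (hm : MN h κ₁ δ F₀ η ϖ C (4 * Lm) X0) (hX : X0 ≤ X) (hF : 1 ≤ F₀) (hL0 : 0 ≤ Lm)
    (hϖ : 0 < ϖ)
    (hR : R + (d + Real.log 2) / ϖ ≤ (2 - h) * X * Real.log 2 + η * X) {n : ℕ}
    {A0 : (Fin (n + 2) → τ) → Matrix (Fin 2) (Fin 2) ℝ} (hA : ∀ t, (A0 t).det ≠ 0)
    (hinv : ∀ t i j, |(A0 t)⁻¹ i j| ≤ 2 ^ X) {e₀ : ℝ}
    (hbody : DF (tup p L (n + 2)) (fun _ => Tx 2 X) (fun w => A0 fun j => th (w j.succ))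
      (fun w => xv X (hgt (w 0)))
      (fun w => (b (w 0), (th (w 0), fun j : Fin (n + 2) => th (w j.succ)))) ≤ e₀)
    {κ : ℝ} (hB : 1 / F₀ ≤ Pe (tup p L (n + 2)) (Bg M b th A0 κ))
    (he : F₀ * (|e₀| + (3 * n + 8) * d + |Pool.POT64.Cch 2 Lm C| + |Cc 2 (4 * Lm)|) ≤ η * X) :
    Pb (cpy (cond (tup p L (n + 2)) (Bg M b th A0 κ) True) (fun w => Z (w 0)) (fun w => Bs (w 0)))
      (fun W => RR ((2 : ℝ) ^ (-(κ₁ * X))) (bod M A0 (b (W 0 0)) fun j => th (W 0 j.succ))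
        (bod M A0 (b (W 1 0)) fun j => th (W 1 j.succ))) ≤ δ := by
  have hp := hH.law
  have ht := tup_isLaw hp L (n + 2)
  have ht0 := ht.nonneg
  have him0 : Im (tup p L (n + 2)) p (fun w => w 0) := im_tup hp.nonneg L _ 0
  have hF0 : 0 < F₀ := by linarith
  have hP0 : 0 < Pe (tup p L (n + 2)) (Bg M b th A0 κ) := lt_of_lt_of_le (by positivity) hB
  have hd0 : 0 ≤ d := (MI_nonneg hp.nonneg _ _ _).trans hH.h0
  obtain ⟨q, hq⟩ : ∃ q, q = cond (tup p L (n + 2)) (Bg M b th A0 κ) True := ⟨_, rfl⟩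
  rw [← hq]
  have hql : IsLaw q := by rw [hq]; exact cond_law ht0 hP0
  have hq0 := hql.nonneg
  have hqt : ∀ w, 0 < q w → 0 < tup p L (n + 2) w := fun w hw => by
    rw [hq] at hw
    exact ((cond_pos_iff ht0 _ True w).1 hw).1
  have hqp : ∀ w, 0 < q w → 0 < p (w 0) := fun w hw => him0.pos ht0 (hqt w hw)
  have hc := tup_isLaw hql (fun w => (Z (w 0), Bs (w 0))) 1
  have hc0 := hc.nonneg
  have i0 := cpy_im hq0 (fun w => Z (w 0)) (fun w => Bs (w 0)) 0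
  have i1 := cpy_im hq0 (fun w => Z (w 0)) (fun w => Bs (w 0)) 1
  have hden : ∀ w, q w ≤ F₀ * tup p L (n + 2) w := fun w => by
    rw [hq]
    refine (cond_le ht0 w).trans (mul_le_mul_of_nonneg_right ?_ (ht0 w))
    rw [div_le_iff₀ hP0]
    calc (1 : ℝ) = F₀ * (1 / F₀) := by field_simp
      _ ≤ _ := mul_le_mul_of_nonneg_left hB hF0.le
  -- the data and the base
  have hBd : Det q (dat Wd b th) (fun w => Bs (w 0)) := by
    intro w w' x y e
    simp only [dat, Prod.mk.injEq] at e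
    refine hH.BY _ _ (hqp w x) (hqp w' y) ?_
    simp only [Prod.mk.injEq]
    exact ⟨e.1, e.2.2.1, e.2.1⟩
  -- the information
  have m1 := hH.mi_few (n + 2)
  have m2 : MI q (fun w => Z (w 0)) (dat Wd b th) (fun w => Bs (w 0)) ≤ F₀ * ((n + 3) * d) := by
    have h1 := MI_ev ht (G := Bg M b th A0 κ) (fun w => Z (w 0)) (dat Wd b th)
      (fun w => Bs (w 0)) (fun w w' x y e =>
        Bg_det (Wd := Wd) _ w w' x y (Prod.ext_iff.mp e).1) hP0
    rw [← hq] at h1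
    refine h1.trans ?_
    rw [div_le_iff₀ hP0]
    have h2 : (1 : ℝ) ≤ F₀ * Pe (tup p L (n + 2)) (Bg M b th A0 κ) := by
      calc (1 : ℝ) = F₀ * (1 / F₀) := by field_simp
        _ ≤ _ := mul_le_mul_of_nonneg_left hB hF0.le
    have h3 : ((n + 2 : ℕ) + 1 : ℝ) * d = (n + 3) * d := by push_cast; ring
    rw [h3] at m1
    have h4 : 0 ≤ ((n : ℝ) + 3) * d := by positivity
    calc _ ≤ (n + 3) * d := m1
      _ = 1 * ((n + 3) * d) := (one_mul _).symm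
      _ ≤ F₀ * Pe (tup p L (n + 2)) (Bg M b th A0 κ) * ((n + 3) * d) :=
          mul_le_mul_of_nonneg_right h2 h4
      _ = _ := by ring
  -- the deficit of one copy
  have d1 : DF q (fun _ => Tx 2 X) (fun w => bod M A0 (b (w 0)) fun j => th (w j.succ))
      (fun w => xv X (Z (w 0))) (dat Wd b th) ≤
      F₀ * (|e₀| + (2 * (n + 2) + 1) * d + |Pool.POT64.Cch 2 Lm C| + |Cc 2 (4 * Lm)|) := by
    have h1 := hH.df_tup hL0 hinv hbody (n + 1) id Function.injective_id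
    have h2 := DF_ev ht (G := Bg M b th A0 κ) (T := fun _ => Tx 2 X)
      (V := fun w => bod M A0 (b (w 0)) fun j => th (w j.succ))
      (fun w => xv X (Z (w 0))) (dat Wd b th) (Bg_det _) (fun _ _ _ _ _ => rfl) (bod_dt _)
      (fun _ => Tx_det 2 X) (fun w => hH.bod_det hA _ _) (c := 4 * Lm) (by positivity)
      (fun w => hH.bod_inc hinv _ _) hP0
    rw [← hq] at h2
    refine h2.trans ?_
    rw [div_le_iff₀ hP0]
    have h3 : (1 : ℝ) ≤ F₀ * Pe (tup p L (n + 2)) (Bg M b th A0 κ) := by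
      calc (1 : ℝ) = F₀ * (1 / F₀) := by field_simp
        _ ≤ _ := mul_le_mul_of_nonneg_left hB hF0.le
    have h4 : 0 ≤ |e₀| + (2 * (n + 2) + 1) * d + |Pool.POT64.Cch 2 Lm C| + |Cc 2 (4 * Lm)| := by
      positivity
    have h5 := le_abs_self e₀
    have h6 := le_abs_self (Pool.POT64.Cch 2 Lm C)
    have h7 : DF (tup p L (n + 2)) (fun _ => Tx 2 X)
        (fun w => bod M A0 (b (w 0)) fun j => th (w j.succ)) (fun w => xv X (Z (w 0)))
        (dat Wd b th) + |Cc 2 (4 * Lm)| ≤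
        |e₀| + (2 * (n + 2) + 1) * d + |Pool.POT64.Cch 2 Lm C| + |Cc 2 (4 * Lm)| := by
      have h8 : DF (tup p L (n + 2)) (fun _ => Tx 2 X)
        (fun w => bod M A0 (b (w 0)) fun j => th (w j.succ)) (fun w => xv X (Z (w 0)))
        (dat Wd b th) ≤ e₀ + (2 * (((n + 1 : ℕ) : ℝ) + 1) + 1) * d +
          Pool.POT64.Cch 2 Lm C := h1
      have h9 : (2 * (((n + 1 : ℕ) : ℝ) + 1) + 1) * d = (2 * (n + 2) + 1) * d := by
        push_cast
        ring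
      rw [h9] at h8
      linarith
    calc _ ≤ |e₀| + (2 * (n + 2) + 1) * d + |Pool.POT64.Cch 2 Lm C| + |Cc 2 (4 * Lm)| := h7
      _ = 1 * (|e₀| + (2 * (n + 2) + 1) * d + |Pool.POT64.Cch 2 Lm C| + |Cc 2 (4 * Lm)|) :=
          (one_mul _).symm
      _ ≤ F₀ * Pe (tup p L (n + 2)) (Bg M b th A0 κ) *
          (|e₀| + (2 * (n + 2) + 1) * d + |Pool.POT64.Cch 2 Lm C| + |Cc 2 (4 * Lm)|) :=
          mul_le_mul_of_nonneg_right h3 h4
      _ = _ := by ring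
  have hsum : F₀ * (|e₀| + (2 * (n + 2) + 1) * d + |Pool.POT64.Cch 2 Lm C| + |Cc 2 (4 * Lm)|) +
      F₀ * ((n + 3) * d) ≤ η * X := by
    refine le_trans (le_of_eq ?_) he
    ring
  -- the two copies
  have dA : DF (cpy q (fun w => Z (w 0)) (fun w => Bs (w 0))) (fun _ => Tx 2 X)
      (fun W => bod M A0 (b (W 0 0)) fun j => th (W 0 j.succ)) (fun W => xv X (Z (W 0 0)))
      (fun W => (dat Wd b th (W 1), dat Wd b th (W 0))) ≤ η * X := by
    have h1 := DF_more hc0 X (A := fun W => bod M A0 (b (W 0 0)) fun j => th (W 0 j.succ))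
      (n := fun W => Z (W 0 0)) (Z := fun W => dat Wd b th (W 0)) (fun W => dat Wd b th (W 1))
      (i0.det hc0 (bod_dt (Wd := Wd) q))
    have h2 := DF_image i0 X (fun w => bod M A0 (b (w 0)) fun j => th (w j.succ))
      (fun w => Z (w 0)) (dat Wd b th)
    have h3 := cpy_mi0 hq0 (fun w => Z (w 0)) (fun w => Bs (w 0)) (dat Wd b th) hBd
    rw [h2] at h1
    linarith
  have dB : DF (cpy q (fun w => Z (w 0)) (fun w => Bs (w 0))) (fun _ => Tx 2 X)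
      (fun W => bod M A0 (b (W 1 0)) fun j => th (W 1 j.succ)) (fun W => xv X (Z (W 0 0)))
      (fun W => (dat Wd b th (W 1), dat Wd b th (W 0))) ≤ η * X := by
    have h1 := DF_more hc0 X (A := fun W => bod M A0 (b (W 1 0)) fun j => th (W 1 j.succ))
      (n := fun W => Z (W 1 0)) (Z := fun W => dat Wd b th (W 1)) (fun W => dat Wd b th (W 0))
      (i1.det hc0 (bod_dt (Wd := Wd) q))
    have h2 := DF_image i1 X (fun w => bod M A0 (b (w 0)) fun j => th (w j.succ))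
      (fun w => Z (w 0)) (dat Wd b th)
    have h3 := cpy_mi1 hq0 (fun w => Z (w 0)) (fun w => Bs (w 0)) (dat Wd b th) hBd
    rw [h2] at h1
    have h4 := Pool.TQ64.DF_cg hc0 X
      (A := fun W => bod M A0 (b (W 1 0)) fun j => th (W 1 j.succ))
      (A' := fun W => bod M A0 (b (W 1 0)) fun j => th (W 1 j.succ))
      (n := fun W => Z (W 0 0)) (n' := fun W => Z (W 1 0))
      (Z := fun W => (dat Wd b th (W 1), dat Wd b th (W 0)))
      (Z' := fun W => (dat Wd b th (W 0), dat Wd b th (W 1))) (fun _ _ => rfl)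
      (fun W hW => (cpy_key hq0 (fun w => Z (w 0)) (fun w => Bs (w 0)) hW).1.symm)
      (fun W W' _ _ e => by
        simp only [Prod.mk.injEq] at e ⊢
        exact ⟨e.2, e.1⟩)
      (fun W W' _ _ e => by
        simp only [Prod.mk.injEq] at e ⊢
        exact ⟨e.2, e.1⟩)
    rw [h4]
    linarith
  have k3 := hm Ω (Fin (1 + 1) → Fin (n + 2 + 1) → Ω) _ σ inferInstance inferInstance p
    (cpy q (fun w => Z (w 0)) (fun w => Bs (w 0))) (fun W => W 0 0) Z Bs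
    (fun W => bod M A0 (b (W 0 0)) fun j => th (W 0 j.succ))
    (fun W => bod M A0 (b (W 1 0)) fun j => th (W 1 j.succ))
    (fun W => (dat Wd b th (W 1), dat Wd b th (W 0))) X hX hp hc (by
      intro ω
      have h1 : mg (cpy q (fun w => Z (w 0)) (fun w => Bs (w 0))) (fun W => W 0 0) ω =
          mg q (fun w => w 0) ω :=
        (im_mg q (fun w => w 0)).comp i0 ω
      rw [h1]
      exact mg_le him0 hden ω)
    (by
      intro W W' x y e
      exact bod_dt (Wd := Wd) q (W 0) (W' 0) (i0.pos hc0 x) (i0.pos hc0 y) (Prod.ext_iff.mp e).2)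
    (by
      intro W W' x y e
      exact bod_dt (Wd := Wd) q (W 1) (W' 1) (i1.pos hc0 x) (i1.pos hc0 y) (Prod.ext_iff.mp e).1)
    (by
      intro W W' x y e
      exact hBd (W 0) (W' 0) (i0.pos hc0 x) (i0.pos hc0 y) (Prod.ext_iff.mp e).2)
    (fun W => hH.bod_det hA _ _) (fun W => hH.bod_det hA _ _) (fun W => hH.bod_inc hinv _ _)
    (fun W => hH.bod_inc hinv _ _) dA dB hH.Z_b
    (fun G h1 h2 => (hH.nfB hϖ G h1 h2).trans hR)
  rw [← Pb_Pe] at k3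
  exact k3

end Pool.DIR21
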