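import Pool.Agent.H21.DIR.Qe
import Pool.Agent.H21.FS.Qh

/-!
# DIR: the conclusion

`qh_dir`: a picture of degree `n` with two coordinates whose row is not full given the slow digits.
Then there is a direction `ell`, a function of the line, few given the base and few given the context,
in which the slopes are polynomials of degree `n` in the time, to `x₀ X` digits for every `3 x₀ < h`,
with coefficients which are functions of the line and few given the context.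
-/

set_option autoImplicit false

namespace Pool.DIR21

open Finset Real Matrix
open Pool.Agent.H49.Ent Pool.Agent.H32.Dense Pool.STK Pool.POT Pool.FAD Pool.SLO Pool.TQ
open Pool.K2S (Pe)
open Pool.BFL (Pb)
open Pool.BD64 (QHd)
open Pool.TT37 (dd con_d)
open Pool.FS21 (okd_mi line_det okd_mono okd_tm far_tm ex_pow log_sz num_fin hWa hWk)

variable {k n : ℕ}

/-- The vectors in a direction. -/
theorem dd_dir {T : Type} (n : ℕ) (tau : T → ℤ) (E : T → Fin k → Fin 2 → ℝ) (l : Fin 2 → ℝ)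
    (t : Fin (n + 2) → T) (u : Fin k) :
    dd n (fun x : (Fin 2 → ℝ) × T => tau x.2) (fun x u (_ : Fin 1) => ∑ i, x.1 i * E x.2 u i) u
      (fun j => (l, t j)) 0 = ∑ i, l i * dd n tau E u t i := by
  unfold dd
  split_ifs with h
  · simp only [Fin.sum_univ_two]
    rw [Finset.mul_sum, Finset.mul_sum, ← Finset.sum_add_distrib]
    refine Finset.sum_congr rfl fun j _ => ?_
    ring
  · simp

/-- **DIR.** -/
theorem qh_dir (k n : ℕ) (hn : 1 ≤ n) {h x₀ σ ε₀ : ℝ} (hh1 : h ≤ 1) (hx0 : 0 < x₀)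
    (hx : 3 * x₀ < h) (hσ : 0 < σ) (hε₀ : 0 < ε₀) :
    ∃ io ϖ : ℝ, 0 < io ∧ 0 < ϖ ∧ ∀ C : ℝ, 1 ≤ C → ∃ X0 : ℕ,
    ∀ (H : QHd 2 k n) (ρ β σ' : Type) (S : H.Ω → ρ) (Wd : H.Ω → β) (Z : H.Ω → Fin 2 → ℤ)
      (Bs : H.Ω → σ') (X : ℕ), X0 ≤ X → DirH H S Wd Z Bs X C (io * X) h ϖ →
      ∃ (ell : (Fin 2 → ℤ) × (H.Vt × H.B) → Fin 2 → ℝ)
        (ep : (Fin 2 → ℤ) × (H.Vt × H.B) → Fin (n + 1) → Fin k → ℝ),
        (∀ z i, |ell z i| ≤ 1) ∧ (∀ z, ∃ i, |ell z i| = 1) ∧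
        (∀ z a u, |ep z a u| ≤ (2 : ℝ) ^ (σ * X)) ∧
        Pb H.p (fun ω => ¬ ∀ u, |∑ i, ell (H.line ω) i * H.E (H.th ω) u i -
          ∑ a, ep (H.line ω) a u * ((H.tau (H.th ω) : ℝ) / 2 ^ X) ^ (a : ℕ)| ≤
            (2 : ℝ) ^ ((σ - x₀) * X)) ≤ ε₀ ∧
        CH H.p (fun ω => ell (H.line ω)) Bs ≤ ε₀ * X ∧
        CH H.p (fun ω => ell (H.line ω)) H.b ≤ ε₀ * X ∧
        ∀ Y : ℕ, (Y : ℝ) ≤ (x₀ - σ) * X →
          CH H.p (fun ω (v : Fin (n + 1) × Fin k) => ⌊(2 : ℝ) ^ Y * ep (H.line ω) v.1 v.2⌋)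
            H.b ≤ ε₀ * X := by
  classical
  have hL2 : 0 < Real.log 2 := Real.log_pos (by norm_num)
  have hn0 : (0 : ℝ) ≤ n := Nat.cast_nonneg n
  have hk0 : (0 : ℝ) ≤ k := Nat.cast_nonneg k
  have hx1 : x₀ ≤ 1 := by linarith
  obtain ⟨W, hW⟩ : ∃ W : ℝ, W = ((n : ℝ) + 2) ^ 2 * (k + 1) * 8 := ⟨_, rfl⟩
  have hW8 : 8 ≤ W := by
    rw [hW]
    have h1 : (1 : ℝ) ≤ ((n : ℝ) + 2) ^ 2 := one_le_pow₀ (by linarith)
    have h2 : (1 : ℝ) ≤ (k : ℝ) + 1 := by linarith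
    nlinarith [mul_le_mul h1 h2 zero_le_one (by positivity)]
  obtain ⟨δ, hδ⟩ : ∃ δ : ℝ, δ = min ε₀ 1 / (W * (W * (3 + σ))) := ⟨_, rfl⟩
  have hm0 : 0 < min ε₀ 1 := lt_min hε₀ one_pos
  have hδ0 : 0 < δ := by
    rw [hδ]
    positivity
  obtain ⟨s', hs'⟩ : ∃ s' : ℝ, s' = min (σ / 8) 1 / (n + 3) := ⟨_, rfl⟩
  have hs'm : 0 < min (σ / 8) 1 := lt_min (by positivity) one_pos
  have hs'0 : 0 < s' := by
    rw [hs']
    positivity
  have hs'n : s' * (n + 3) = min (σ / 8) 1 := by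
    rw [hs']
    field_simp
  have hs'1 : s' * (n + 3) ≤ 1 := hs'n.le.trans (min_le_right _ _)
  have hs'3 : s' * (n + 3) ≤ σ / 8 := hs'n.le.trans (min_le_left _ _)
  have hs'4 : s' ≤ 1 := by
    have h5 : s' * 1 ≤ s' * (n + 3) := mul_le_mul_of_nonneg_left (by linarith) hs'0.le
    linarith
  -- the mass of the direction
  obtain ⟨ε', hε'⟩ : ∃ ε' : ℝ, ε' = min (min δ 1) (ε₀ / (4 * (n + 1))) := ⟨_, rfl⟩
  have hε'0 : 0 < ε' := by
    rw [hε']
    exact lt_min (lt_min hδ0 one_pos) (by positivity)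
  have he1 : ε' ≤ δ := by
    rw [hε']
    exact (min_le_left _ _).trans (min_le_left _ _)
  have he2 : ε' ≤ 1 := by
    rw [hε']
    exact (min_le_left _ _).trans (min_le_right _ _)
  have he3 : ε' ≤ ε₀ / (4 * (n + 1)) := by rw [hε']; exact min_le_right _ _
  have he4 : ε' ≤ ε₀ := by
    refine he3.trans (div_le_self hε₀.le ?_)
    linarith
  obtain ⟨io1, ϖ, hio1, hϖ, H1⟩ := qh_ell k n hn hh1 hx0 hx hε'0 he2
  obtain ⟨io, hio⟩ : ∃ io : ℝ, io = min io1 (min (δ * s' * Real.log 2 / 64) (ε₀ / (4 * (n + 1)))) :=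
    ⟨_, rfl⟩
  have hio0 : 0 < io := by
    rw [hio]
    exact lt_min hio1 (lt_min (by positivity) (by positivity))
  have hi1 : io ≤ io1 := by rw [hio]; exact min_le_left _ _
  have hi2 : io ≤ δ * s' * Real.log 2 / 64 := by
    rw [hio]
    exact (min_le_right _ _).trans (min_le_left _ _)
  have hi3 : io ≤ ε₀ / (4 * (n + 1)) := by
    rw [hio]
    exact (min_le_right _ _).trans (min_le_right _ _)
  refine ⟨io, ϖ, hio0, hϖ, fun C hC => ?_⟩
  obtain ⟨K, X1, hK0, H1⟩ := H1 C hC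
  obtain ⟨X2, hX2⟩ := ex_lin (a := s') (b := 4) hs'0
  obtain ⟨X3, hX3⟩ := ex_pow (a := σ / 2) (b := (n + 1) * (2 * C * 2 ^ (n + 1))) (by positivity)
  obtain ⟨X4, hX4⟩ := ex_lin (a := δ * s' * Real.log 2 / 32) (b := Real.log 4) (by positivity)
  obtain ⟨X5, hX5⟩ := ex_lin (a := ε₀ / 4) (b := ((n : ℝ) + 1) * k * (Real.log 2 +
    Real.log (2 * ((n + 1) * 2 ^ (n + 1) + 1) + 1)) + 1) (by positivity)
  obtain ⟨X6, hX6⟩ := ex_pow (a := σ / 4) (b := K) (by positivity)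
  refine ⟨max (max X1 (max X2 X3)) (max (max X4 X5) (max X6 1)),
    fun H ρ β σ' S Wd Z Bs X hX hH => ?_⟩
  obtain ⟨b1, b2⟩ := max_le_iff.1 hX
  obtain ⟨b1, b3⟩ := max_le_iff.1 b1
  obtain ⟨b3, b4⟩ := max_le_iff.1 b3
  obtain ⟨b5, b6⟩ := max_le_iff.1 b2
  obtain ⟨b7, b8⟩ := max_le_iff.1 b5
  obtain ⟨b9, b10⟩ := max_le_iff.1 b6
  have hX1 : (1 : ℝ) ≤ X := by exact_mod_cast b10
  have hX0 : (0 : ℝ) < X := by linarith
  replace hX2 := hX2 X b3
  replace hX3 := hX3 X b4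
  replace hX4 := hX4 X b7
  replace hX5 := hX5 X b8
  replace hX6 := hX6 X b9
  have hl := hH.ok.law
  have h2X : (0 : ℝ) < 2 ^ X := by positivity
  obtain ⟨s, hs⟩ : ∃ s : ℝ, s = (2 : ℝ) ^ (-(s' * X)) := ⟨_, rfl⟩
  have hs0 : 0 < s := by rw [hs]; positivity
  have hs1 : s ≤ 1 := by
    rw [hs]
    have h5 : 0 ≤ s' * X := by positivity
    exact Real.rpow_le_one_of_one_le_of_nonpos (by norm_num) (by linarith)
  -- the direction
  obtain ⟨ψ, r1, rB, rb⟩ := H1 H ρ β σ' S Wd Z Bs X b1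
    (hH.mono (mul_le_mul_of_nonneg_right hi1 hX0.le))
  obtain ⟨th', hth'⟩ : ∃ th' : H.Ω → (Fin 2 → ℝ) × H.Tt,
    th' = fun ω => (pl (ψ (H.line ω)), H.th ω) := ⟨_, rfl⟩
  obtain ⟨tau', htau'⟩ : ∃ tau' : (Fin 2 → ℝ) × H.Tt → ℤ, tau' = fun x => H.tau x.2 := ⟨_, rfl⟩
  obtain ⟨E', hE'⟩ : ∃ E' : (Fin 2 → ℝ) × H.Tt → Fin k → Fin 1 → ℝ,
    E' = fun x u _ => ∑ i, x.1 i * H.E x.2 u i := ⟨_, rfl⟩
  have htt : ∀ ω, tau' (th' ω) = H.tau (H.th ω) := fun ω => by rw [htau', hth']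
  have hEE : ∀ ω u i, E' (th' ω) u i = ∑ j, pl (ψ (H.line ω)) j * H.E (H.th ω) u j :=
    fun ω u i => by rw [hE', hth']
  obtain ⟨e, he⟩ : ∃ e : ℝ, e = K * (2 : ℝ) ^ (-(x₀ * X)) := ⟨_, rfl⟩
  have he0 : 0 < e := by rw [he]; positivity
  have hq1 := (tup_isLaw hl H.line (n + 2)).nonneg
  have r2 : Pb (tup H.p H.line (n + 2)) (fun w => ∃ u i,
      e < |dd n tau' E' u (fun j => th' (w j.succ)) i|) ≤ δ := by
    have him : Im (tup H.p H.line (n + 2)) (tup H.p H.line (n + 1)) (fun w => w ∘ Fin.succ) :=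
      im_of_marg (tup_sub hl.nonneg H.line (M := n + 1) (N := n + 2) Fin.succ
        (Fin.succ_injective _))
    rw [Pb_im him] at r1
    refine le_trans (Pb_mono hq1 ?_) (r1.trans he1)
    rintro w hw ⟨u, i, hu⟩
    refine ⟨u, ?_⟩
    have hi : i = 0 := Subsingleton.elim _ _
    have e1 : (fun j : Fin (n + 2) => th' (w j.succ)) =
        fun j => (pl (ψ (H.line ((w ∘ Fin.succ) 0))), H.th ((w ∘ Fin.succ) j)) := by
      funext j
      rw [hth']
      have e2 : H.line (w j.succ) = H.line ((w ∘ Fin.succ) 0) :=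
        (tup_line hl.nonneg H.line hw _).trans (tup_line hl.nonneg H.line hw _).symm
      simp only [Function.comp] at e2 ⊢
      rw [e2]
    rw [hi, e1, hE', htau', dd_dir, he] at hu
    exact hu
  -- the times
  have r3 : Pb (tup H.p H.line 1) (fun w =>
      |((tau' (th' (w 0)) - tau' (th' (w 1)) : ℤ) : ℝ)| ≤ s * 2 ^ X) ≤ δ := by
    have h1 := far_tm hl H.line (fun ω => H.tau (H.th ω)) hH.ok.tau_r (okd_tm hH.ok) hs'4 hX2
    rw [← hs] at h1
    simp only [htt]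
    have h2 : 0 < s' * X / 2 * Real.log 2 := by positivity
    rw [← le_div_iff₀ h2] at h1
    refine h1.trans ?_
    rw [div_le_iff₀ h2]
    have h3 := mul_le_mul_of_nonneg_right hi2 hX0.le
    linarith
  -- the polynomials
  have hEb : ∀ ω u i, |E' (th' ω) u i| ≤ 2 * C := fun ω u i => by
    rw [hEE, Fin.sum_univ_two]
    refine (abs_add_le _ _).trans ?_
    rw [abs_mul, abs_mul]
    have h1 := (pl_un (ψ (H.line ω))).1
    have h2 := mul_le_mul (h1 0) (hH.ok.E_b ω u 0) (abs_nonneg _) zero_le_one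
    have h3 := mul_le_mul (h1 1) (hH.ok.E_b ω u 1) (abs_nonneg _) zero_le_one
    linarith
  obtain ⟨ep, hb, hP⟩ := con_d hl H.line th' tau' n E' (C := 2 * C) (s := s) (e := e) (X := X)
    hs0 hs1 (fun ω => by rw [htt]; exact hH.ok.tau_r ω) hEb r2 r3
  have hpw : (2 / s) ^ (n + 1) ≤ 2 ^ (n + 1) * (2 : ℝ) ^ (σ / 2 * X) := by
    rw [div_pow, div_eq_mul_inv]
    refine mul_le_mul_of_nonneg_left ?_ (by positivity)
    rw [hs, ← Real.rpow_natCast ((2 : ℝ) ^ (-(s' * X))), ← Real.rpow_mul (by norm_num),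
      ← Real.rpow_neg (by norm_num)]
    refine Real.rpow_le_rpow_of_exponent_le (by norm_num) ?_
    have h5 : -(-(s' * (X : ℝ)) * ((n + 1 : ℕ) : ℝ)) = (s' * (n + 3) - 2 * s') * X := by
      push_cast
      ring
    rw [h5]
    exact mul_le_mul_of_nonneg_right (by linarith) hX0.le
  have hCb : (n + 1) * (2 * C * (2 / s) ^ (n + 1)) ≤ (2 : ℝ) ^ (σ * X) := by
    have e1 : (2 : ℝ) ^ (σ * X) = (2 : ℝ) ^ (σ / 2 * X) * (2 : ℝ) ^ (σ / 2 * X) := by
      rw [← Real.rpow_add (by norm_num)]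
      congr 1
      ring
    rw [e1]
    calc (n + 1) * (2 * C * (2 / s) ^ (n + 1)) ≤
          (n + 1) * (2 * C * (2 ^ (n + 1) * (2 : ℝ) ^ (σ / 2 * X))) := by gcongr
      _ = (n + 1) * (2 * C * 2 ^ (n + 1)) * (2 : ℝ) ^ (σ / 2 * X) := by ring
      _ ≤ _ := mul_le_mul_of_nonneg_right hX3 (by positivity)
  have hmass : (n + 2) * δ + (n + 2) ^ 2 * δ ≤ W * δ := by
    have h1 : ((n : ℝ) + 2) + (n + 2) ^ 2 ≤ W := by
      rw [hW]
      nlinarith [mul_nonneg (sq_nonneg ((n : ℝ) + 2)) hk0]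
    have := mul_le_mul_of_nonneg_right h1 hδ0.le
    linarith
  have hWδ : W * δ * (W * (3 + σ)) = min ε₀ 1 := by
    rw [hδ]
    field_simp
  have hWδ1 : W * δ ≤ ε₀ := by
    have h1 : 1 ≤ W * (3 + σ) := one_le_mul_of_one_le_of_one_le (by linarith) (by linarith)
    have h2 : 0 ≤ W * δ := by positivity
    calc W * δ = W * δ * 1 := (mul_one _).symm
      _ ≤ W * δ * (W * (3 + σ)) := mul_le_mul_of_nonneg_left h1 h2
      _ ≤ ε₀ := hWδ.le.trans (min_le_left _ _)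
  have herr : e / s ^ (n + 2) ≤ (2 : ℝ) ^ (σ / 2 * X - x₀ * X) := by
    have h1 : e / s ^ (n + 2) = K * (2 : ℝ) ^ (s' * (n + 2) * X - x₀ * X) := by
      rw [he, mul_div_assoc, hs, ← Real.rpow_natCast ((2 : ℝ) ^ (-(s' * X))),
        ← Real.rpow_mul (by norm_num), ← Real.rpow_sub (by norm_num)]
      congr 2
      push_cast
      ring
    rw [h1]
    calc K * (2 : ℝ) ^ (s' * (n + 2) * X - x₀ * X) ≤
          (2 : ℝ) ^ (σ / 4 * X) * (2 : ℝ) ^ (s' * (n + 2) * X - x₀ * X) :=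
          mul_le_mul_of_nonneg_right hX6 (by positivity)
      _ = (2 : ℝ) ^ (σ / 4 * X + (s' * (n + 2) * X - x₀ * X)) := by
          rw [← Real.rpow_add (by norm_num)]
      _ ≤ _ := by
          refine Real.rpow_le_rpow_of_exponent_le (by norm_num) ?_
          have h2 : s' * (n + 2) ≤ σ / 4 := by
            have h5 : s' * (n + 2) = s' * (n + 3) - s' := by ring
            linarith
          have h3 := mul_le_mul_of_nonneg_right h2 hX0.le
          linarith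
  have hP' : Pb H.p (fun ω => ¬ ∀ (i : Fin 1) (u : Fin k), |E' (th' ω) u i -
      ∑ a, ep (H.line ω) a u 0 * ((tau' (th' ω) : ℝ) / 2 ^ X) ^ (a : ℕ)| ≤
        (2 : ℝ) ^ (σ / 2 * X - x₀ * X)) ≤ W * δ := by
    refine le_trans ?_ (hP.trans hmass)
    refine Pool.TT37.pb_mono hl.nonneg fun ω _ h1 h2 => h1 fun i u => ?_
    have hi : i = 0 := Subsingleton.elim _ _
    rw [hi]
    exact (h2 u 0).trans herr
  refine ⟨fun z => pl (ψ z), fun z a u => ep z a u 0, fun z => (pl_un _).1, fun z => (pl_un _).2,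
    fun z a u => (hb z a u 0).trans hCb, ?_, ?_, ?_, ?_⟩
  · refine le_trans ?_ (hP'.trans hWδ1)
    refine Pool.TT37.pb_mono hl.nonneg fun ω _ h1 h2 => h1 fun u => ?_
    have h3 := h2 0 u
    rw [hEE, htt] at h3
    refine h3.trans (Real.rpow_le_rpow_of_exponent_le (by norm_num) ?_)
    have h5 : 0 ≤ σ * X := by positivity
    linarith
  · refine le_trans (CH_mono_left hl.nonneg fun ω ω' _ _ e => ?_)
      (rB.trans (mul_le_mul_of_nonneg_right he4 hX0.le))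
    simp only [Prod.mk.injEq] at e
    simp only [e.1]
  · refine le_trans (CH_mono_left hl.nonneg fun ω ω' _ _ e => ?_)
      (rb.trans (mul_le_mul_of_nonneg_right he4 hX0.le))
    simp only [Prod.mk.injEq] at e
    simp only [e.1]
  · intro Y hY
    have hVb := log_sz (x₀ := x₀) hx1 hσ hY
    have hDY : (2 : ℝ) ^ Y * ((n + 1) * ((2 : ℝ) ^ (σ / 2 * X - x₀ * X) * (2 / s) ^ (n + 1))) + 1 ≤
        (n + 1) * 2 ^ (n + 1) + 1 := by
      have h1 : (2 : ℝ) ^ Y * ((n + 1) * ((2 : ℝ) ^ (σ / 2 * X - x₀ * X) * (2 / s) ^ (n + 1))) ≤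
          (2 : ℝ) ^ Y * ((n + 1) * ((2 : ℝ) ^ (σ / 2 * X - x₀ * X) *
            (2 ^ (n + 1) * (2 : ℝ) ^ (σ / 2 * X)))) := by gcongr
      have h2 : (2 : ℝ) ^ Y * ((2 : ℝ) ^ (σ / 2 * X - x₀ * X) * (2 : ℝ) ^ (σ / 2 * X)) ≤ 1 := by
        rw [← Real.rpow_natCast, ← Real.rpow_add (by norm_num), ← Real.rpow_add (by norm_num)]
        refine Real.rpow_le_one_of_one_le_of_nonpos (by norm_num) ?_
        have h5 : 0 ≤ σ * X := by positivity
        linarith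
      have h3 : (2 : ℝ) ^ Y * ((n + 1) * ((2 : ℝ) ^ (σ / 2 * X - x₀ * X) *
            (2 ^ (n + 1) * (2 : ℝ) ^ (σ / 2 * X)))) = (n + 1) * 2 ^ (n + 1) *
            ((2 : ℝ) ^ Y * ((2 : ℝ) ^ (σ / 2 * X - x₀ * X) * (2 : ℝ) ^ (σ / 2 * X))) := by ring
      have h4 : (n + 1 : ℝ) * 2 ^ (n + 1) *
            ((2 : ℝ) ^ Y * ((2 : ℝ) ^ (σ / 2 * X - x₀ * X) * (2 : ℝ) ^ (σ / 2 * X))) ≤
            (n + 1) * 2 ^ (n + 1) * 1 := mul_le_mul_of_nonneg_left h2 (by positivity)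
      linarith
    have hMI : MI H.p th' H.line H.b ≤ ε₀ / (2 * (n + 1)) * X := by
      have h0 := hl.nonneg
      have h1 : MI H.p th' H.line H.b ≤ MI H.p (fun ω => (H.th ω, ψ (H.line ω))) H.line H.b :=
        MI_le_left h0 (X := fun ω => (H.th ω, ψ (H.line ω))) (fun ω ω' _ _ e => by
          simp only [Prod.mk.injEq] at e
          rw [hth']
          simp only [e.1.1, e.1.2])
      have h2 := MI_chain_left h0 H.th (fun ω => ψ (H.line ω)) H.line H.b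
      have h3 := okd_mi hH.ok
      have h4 : MI H.p (fun ω => ψ (H.line ω)) H.line (fun ω => (H.th ω, H.b ω)) ≤ ε' * X :=
        (MI_le_CH h0 _ _ _).trans ((CH_mono_cond h0
          fun ω ω' _ _ e => (Prod.ext_iff.mp e).2).trans rb)
      have h5 : (io + ε') * X ≤ ε₀ / (2 * (n + 1)) * X := by
        refine mul_le_mul_of_nonneg_right ?_ hX0.le
        have h6 : ε₀ / (2 * ((n : ℝ) + 1)) = ε₀ / (4 * (n + 1)) + ε₀ / (4 * (n + 1)) := by
          field_simp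
          ring
        rw [h6]
        linarith
      linarith
    have hc := Pool.TC.coef_few hl H.line th' H.b (line_det H) tau' (c := 1) (k := k) (X := X) n
      E' (C := (2 : ℝ) ^ (σ * X)) (s := s) (e := (2 : ℝ) ^ (σ / 2 * X - x₀ * X)) (δ₁ := W * δ)
      (δ₂ := δ) (io := ε₀ / (2 * (n + 1)) * X) (D := (n + 1) * 2 ^ (n + 1) + 1) (by positivity)
      hs0 hs1 (by positivity) (fun ω => by rw [htt]; exact hH.ok.tau_r ω)
      (fun z a _ u => ep z a u 0) (fun z a _ u => (hb z a u 0).trans hCb) hP' r3 hMI Y hDY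
    have hcc : CH H.p (fun ω (v : Fin (n + 1) × Fin k) =>
        ⌊(2 : ℝ) ^ Y * ep (H.line ω) v.1 v.2 0⌋) H.b ≤
        CH H.p (fun ω (v : Fin (n + 1) × (Fin 1 × Fin k)) =>
          ⌊(2 : ℝ) ^ Y * ep (H.line ω) v.1 v.2.2 0⌋) H.b := by
      refine CH_mono_left hl.nonneg fun ω ω' _ _ e => ?_
      simp only [Prod.mk.injEq] at e
      funext v
      exact congrFun e.1 (v.1, (0, v.2))
    refine hcc.trans (hc.trans ?_)
    refine le_trans (le_of_eq ?_) (num_fin (a := (n : ℝ) + 1) (κ := (k : ℝ))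
      (io := ε₀ / (2 * (n + 1))) (by linarith) hk0
      (hW.symm ▸ hWa hn0 hk0) (hW.symm ▸ hWk hn0 hk0) hσ hε₀ hδ le_rfl hX0.le hX5 hVb)
    push_cast
    ring

end Pool.DIR21
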