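import Pool.Agent.H21.DIR.Dir
import Pool.Agent.H21.BD.Fin

/-!
# DIR for the pictures of degree `n` with two coordinates

`DirH`: the hypotheses. `qh_ell`: the direction, a function of the line, which is orthogonal to the
vectors of `n + 2` times.
-/

set_option autoImplicit false

namespace Pool.DIR21

open Finset Real Matrix
open Pool.Agent.H49.Ent Pool.Agent.H32.Dense Pool.STK Pool.POT Pool.FAD Pool.SLO Pool.TQ
open Pool.K2S (Pe)
open Pool.BFL (Pb)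
open Pool.BD64 (QHd body_dcs)
open Pool.TT37 (dd)
open Pool.FS21 (okd_mi line_det okd_mono)

variable {k n : ℕ}

/-- **The hypotheses of DIR**: a picture with two coordinates, slow digits `Wd`, an integer vector `Z`
which is the height up to the slow digits and the record, few given the base `Bs`, and not full given
the slow digits and `S`. -/
structure DirH (H : QHd 2 k n) {ρ β σ : Type} (S : H.Ω → ρ) (Wd : H.Ω → β) (Z : H.Ω → Fin 2 → ℤ)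
    (Bs : H.Ω → σ) (X : ℕ) (C d h ϖ : ℝ) : Prop where
  ok : H.OkNS X C d
  Z_b : ∀ ω i, |(Z ω i : ℝ)| ≤ C * 2 ^ X
  rel : ∀ ω ω', 0 < H.p ω → 0 < H.p ω' → Wd ω = Wd ω' → H.th ω = H.th ω' → H.b ω = H.b ω' → ∀ i,
    |((Z ω i : ℝ) - Z ω' i) - ((H.hgt ω i : ℝ) - H.hgt ω' i)| ≤ C
  wd : MI H.p H.hgt Wd (fun ω => (H.th ω, H.b ω)) ≤ d
  SY : Det H.p (fun ω => (Wd ω, (H.th ω, H.b ω))) S
  BY : Det H.p (fun ω => (Wd ω, (H.th ω, H.b ω))) Bs
  few : MI H.p Z (fun ω => (Wd ω, (H.th ω, H.b ω))) Bs ≤ d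
  nf : ∀ G : H.Ω → Prop, ϖ ≤ Pe H.p G → 0 < Pe H.p G →
    CH (cond H.p G True) Z (fun ω => (Wd ω, S ω)) ≤ (2 - h) * X * Real.log 2 + d

theorem DirH.dr {H : QHd 2 k n} {ρ β σ : Type} {S : H.Ω → ρ} {Wd : H.Ω → β}
    {Z : H.Ω → Fin 2 → ℤ} {Bs : H.Ω → σ} {X : ℕ} {C d h ϖ : ℝ}
    (hH : DirH H S Wd Z Bs X C d h ϖ) :
    DrOk H.p H.line H.th H.b H.hgt S Wd Z Bs (fun _ => 1) X C 1 d
      ((2 - h) * X * Real.log 2 + d) ϖ where
  law := hH.ok.law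
  Lb := line_det H
  h0 := okd_mi hH.ok
  Z_b := hH.Z_b
  rel := fun ω ω' a b e1 e2 e3 i => by
    have h1 : ∑ j, (1 : Matrix (Fin 2) (Fin 2) ℝ) i j * ((H.hgt ω j : ℝ) - H.hgt ω' j) =
        (H.hgt ω i : ℝ) - H.hgt ω' i := by
      simp [Matrix.one_apply]
    rw [h1]
    exact hH.rel ω ω' a b e1 e2 e3 i
  M_det := fun _ => by simp
  M_inv := fun _ i j => by
    rw [inv_one, Matrix.one_apply]
    split_ifs <;> simp
  wd := hH.wd
  SY := hH.SY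
  BY := hH.BY
  few := hH.few
  nf := hH.nf

theorem DirH.mono {H : QHd 2 k n} {ρ β σ : Type} {S : H.Ω → ρ} {Wd : H.Ω → β}
    {Z : H.Ω → Fin 2 → ℤ} {Bs : H.Ω → σ} {X : ℕ} {C d d' h ϖ : ℝ}
    (hH : DirH H S Wd Z Bs X C d h ϖ) (hd : d ≤ d') : DirH H S Wd Z Bs X C d' h ϖ :=
  { hH with
    ok := okd_mono hH.ok hd
    wd := hH.wd.trans hd
    few := hH.few.trans hd
    nf := fun G h1 h2 => (hH.nf G h1 h2).trans (by linarith) }

/-- The product of the direction with a vector in the body. -/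
theorem ell_dd {A : Matrix (Fin 2) (Fin 2) ℝ} (hA : A.det ≠ 0) {v l : Fin 2 → ℝ} {K e : ℝ}
    (hv : ∀ b, |(A⁻¹ *ᵥ v) b| ≤ K) (h : ∀ a, |∑ i, l i * A i a| ≤ e) :
    |∑ i, l i * v i| ≤ 2 * K * e := by
  have hK : 0 ≤ K := (abs_nonneg _).trans (hv 0)
  have he : 0 ≤ e := (abs_nonneg _).trans (h 0)
  obtain ⟨x, hx⟩ : ∃ x : Fin 2 → ℝ, x = A⁻¹ *ᵥ v := ⟨_, rfl⟩
  have hAx : v = A *ᵥ x := by
    rw [hx, Matrix.mulVec_mulVec, Matrix.mul_nonsing_inv _ (isUnit_iff_ne_zero.2 hA),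
      Matrix.one_mulVec]
  rw [← hx] at hv
  have e1 : ∑ i, l i * v i = (∑ i, l i * A i 0) * x 0 + (∑ i, l i * A i 1) * x 1 := by
    rw [hAx]
    simp only [Matrix.mulVec, dotProduct, Fin.sum_univ_two]
    ring
  rw [e1]
  refine (abs_add_le _ _).trans ?_
  rw [abs_mul, abs_mul]
  have h1 := mul_le_mul (h 0) (hv 0) (abs_nonneg _) he
  have h2 := mul_le_mul (h 1) (hv 1) (abs_nonneg _) he
  linarith

/-- **The direction.** -/
theorem qh_ell (k n : ℕ) (hn : 1 ≤ n) {h x₀ ε : ℝ} (hh1 : h ≤ 1) (hx0 : 0 < x₀)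
    (hx : 3 * x₀ < h) (hε : 0 < ε) (hε1 : ε ≤ 1) :
    ∃ io ϖ : ℝ, 0 < io ∧ 0 < ϖ ∧ ∀ C : ℝ, 1 ≤ C → ∃ (K : ℝ) (X0 : ℕ), 0 < K ∧
    ∀ (H : QHd 2 k n) (ρ β σ' : Type) (S : H.Ω → ρ) (Wd : H.Ω → β) (Z : H.Ω → Fin 2 → ℤ)
      (Bs : H.Ω → σ') (X : ℕ), X0 ≤ X → DirH H S Wd Z Bs X C (io * X) h ϖ →
      ∃ ψ : (Fin 2 → ℤ) × (H.Vt × H.B) → Fin 2 → ℤ,
        Pb (tup H.p H.line (n + 1)) (fun v => ∃ u, K * (2 : ℝ) ^ (-(x₀ * X)) <
          |∑ i, pl (ψ (H.line (v 0))) i * dd n H.tau H.E u (fun j => H.th (v j)) i|) ≤ ε ∧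
        CH H.p (fun ω => ψ (H.line ω)) Bs ≤ ε * X ∧
        CH H.p (fun ω => ψ (H.line ω)) H.b ≤ ε * X := by
  classical
  have hL2 : 0 < Real.log 2 := Real.log_pos (by norm_num)
  have hL1 : Real.log 2 ≤ 1 := by
    have := Real.log_two_lt_d9
    linarith
  have hL9 : 0 ≤ Real.log 9 := Real.log_nonneg (by norm_num)
  have hn0 : (0 : ℝ) ≤ n := Nat.cast_nonneg n
  obtain ⟨δ₁, hδ₁⟩ : ∃ δ₁ : ℝ, δ₁ = ε / 4 := ⟨_, rfl⟩
  have hδ₁0 : 0 < δ₁ := by rw [hδ₁]; positivity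
  have hδ₁1 : δ₁ ≤ 1 := by rw [hδ₁]; linarith
  obtain ⟨δ, hδ⟩ : ∃ δ : ℝ, δ = δ₁ ^ 2 * ε / 64 := ⟨_, rfl⟩
  have hδ0 : 0 < δ := by rw [hδ]; positivity
  have hδ1 : δ ≤ 1 := by
    rw [hδ]
    have h1 : δ₁ ^ 2 ≤ 1 := pow_le_one₀ hδ₁0.le hδ₁1
    nlinarith [mul_nonneg (sq_nonneg δ₁) hε.le]
  obtain ⟨F₀, hF₀⟩ : ∃ F₀ : ℝ, F₀ = 32 / (δ₁ * ε) := ⟨_, rfl⟩
  have hF1 : 1 ≤ F₀ := by
    rw [hF₀, le_div_iff₀ (by positivity)]
    have : δ₁ * ε ≤ 1 * 1 := mul_le_mul hδ₁1 hε1 hε.le zero_le_one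
    linarith
  have hF0 : 0 < F₀ := by linarith
  obtain ⟨η, ϖ, hη0, hϖ0, hMN⟩ := mass_mn (h := h) (κ₁ := 3 * x₀) (δ := δ) (F₀ := F₀) hx hh1
    (by positivity) hδ0 hδ1 hF1
  obtain ⟨io1, hio1, hB⟩ := body_dcs 2 k n hn (η / (4 * F₀)) (by positivity)
  obtain ⟨io, hio⟩ : ∃ io : ℝ, io = min io1 (min (min (δ₁ * ε / (16 * (n + 3)))
    (η / (4 * F₀ * (4 * n + 9)))) (min (η / 4) (η * ϖ / 4))) := ⟨_, rfl⟩
  have hio0 : 0 < io := by
    rw [hio]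
    exact lt_min hio1 (lt_min (lt_min (by positivity) (by positivity))
      (lt_min (by positivity) (by positivity)))
  have hi1 : io ≤ io1 := by rw [hio]; exact min_le_left _ _
  have hi2 : io ≤ δ₁ * ε / (16 * (n + 3)) := by
    rw [hio]
    exact (min_le_right _ _).trans ((min_le_left _ _).trans (min_le_left _ _))
  have hi3 : io ≤ η / (4 * F₀ * (4 * n + 9)) := by
    rw [hio]
    exact (min_le_right _ _).trans ((min_le_left _ _).trans (min_le_right _ _))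
  have hi4 : io ≤ η / 4 := by
    rw [hio]
    exact (min_le_right _ _).trans ((min_le_right _ _).trans (min_le_left _ _))
  have hi5 : io ≤ η * ϖ / 4 := by
    rw [hio]
    exact (min_le_right _ _).trans ((min_le_right _ _).trans (min_le_right _ _))
  refine ⟨io, ϖ, hio0, hϖ0, fun C hC => ?_⟩
  obtain ⟨K1, r, X1, hB⟩ := hB C hC
  obtain ⟨X2, hMN⟩ := hMN C (4 * 1) hC (by norm_num)
  obtain ⟨K2, hK2⟩ : ∃ K2 : ℝ, K2 = max K1 1 := ⟨_, rfl⟩
  have hK21 : 1 ≤ K2 := by rw [hK2]; exact le_max_right _ _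
  have hK12 : K1 ≤ K2 := by rw [hK2]; exact le_max_left _ _
  obtain ⟨X3, hX3⟩ := ex_lin (a := η / 4) (b := F₀ * (|Pool.POT64.Cch 2 1 C| +
    |Cc 2 (4 * 1)|)) (by positivity)
  obtain ⟨X4, hX4⟩ := ex_lin (a := η / 4) (b := Real.log 2 / ϖ) (by positivity)
  obtain ⟨X5, hX5⟩ := ex_lin (a := ε / 16) (b := Real.log 2 + 1 / δ₁ * (7 * Real.log 2 +
    4 * Real.log 9) + ε * Real.log 9) (by positivity)
  obtain ⟨X6, hX6⟩ := ex_lin (a := x₀) (b := 1) (by positivity)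
  refine ⟨2 * K2 * (2 + 8 * K2), max (max X1 (max X2 X3)) (max (max X4 X5) (max X6 1)),
    by positivity, fun H ρ β σ' S Wd Z Bs X hX hH => ?_⟩
  obtain ⟨b1, b2⟩ := max_le_iff.1 hX
  obtain ⟨b1, b3⟩ := max_le_iff.1 b1
  obtain ⟨b3, b4⟩ := max_le_iff.1 b3
  obtain ⟨b5, b6⟩ := max_le_iff.1 b2
  obtain ⟨b7, b8⟩ := max_le_iff.1 b5
  obtain ⟨b9, b10⟩ := max_le_iff.1 b6
  have hX1' : (1 : ℝ) ≤ X := by exact_mod_cast b10
  have hX0 : (0 : ℝ) < X := by linarith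
  replace hX3 := hX3 X b4
  replace hX4 := hX4 X b7
  replace hX5 := hX5 X b8
  replace hX6 := hX6 X b9
  obtain ⟨A0, hA, hA2, -, hbody⟩ := hB H X b1
    (okd_mono hH.ok (mul_le_mul_of_nonneg_right hi1 hX0.le))
  -- the digits
  obtain ⟨Y, hYd⟩ : ∃ Y : ℕ, Y = ⌊x₀ * X⌋₊ := ⟨_, rfl⟩
  have hY1 : (Y : ℝ) ≤ x₀ * X := by
    rw [hYd]
    exact Nat.floor_le (by positivity)
  have hY2 : x₀ * X < Y + 1 := by
    rw [hYd]
    exact Nat.lt_floor_add_one _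
  have hY : 1 ≤ Y := by
    rw [hYd]
    exact Nat.le_floor (by simpa using hX6)
  have hYX : (Y : ℝ) ≤ X := by
    have h1 : x₀ ≤ 1 := by linarith
    have := mul_le_mul_of_nonneg_right h1 hX0.le
    linarith
  have hYe : (2 : ℝ) ^ Y * (2 : ℝ) ^ (-(x₀ * X)) ≤ 1 := by
    rw [← Real.rpow_natCast, ← Real.rpow_add (by norm_num)]
    exact Real.rpow_le_one_of_one_le_of_nonpos (by norm_num) (by linarith)
  have hYg : (1 : ℝ) / 2 ^ Y ≤ 2 * (2 : ℝ) ^ (-(x₀ * X)) := by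
    rw [div_le_iff₀ (by positivity)]
    have h1 : (1 : ℝ) ≤ (2 : ℝ) ^ ((Y : ℝ) + 1 - x₀ * X) :=
      Real.one_le_rpow (by norm_num) (by linarith)
    refine h1.trans (le_of_eq ?_)
    rw [show (Y : ℝ) + 1 - x₀ * X = 1 + (-(x₀ * X)) + Y by ring, Real.rpow_add (by norm_num),
      Real.rpow_add (by norm_num), Real.rpow_one, Real.rpow_natCast]
  have hbod : ∀ v : Fin (n + 2) → H.Ω, bdv (fun _ => 1) H.b H.th A0 v =
      A0 fun j => H.th (v j) := fun v => by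
    unfold bdv bod
    rw [one_mul]
  have hd0 : 0 ≤ io * X := by positivity
  have hcore := hH.dr.core (κ := x₀) (η := η) (δ := δ) (F₀ := F₀) hx0.le hMN b3 hF1
    zero_le_one hϖ0 (by
      have h1 : io * X ≤ η / 4 * X := mul_le_mul_of_nonneg_right hi4 hX0.le
      have h2 : io * X / ϖ ≤ η / 4 * X := by
        rw [div_le_iff₀ hϖ0]
        have := mul_le_mul_of_nonneg_right hi5 hX0.le
        linarith
      rw [add_div]
      have h3 : 0 ≤ η * X := by positivity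
      linarith) (fun t => (hA t).1) (fun t => (hA t).2.2) (Kb := K2) (fun v i a => by
      rw [hbod]
      exact ((hA _).2.1 i a).trans hK12) hbody (by
      have h1 : |η / (4 * F₀) * (X : ℝ)| = η / (4 * F₀) * X := abs_of_nonneg (by positivity)
      rw [h1]
      have h2 : F₀ * (η / (4 * F₀) * X) = η / 4 * X := by field_simp
      have h3 : F₀ * ((4 * n + 9) * (io * X)) ≤ η / 4 * X := by
        have h4 : F₀ * (4 * n + 9) * io ≤ η / 4 := by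
          have h5 : 0 < 4 * F₀ * (4 * (n : ℝ) + 9) := by positivity
          rw [le_div_iff₀ h5] at hi3
          linarith
        have := mul_le_mul_of_nonneg_right h4 hX0.le
        linarith
      have h6 : F₀ * (η / (4 * F₀) * X + (4 * n + 9) * (io * X) + |Pool.POT64.Cch 2 1 C| +
          |Cc 2 (4 * 1)|) = F₀ * (η / (4 * F₀) * X) + F₀ * ((4 * n + 9) * (io * X)) +
          F₀ * (|Pool.POT64.Cch 2 1 C| + |Cc 2 (4 * 1)|) := by ring
      rw [h6, h2]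
      have h7 : 0 ≤ η / 4 * X := by positivity
      linarith) hδ₁0 hδ₁1 hδ0.le hY hYe
  obtain ⟨ψ, c1, c2, c3⟩ := hcore
  have hlB : Real.log (4 * ((2 : ℝ) ^ Y + 1) + 1) ≤ X + Real.log 9 := by
    have h1 : (1 : ℝ) ≤ 2 ^ Y := one_le_pow₀ (by norm_num)
    have h2 := log_pow_le (A := 9) (by norm_num) Y (y := 4 * ((2 : ℝ) ^ Y + 1) + 1)
      (by positivity) (by linarith)
    have h3 : Y * Real.log 2 ≤ X * 1 := mul_le_mul hYX hL1 hL2.le hX0.le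
    linarith
  have hlB0 : 0 ≤ Real.log (4 * ((2 : ℝ) ^ Y + 1) + 1) := Real.log_nonneg (by
    have : (0 : ℝ) < 2 ^ Y := by positivity
    linarith)
  have hV : Real.log 2 + 1 / δ₁ * ((n + 3) * (io * X) + 7 * Real.log 2 +
        4 * Real.log 9 + 4 * (δ / δ₁) * Real.log (4 * (2 ^ Y + 1) + 1)) +
        1 / (F₀ * δ₁) * (2 * Real.log (4 * (2 ^ Y + 1) + 1)) ≤ ε * X := by
    have h1 : 1 / δ₁ * ((n + 3) * (io * X)) ≤ ε / 16 * X := by
      have h2 : io * (16 * (n + 3)) ≤ δ₁ * ε := by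
        rwa [le_div_iff₀ (by positivity)] at hi2
      rw [one_div, inv_mul_le_iff₀ hδ₁0]
      have := mul_le_mul_of_nonneg_right h2 hX0.le
      linarith
    have h3 : 1 / δ₁ * (4 * (δ / δ₁) * Real.log (4 * (2 ^ Y + 1) + 1)) =
        ε / 16 * Real.log (4 * (2 ^ Y + 1) + 1) := by
      rw [hδ]
      field_simp
      ring
    have h4 : 1 / (F₀ * δ₁) * (2 * Real.log (4 * (2 ^ Y + 1) + 1)) =
        ε / 16 * Real.log (4 * (2 ^ Y + 1) + 1) := by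
      rw [hF₀]
      field_simp
      ring
    have h5 : ε / 16 * Real.log (4 * (2 ^ Y + 1) + 1) ≤ ε / 16 * (X + Real.log 9) :=
      mul_le_mul_of_nonneg_left hlB (by positivity)
    have h6 : Real.log 2 + 1 / δ₁ * ((n + 3) * (io * X) + 7 * Real.log 2 +
        4 * Real.log 9 + 4 * (δ / δ₁) * Real.log (4 * (2 ^ Y + 1) + 1)) +
        1 / (F₀ * δ₁) * (2 * Real.log (4 * (2 ^ Y + 1) + 1)) =
        Real.log 2 + 1 / δ₁ * (7 * Real.log 2 + 4 * Real.log 9) +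
        1 / δ₁ * ((n + 3) * (io * X)) +
        1 / δ₁ * (4 * (δ / δ₁) * Real.log (4 * (2 ^ Y + 1) + 1)) +
        1 / (F₀ * δ₁) * (2 * Real.log (4 * (2 ^ Y + 1) + 1)) := by ring
    rw [h6, h3, h4]
    have h7 : 0 ≤ ε * Real.log 9 := by positivity
    have h8 : 0 ≤ ε * X := by positivity
    linarith
  refine ⟨ψ, ?_, c2.trans hV, c3.trans hV⟩
  refine le_trans (Pb_mono (tup_isLaw hH.ok.law H.line (n + 1)).nonneg ?_) (c1.trans ?_)
  · rintro v - ⟨u, hu⟩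
    by_contra hcon
    push Not at hcon
    have h1 := ell_dd (hA fun j => H.th (v j)).1 (l := pl (ψ (H.line (v 0))))
      (v := dd n H.tau H.E u fun j => H.th (v j)) (K := K2)
      (e := 2 * (2 : ℝ) ^ (-(x₀ * X)) + 4 * K2 / 2 ^ Y)
      (fun b => (hA2 v u b).trans hK12) (fun a => by
        have := hcon a
        rw [hbod] at this
        exact this)
    have h2 : 4 * K2 / 2 ^ Y ≤ 8 * K2 * (2 : ℝ) ^ (-(x₀ * X)) := by
      have : 4 * K2 / 2 ^ Y = 4 * K2 * (1 / 2 ^ Y) := by ring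
      rw [this]
      have := mul_le_mul_of_nonneg_left hYg (by positivity : (0 : ℝ) ≤ 4 * K2)
      linarith
    have h3 : 2 * K2 * (2 * (2 : ℝ) ^ (-(x₀ * X)) + 4 * K2 / 2 ^ Y) ≤
        2 * K2 * ((2 + 8 * K2) * (2 : ℝ) ^ (-(x₀ * X))) :=
      mul_le_mul_of_nonneg_left (by linarith) (by positivity)
    linarith
  · have h1 : δ / δ₁ = δ₁ * ε / 64 := by
      rw [hδ]
      field_simp
    rw [h1]
    have h2 : δ₁ * ε ≤ 1 * ε := mul_le_mul_of_nonneg_right hδ₁1 hε.le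
    linarith

end Pool.DIR21
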