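import Pool.Agent.H21.DIR.Pair

/-!
# DIR: two copies with the same height

`tup q (Z, B) 1`: two copies of a sample with the same height `Z` and the same base `B`. The data
`a`, `a'` of the two copies are independent given `(Z, B)`.
-/

set_option autoImplicit false

namespace Pool.DIR21

open Finset Real Matrix
open Pool.Agent.H49.Ent Pool.Agent.H32.Dense Pool.STK Pool.POT Pool.FAD Pool.SLO Pool.TQ
open Pool.K2S (Pe)

section abs

variable {Ω S T U V : Type} [Fintype Ω] {p : Ω → ℝ}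

theorem mi_link (hp : ∀ ω, 0 ≤ p ω) {Z : Ω → S} {a : Ω → T} {a' : Ω → U} {B : Ω → V}
    (hB : Det p a B) (h : MI p a a' (fun ω => (Z ω, B ω)) = 0) : MI p Z a' a ≤ MI p Z a' B := by
  have e1 : MI p Z a' a = MI p Z a' (fun ω => (a ω, B ω)) := by
    refine MI_congr hp ?_ ?_ ?_ ?_ ?_ ?_
    · intro ω ω' x y e
      simp only [Prod.mk.injEq] at e ⊢
      exact ⟨e.1, e.2, hB ω ω' x y e.2⟩
    · intro ω ω' _ _ e
      simp only [Prod.mk.injEq] at e ⊢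
      exact ⟨e.1, e.2.1⟩
    · intro ω ω' x y e
      simp only [Prod.mk.injEq] at e ⊢
      exact ⟨e.1, e.2, hB ω ω' x y e.2⟩
    · intro ω ω' _ _ e
      simp only [Prod.mk.injEq] at e ⊢
      exact ⟨e.1, e.2.1⟩
    · intro ω ω' x y e
      exact Prod.ext e (hB ω ω' x y e)
    · intro ω ω' _ _ e
      exact (Prod.ext_iff.mp e).1
  have e2 := MI_data hp (A := Z) (B := a) (X := fun ω => (Z ω, a ω)) (Y := a') (Z := B)
    (fun _ _ _ _ e => (Prod.ext_iff.mp (Prod.ext_iff.mp e).1).1)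
    (fun _ _ _ _ e => (Prod.ext_iff.mp (Prod.ext_iff.mp e).1).2)
  rw [MI_chain_left hp, h] at e2
  rw [e1]
  linarith

theorem mi_cop (hp : ∀ ω, 0 ≤ p ω) {Z : Ω → S} {a : Ω → T} {a' : Ω → U} {B : Ω → V}
    (h : MI p a a' (fun ω => (Z ω, B ω)) = 0) : MI p a a' B ≤ MI p a Z B := by
  have e1 := MI_le_right hp (A := a') (X := fun ω => (Z ω, a' ω)) (Y := a) (Z := B)
    (fun _ _ _ _ e => (Prod.ext_iff.mp (Prod.ext_iff.mp e).1).2)
  rw [MI_chain hp, h] at e1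
  linarith

end abs

variable {Γ S T T' σ : Type} [Fintype Γ] {q : Γ → ℝ}

/-- The law of two copies. -/
noncomputable abbrev cpy (q : Γ → ℝ) (Z : Γ → S) (B : Γ → σ) : (Fin (1 + 1) → Γ) → ℝ :=
  tup q (fun w => (Z w, B w)) 1

theorem cpy_key (hq : ∀ w, 0 ≤ q w) (Z : Γ → S) (B : Γ → σ) {W : Fin (1 + 1) → Γ}
    (hW : 0 < cpy q Z B W) : Z (W 1) = Z (W 0) ∧ B (W 1) = B (W 0) := by
  have := tup_line hq (fun w => (Z w, B w)) hW 1
  exact Prod.ext_iff.mp this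

theorem cpy_ind (hq : ∀ w, 0 ≤ q w) (Z : Γ → S) (B : Γ → σ) (a : Γ → T) (a' : Γ → T') :
    MI (cpy q Z B) (fun W => a (W 0)) (fun W => a' (W 1)) (fun W => (Z (W 0), B (W 0))) = 0 :=
  tup_ci0 hq (fun w => (Z w, B w)) 0 a (fun v => a' (v 0))

theorem cpy_ind' (hq : ∀ w, 0 ≤ q w) (Z : Γ → S) (B : Γ → σ) (a : Γ → T) (a' : Γ → T') :
    MI (cpy q Z B) (fun W => a (W 1)) (fun W => a' (W 0)) (fun W => (Z (W 1), B (W 1))) = 0 := by
  have h0 : ∀ W, 0 ≤ cpy q Z B W := fun W => tup_nonneg hq _ _ W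
  rw [MI_symm h0, ← cpy_ind hq Z B a' a]
  have hk : ∀ W, 0 < cpy q Z B W → Z (W 1) = Z (W 0) ∧ B (W 1) = B (W 0) := fun W hW =>
    cpy_key hq Z B hW
  refine MI_congr h0 ?_ ?_ ?_ ?_ ?_ ?_ <;>
  · intro W W' x y e
    have k1 := hk W x
    have k2 := hk W' y
    simp only [Prod.mk.injEq, k1.1, k1.2, k2.1, k2.2] at e ⊢
    exact e

theorem cpy_im (hq : ∀ w, 0 ≤ q w) (Z : Γ → S) (B : Γ → σ) (j : Fin (1 + 1)) :
    Im (cpy q Z B) q (fun W => W j) := im_tup hq _ 1 j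

/-- The data of the second copy say little about the height, given the data of the first. -/
theorem cpy_mi0 (hq : ∀ w, 0 ≤ q w) (Z : Γ → S) (B : Γ → σ) (a : Γ → T) (ha : Det q a B) :
    MI (cpy q Z B) (fun W => Z (W 0)) (fun W => a (W 1)) (fun W => a (W 0)) ≤ MI q Z a B := by
  have h0 : ∀ W, 0 ≤ cpy q Z B W := fun W => tup_nonneg hq _ _ W
  have k1 := mi_link h0 (Z := fun W => Z (W 0)) (a := fun W => a (W 0)) (a' := fun W => a (W 1))
    (B := fun W => B (W 0)) ((cpy_im hq Z B 0).det h0 ha) (cpy_ind hq Z B a a)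
  refine k1.trans (le_of_eq ?_)
  rw [← (cpy_im hq Z B 1).MI Z a B]
  have hk : ∀ W, 0 < cpy q Z B W → Z (W 1) = Z (W 0) ∧ B (W 1) = B (W 0) := fun W hW =>
    cpy_key hq Z B hW
  refine MI_congr h0 ?_ ?_ ?_ ?_ ?_ ?_ <;>
  · intro W W' x y e
    have k1 := hk W x
    have k2 := hk W' y
    simp only [Prod.mk.injEq, k1.1, k1.2, k2.1, k2.2] at e ⊢
    exact e

/-- The same for the second copy. -/
theorem cpy_mi1 (hq : ∀ w, 0 ≤ q w) (Z : Γ → S) (B : Γ → σ) (a : Γ → T) (ha : Det q a B) :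
    MI (cpy q Z B) (fun W => Z (W 1)) (fun W => a (W 0)) (fun W => a (W 1)) ≤ MI q Z a B := by
  have h0 : ∀ W, 0 ≤ cpy q Z B W := fun W => tup_nonneg hq _ _ W
  have k1 := mi_link h0 (Z := fun W => Z (W 1)) (a := fun W => a (W 1)) (a' := fun W => a (W 0))
    (B := fun W => B (W 1)) ((cpy_im hq Z B 1).det h0 ha) (cpy_ind' hq Z B a a)
  refine k1.trans (le_of_eq ?_)
  rw [← (cpy_im hq Z B 0).MI Z a B]
  have hk : ∀ W, 0 < cpy q Z B W → Z (W 1) = Z (W 0) ∧ B (W 1) = B (W 0) := fun W hW =>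
    cpy_key hq Z B hW
  refine MI_congr h0 ?_ ?_ ?_ ?_ ?_ ?_ <;>
  · intro W W' x y e
    have k1 := hk W x
    have k2 := hk W' y
    simp only [Prod.mk.injEq, k1.1, k1.2, k2.1, k2.2] at e ⊢
    exact e

/-- The data of the two copies given the base. -/
theorem cpy_mi2 (hq : ∀ w, 0 ≤ q w) (Z : Γ → S) (B : Γ → σ) (a : Γ → T) :
    MI (cpy q Z B) (fun W => a (W 0)) (fun W => a (W 1)) (fun W => B (W 0)) ≤ MI q Z a B := by
  have h0 : ∀ W, 0 ≤ cpy q Z B W := fun W => tup_nonneg hq _ _ W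
  refine (mi_cop h0 (Z := fun W => Z (W 0)) (cpy_ind hq Z B a a)).trans (le_of_eq ?_)
  rw [MI_symm h0]
  exact (cpy_im hq Z B 0).MI Z a B

end Pool.DIR21
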