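import Pool.Agent.H21.DIR.Cor

/-!
# DIR: the direction as a function of the line

`core`: there is an integer vector `ψ`, a function of the line, such that the body of a tuple of samples
is almost orthogonal to the direction `pl ψ`; and `ψ` is few given the base and few given the context.
-/

set_option autoImplicit false

namespace Pool.DIR21

open Finset Real Matrix
open Pool.Agent.H49.Ent Pool.Agent.H32.Dense Pool.STK Pool.POT Pool.FAD Pool.SLO Pool.TQ
open Pool.K2S (Pe)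
open Pool.BFL (Pb)

section law

variable {Ω Λ τ B β ρ σ : Type} [Fintype Ω] {p : Ω → ℝ} {L : Ω → Λ} {th : Ω → τ}
  {b : Ω → B} {hgt : Ω → Fin 2 → ℤ} {S : Ω → ρ} {Wd : Ω → β} {Z : Ω → Fin 2 → ℤ} {Bs : Ω → σ}
  {M : B → Matrix (Fin 2) (Fin 2) ℝ} {X : ℕ} {C Lm d R ϖ : ℝ}

open Classical in
/-- The digits of the direction of the chosen samples. -/
noncomputable def psi (M : B → Matrix (Fin 2) (Fin 2) ℝ) (b : Ω → B) (th : Ω → τ) {n : ℕ}
    (A0 : (Fin (n + 2) → τ) → Matrix (Fin 2) (Fin 2) ℝ) (T : Λ → Prop)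
    (f : Λ → Fin (n + 2) → Ω) (Y : ℕ) (z : Λ) : Fin 2 → ℤ :=
  if T z then fun i => ⌊(2 : ℝ) ^ Y * un (bdv M b th A0 (f z)) i⌋ else 0

omit [Fintype Ω] in
theorem psi_T {n : ℕ} {A0 : (Fin (n + 2) → τ) → Matrix (Fin 2) (Fin 2) ℝ} {T : Λ → Prop}
    {f : Λ → Fin (n + 2) → Ω} {Y : ℕ} {z : Λ} (h : T z) :
    psi M b th A0 T f Y z = fun i => ⌊(2 : ℝ) ^ Y * un (bdv M b th A0 (f z)) i⌋ := if_pos h

omit [Fintype Ω] in
theorem psi_F {n : ℕ} {A0 : (Fin (n + 2) → τ) → Matrix (Fin 2) (Fin 2) ℝ} {T : Λ → Prop}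
    {f : Λ → Fin (n + 2) → Ω} {Y : ℕ} {z : Λ} (h : ¬ T z) :
    psi M b th A0 T f Y z = 0 := if_neg h

omit [Fintype Ω] in
/-- **The body is orthogonal to the direction.** -/
theorem orth {n : ℕ} {A0 : (Fin (n + 2) → τ) → Matrix (Fin 2) (Fin 2) ℝ} {T : Λ → Prop}
    {f : Λ → Fin (n + 2) → Ω} {Y : ℕ} (hY : 1 ≤ Y) {κ Kb : ℝ} (hκ : 0 ≤ κ)
    {v : Fin (n + 2) → Ω} {z : Λ}
    (hKb : ∀ i a, |bdv M b th A0 v i a| ≤ Kb)
    (hf : T z → (2 : ℝ) ^ (-(κ * X)) ≤ nb (bdv M b th A0 (f z))) {a : Fin 2}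
    (h : 2 * (2 : ℝ) ^ (-(κ * X)) + 4 * Kb / 2 ^ Y <
      |∑ i, pl (psi M b th A0 T f Y z) i * bdv M b th A0 v i a|) :
    ((2 : ℝ) ^ (-(κ * X)) ≤ nb (bdv M b th A0 v) ∧ ¬ T z) ∨
    ((2 : ℝ) ^ (-(κ * X)) ≤ nb (bdv M b th A0 v) ∧ T z ∧
      RR ((2 : ℝ) ^ (-(3 * κ * X))) (bdv M b th A0 v) (bdv M b th A0 (f z))) := by
  have hX : (0 : ℝ) ≤ X := Nat.cast_nonneg X
  have hKb0 : 0 ≤ Kb := (abs_nonneg _).trans (hKb 0 0)
  have hr0 : (0 : ℝ) < (2 : ℝ) ^ (-(κ * X)) := by positivity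
  by_cases hB : (2 : ℝ) ^ (-(κ * X)) ≤ nb (bdv M b th A0 v)
  · by_cases hT : T z
    · refine Or.inr ⟨hB, hT, ?_⟩
      by_contra hR
      have hR' : ∀ a c : Fin 2, |wg (co (bdv M b th A0 v) a) (co (bdv M b th A0 (f z)) c)| ≤
          (2 : ℝ) ^ (-(3 * κ * X)) := by
        intro a c
        by_contra hac
        exact hR ⟨a, c, not_le.1 hac⟩
      have hu := hf hT
      have hu0 := hr0.trans_le hu
      have k1 := pl_le (un_un hu0) hY (v := co (bdv M b th A0 v) a) (V := Kb)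
        (fun i => hKb i a)
      have k2 : |wg (co (bdv M b th A0 v) a) (un (bdv M b th A0 (f z)))| ≤
          (2 : ℝ) ^ (-(κ * X)) := by
        rw [wg_un, abs_div, abs_of_pos hu0, div_le_iff₀ hu0]
        refine (hR' a _).trans ?_
        have h1 : (2 : ℝ) ^ (-(3 * κ * X)) ≤ (2 : ℝ) ^ (-(κ * X)) * (2 : ℝ) ^ (-(κ * X)) := by
          rw [← Real.rpow_add (by norm_num)]
          refine Real.rpow_le_rpow_of_exponent_le (by norm_num) ?_
          have : 0 ≤ κ * X := by positivity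
          linarith
        exact h1.trans (mul_le_mul_of_nonneg_left hu hr0.le)
      have k3 : |∑ i, pl (psi M b th A0 T f Y z) i * bdv M b th A0 v i a| ≤
          2 * |wg (co (bdv M b th A0 v) a) (un (bdv M b th A0 (f z)))| + 4 * Kb / 2 ^ Y := by
        rw [psi_T hT]
        exact k1
      linarith
    · exact Or.inl ⟨hB, hT⟩
  · exfalso
    have hB' := not_le.1 hB
    have k1 : |∑ i, pl (psi M b th A0 T f Y z) i * bdv M b th A0 v i a| ≤
        2 * nb (bdv M b th A0 v) := by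
      rw [Fin.sum_univ_two]
      refine (abs_add_le _ _).trans ?_
      rw [abs_mul, abs_mul]
      obtain ⟨h1, -⟩ := pl_un (psi M b th A0 T f Y z)
      have h2 := mul_le_mul (h1 0) (nb_le (bdv M b th A0 v) 0 a) (abs_nonneg _) zero_le_one
      have h3 := mul_le_mul (h1 1) (nb_le (bdv M b th A0 v) 1 a) (abs_nonneg _) zero_le_one
      linarith
    have k2 : 0 ≤ 4 * Kb / 2 ^ Y := by positivity
    linarith

/-- The entropies under the law given the event. -/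
theorem CH_two {Γ V : Type} [Fintype Γ] {q : Γ → ℝ} (hq : IsLaw q) (Xv D : Γ → Fin 2 → ℤ)
    (G : Γ → Prop) {V1 V2 : ℝ} (B' : Γ → V)
    (h1 : CH q Xv (fun w => (open Classical in if G w then D w else 0)) ≤ V1)
    (h2 : CH q D B' ≤ V2 ∨ MI q Xv D B' ≤ V2) : CH q Xv B' ≤ V1 + V2 + Real.log 2 := by
  classical
  have h0 := hq.nonneg
  have e0 : CH q Xv (fun w => (G w, D w)) ≤ V1 := by
    refine le_trans (CH_mono_cond h0 ?_) h1
    intro w w' _ _ e
    simp only [Prod.mk.injEq] at e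
    have h3 : G w ↔ G w' := iff_of_eq e.1
    simp only [e.2]
    by_cases h4 : G w
    · rw [if_pos h4, if_pos (h3.1 h4)]
    · rw [if_neg h4, if_neg (fun h => h4 (h3.2 h))]
  rcases h2 with h2 | h2
  · have k1 := CH_le_add h0 Xv (fun w => (G w, D w)) B'
    have k2 : CH q Xv (fun w => ((G w, D w), B' w)) ≤ CH q Xv (fun w => (G w, D w)) :=
      CH_mono_cond h0 fun _ _ _ _ e => (Prod.ext_iff.mp e).1
    have k3 : CH q (fun w => (G w, D w)) B' ≤ Real.log 2 + V2 := by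
      rw [CH_chain h0]
      have e1 := CH_evl hq G (fun w => B' w)
      have e2 := CH_evl hq G (fun w => (D w, B' w))
      have e3 := CH_mono_cond h0 (X := D) (W' := fun w => (G w, B' w)) (W := B')
        (fun _ _ _ _ e => (Prod.ext_iff.mp e).2)
      linarith
    linarith
  · have k1 : CH q Xv B' = MI q Xv (fun w => (D w, G w)) B' +
        CH q Xv (fun w => ((D w, G w), B' w)) := by
      unfold MI
      ring
    have k2 : CH q Xv (fun w => ((D w, G w), B' w)) ≤ CH q Xv (fun w => (G w, D w)) :=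
      CH_mono_cond h0 fun _ _ _ _ e => by
        simp only [Prod.mk.injEq] at e ⊢
        exact ⟨e.1.2, e.1.1⟩
    have k3 := MI_chain h0 Xv D G B'
    have k4 : MI q Xv G (fun w => (D w, B' w)) ≤ Real.log 2 := by
      rw [MI_symm h0]
      exact (MI_le_CH h0 _ _ _).trans (CH_evl hq G _)
    linarith

/-- The digits of the direction of the samples. -/
noncomputable def Dg (M : B → Matrix (Fin 2) (Fin 2) ℝ) (b : Ω → B) (th : Ω → τ) {n : ℕ}
    (A0 : (Fin (n + 2) → τ) → Matrix (Fin 2) (Fin 2) ℝ) (Y : ℕ) (w : Fin (n + 2 + 1) → Ω) :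
    Fin 2 → ℤ := fun i => ⌊(2 : ℝ) ^ Y * un (bod M A0 (b (w 0)) fun j => th (w j.succ)) i⌋

/-- Under the law of big bodies the chosen direction and the direction of the samples agree. -/
theorem q_sgn (hp : IsLaw p) (hLb : Det p L b) {n : ℕ}
    {A0 : (Fin (n + 2) → τ) → Matrix (Fin 2) (Fin 2) ℝ} {κ : ℝ} {T : Λ → Prop}
    {f : Λ → Fin (n + 2) → Ω} {Y : ℕ}
    (hf : ∀ ω, 0 < p ω → T (L ω) → (2 : ℝ) ^ (-(κ * X)) ≤ nb (bdv M b th A0 (f (L ω))))
    {μ : ℝ} (h3 : Pb (tup p L (n + 1)) (fun v => (2 : ℝ) ^ (-(κ * X)) ≤ nb (bdv M b th A0 v) ∧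
      T (L (v 0)) ∧
      RR ((2 : ℝ) ^ (-(3 * κ * X))) (bdv M b th A0 v) (bdv M b th A0 (f (L (v 0))))) ≤ μ)
    (hP0 : 0 < Pe (tup p L (n + 2)) (Bg M b th A0 ((2 : ℝ) ^ (-(κ * X)))))
    (hYe : (2 : ℝ) ^ Y * (2 : ℝ) ^ (-(κ * X)) ≤ 1) :
    Pe (tup p L (n + 2)) (Bg M b th A0 ((2 : ℝ) ^ (-(κ * X)))) *
      CH (cond (tup p L (n + 2)) (Bg M b th A0 ((2 : ℝ) ^ (-(κ * X)))) True)
      (fun w => psi M b th A0 T f Y (L (w 0)))
      (fun w => (open Classical in if T (L (w 0)) then Dg M b th A0 Y w else 0)) ≤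
      3 * Real.log 2 + 2 * Real.log 9 + 2 * μ * Real.log (4 * (2 ^ Y + 1) + 1) := by
  classical
  have hp0 := hp.nonneg
  have ht := tup_isLaw hp L (n + 2)
  have ht0 := ht.nonneg
  have him : Im (tup p L (n + 2)) (tup p L (n + 1)) (fun w => w ∘ Fin.succ) :=
    im_of_marg (tup_sub hp.nonneg L (M := n + 1) (N := n + 2) Fin.succ (Fin.succ_injective _))
  obtain ⟨PB, hPB⟩ : ∃ PB, PB = Pe (tup p L (n + 2)) (Bg M b th A0 ((2 : ℝ) ^ (-(κ * X)))) :=
    ⟨_, rfl⟩
  obtain ⟨q, hq⟩ : ∃ q, q = cond (tup p L (n + 2))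
    (Bg M b th A0 ((2 : ℝ) ^ (-(κ * X)))) True := ⟨_, rfl⟩
  rw [← hPB] at hP0
  rw [← hPB, ← hq]
  have hql : IsLaw q := by
    rw [hq]
    exact cond_law ht0 (hPB ▸ hP0)
  have hq0 := hql.nonneg
  have hqt : ∀ w, 0 < q w → 0 < tup p L (n + 2) w ∧
      Bg M b th A0 ((2 : ℝ) ^ (-(κ * X))) w := fun w hw => by
    rw [hq] at hw
    have := (cond_pos_iff ht0 _ True w).1 hw
    exact ⟨this.1, of_eq_true this.2⟩
  have hsup : ∀ w, 0 < tup p L (n + 2) w → ∀ j, 0 < p (w j) ∧ L (w j) = L (w 0) ∧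
      b (w j) = b (w 0) := fun w hw j => by
    have h1 := (tup_pos_iff hp0 L _ w).1 hw
    exact ⟨h1.1 j, h1.2 j, hLb _ _ (h1.1 j) (h1.1 0) (h1.2 j)⟩
  have hbd : ∀ w, 0 < tup p L (n + 2) w → bdv M b th A0 (w ∘ Fin.succ) =
      bod M A0 (b (w 0)) fun j => th (w j.succ) := fun w hw => by
    unfold bdv
    simp only [Function.comp]
    rw [(hsup w hw _).2.2]
  -- the bad event
  obtain ⟨F, hFd⟩ : ∃ F : (Fin (n + 2 + 1) → Ω) → Prop, F = fun w => T (L (w 0)) ∧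
      RR ((2 : ℝ) ^ (-(3 * κ * X))) (bod M A0 (b (w 0)) fun j => th (w j.succ))
        (bdv M b th A0 (f (L (w 0)))) := ⟨_, rfl⟩
  have hPF : PB * Pb q F ≤ μ := by
    refine le_trans ?_ h3
    rw [Pb_im him, Pb_ci, Pb_ci, Finset.mul_sum]
    refine Finset.sum_le_sum fun w _ => ?_
    rw [hq, cond_ci, ← hPB]
    rcases (ht0 w).eq_or_lt with h1 | h1
    · rw [← h1]
      simp
    · have h2 := hsup w h1
      have h4 := hbd w h1
      have e1 : PB * (tup p L (n + 2) w * ci (Bg M b th A0 ((2 : ℝ) ^ (-(κ * X))) w) / PB *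
          ci (F w)) = tup p L (n + 2) w * (ci (Bg M b th A0 ((2 : ℝ) ^ (-(κ * X))) w) *
            ci (F w)) := by
        field_simp
      rw [e1]
      refine mul_le_mul_of_nonneg_left ?_ h1.le
      by_cases h5 : Bg M b th A0 ((2 : ℝ) ^ (-(κ * X))) w
      · by_cases h6 : F w
        · rw [ci1 h5, ci1 h6, ci1, one_mul]
          rw [hFd] at h6
          unfold Bg at h5
          have e2 : L ((w ∘ Fin.succ) 0) = L (w 0) := (h2 _).2.1
          rw [h4, e2]
          exact ⟨h5, h6.1, h6.2⟩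
        · rw [ci0 h6, mul_zero]
          exact ci_nonneg _
      · rw [ci0 h5, zero_mul]
        exact ci_nonneg _
  have hPB1 : PB ≤ 1 := by
    rw [hPB]
    have h1 := law_ev ht (Bg M b th A0 ((2 : ℝ) ^ (-(κ * X))))
    have h2 := law_nonneg ht0 (Bg M b th A0 ((2 : ℝ) ^ (-(κ * X)))) False
    have h5 : Pe (tup p L (n + 2)) (Bg M b th A0 ((2 : ℝ) ^ (-(κ * X)))) =
      law (tup p L (n + 2)) (Bg M b th A0 ((2 : ℝ) ^ (-(κ * X)))) True := rfl
    rw [h5]
    linarith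
  have hB0 : (0 : ℝ) ≤ 2 ^ Y + 1 := by positivity
  have k1 := CH_sgn hql (fun w => psi M b th A0 T f Y (L (w 0)))
    (fun w => if T (L (w 0)) then Dg M b th A0 Y w else 0) F (B := 2 ^ Y + 1) (D := 4) hB0
    (by norm_num)
    (fun w hw i => by
      by_cases hT : T (L (w 0))
      · rw [psi_T hT]
        have h1 := hsup w (hqt w hw).1 0
        have h2 := hf _ h1.1 hT
        exact fl_bd ((un_un (lt_of_lt_of_le (by positivity) h2)).1 i)
      · rw [psi_F hT]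
        simp only [Pi.zero_apply, Int.cast_zero, abs_zero]
        exact hB0)
    (fun w hw hnF => by
      by_cases hT : T (L (w 0))
      · rw [psi_T hT, if_pos hT]
        have h1 := hsup w (hqt w hw).1 0
        have h2 := hf _ h1.1 hT
        have h2' : (0 : ℝ) < nb (bdv M b th A0 (f (L (w 0)))) := lt_of_lt_of_le (by positivity) h2
        have h4 := (hqt w hw).2
        unfold Bg at h4
        have h4' : (0 : ℝ) < nb (bod M A0 (b (w 0)) fun j => th (w j.succ)) :=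
          lt_of_lt_of_le (by positivity) h4
        have h5 : |wg (un (bod M A0 (b (w 0)) fun j => th (w j.succ)))
            (un (bdv M b th A0 (f (L (w 0)))))| ≤ (2 : ℝ) ^ (-(κ * X)) := by
          have h6 : ∀ a c : Fin 2, |wg (co (bod M A0 (b (w 0)) fun j => th (w j.succ)) a)
              (co (bdv M b th A0 (f (L (w 0)))) c)| ≤ (2 : ℝ) ^ (-(3 * κ * X)) := by
            intro a c
            by_contra hac
            apply hnF
            rw [hFd]
            exact ⟨hT, a, c, not_le.1 hac⟩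
          rw [wg_un2, abs_div, abs_of_pos (mul_pos h4' h2'), div_le_iff₀ (mul_pos h4' h2')]
          refine (h6 _ _).trans ?_
          have h7 : (2 : ℝ) ^ (-(3 * κ * X)) = (2 : ℝ) ^ (-(κ * X)) * ((2 : ℝ) ^ (-(κ * X)) *
              (2 : ℝ) ^ (-(κ * X))) := by
            rw [← Real.rpow_add (by norm_num), ← Real.rpow_add (by norm_num)]
            congr 1
            ring
          rw [h7]
          exact mul_le_mul_of_nonneg_left (mul_le_mul h4 h2 (by positivity) h4'.le)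
            (by positivity)
        exact dig_sgn (un_un h4') (un_un h2') h5 hYe
      · refine ⟨1, Or.inl rfl, fun i => ?_⟩
        rw [psi_F hT, if_neg hT]
        simp)
  have k2 := mul_le_mul_of_nonneg_left k1 hP0.le
  refine k2.trans ?_
  have hlB : 0 ≤ Real.log (4 * ((2 : ℝ) ^ Y + 1) + 1) := Real.log_nonneg (by linarith)
  have hlB2 : Real.log (2 * ((2 : ℝ) ^ Y + 1) + 1) ≤ Real.log (4 * ((2 : ℝ) ^ Y + 1) + 1) :=
    Real.log_le_log (by linarith) (by linarith)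
  have hPb0 : 0 ≤ Pb q F := Pb_nonneg hq0 F
  have hL2 : 0 ≤ Real.log 2 := Real.log_nonneg (by norm_num)
  have hL9 : 0 ≤ Real.log 9 := Real.log_nonneg (by norm_num)
  have e9 : Real.log (2 * (4 : ℝ) + 1) = Real.log 9 := by norm_num
  rw [e9]
  have e1 : PB * (Real.log 2 + 2 * (Real.log 2 + (Pb q F * Real.log (2 * (2 ^ Y + 1) + 1) +
      Real.log 9))) = PB * (3 * Real.log 2 + 2 * Real.log 9) +
      2 * (PB * Pb q F) * Real.log (2 * (2 ^ Y + 1) + 1) := by ring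
  rw [e1]
  have e2 : PB * (3 * Real.log 2 + 2 * Real.log 9) ≤ 1 * (3 * Real.log 2 + 2 * Real.log 9) :=
    mul_le_mul_of_nonneg_right hPB1 (by positivity)
  have e3 : 2 * (PB * Pb q F) * Real.log (2 * ((2 : ℝ) ^ Y + 1) + 1) ≤
      2 * μ * Real.log (4 * (2 ^ Y + 1) + 1) := by
    have h0 : 0 ≤ PB * Pb q F := mul_nonneg hP0.le hPb0
    exact mul_le_mul (by linarith) hlB2 (Real.log_nonneg (by linarith)) (by linarith)
  linarith

/-- **The direction.** -/
theorem DrOk.core (hH : DrOk p L th b hgt S Wd Z Bs M X C Lm d R ϖ) {h κ δ F₀ η : ℝ}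
    {X0 : ℕ} (hκ0 : 0 ≤ κ)
    (hm : MN h (3 * κ) δ F₀ η ϖ C (4 * Lm) X0) (hX : X0 ≤ X) (hF : 1 ≤ F₀) (hL0 : 0 ≤ Lm)
    (hϖ : 0 < ϖ)
    (hR : R + (d + Real.log 2) / ϖ ≤ (2 - h) * X * Real.log 2 + η * X) {n : ℕ}
    {A0 : (Fin (n + 2) → τ) → Matrix (Fin 2) (Fin 2) ℝ} (hA : ∀ t, (A0 t).det ≠ 0)
    (hinv : ∀ t i j, |(A0 t)⁻¹ i j| ≤ 2 ^ X) {Kb : ℝ}
    (hKb : ∀ v : Fin (n + 2) → Ω, ∀ i a, |bdv M b th A0 v i a| ≤ Kb)
    {e₀ : ℝ}
    (hbody : DF (tup p L (n + 2)) (fun _ => Tx 2 X) (fun w => A0 fun j => th (w j.succ))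
      (fun w => xv X (hgt (w 0)))
      (fun w => (b (w 0), (th (w 0), fun j : Fin (n + 2) => th (w j.succ)))) ≤ e₀)
    (he : F₀ * (|e₀| + (4 * n + 9) * d + |Pool.POT64.Cch 2 Lm C| + |Cc 2 (4 * Lm)|) ≤ η * X)
    {δ₁ : ℝ} (hδ₁ : 0 < δ₁) (hδ₁1 : δ₁ ≤ 1) (hδ : 0 ≤ δ) {Y : ℕ} (hY : 1 ≤ Y)
    (hYe : (2 : ℝ) ^ Y * (2 : ℝ) ^ (-(κ * X)) ≤ 1) :
    ∃ ψ : Λ → Fin 2 → ℤ,
      Pb (tup p L (n + 1)) (fun v => ∃ a, 2 * (2 : ℝ) ^ (-(κ * X)) + 4 * Kb / 2 ^ Y <
        |∑ i, pl (ψ (L (v 0))) i * bdv M b th A0 v i a|) ≤ δ₁ + δ / δ₁ ∧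
      CH p (fun ω => ψ (L ω)) Bs ≤ Real.log 2 + 1 / δ₁ * ((n + 3) * d + 7 * Real.log 2 +
        4 * Real.log 9 + 4 * (δ / δ₁) * Real.log (4 * (2 ^ Y + 1) + 1)) +
        1 / (F₀ * δ₁) * (2 * Real.log (4 * (2 ^ Y + 1) + 1)) ∧
      CH p (fun ω => ψ (L ω)) b ≤ Real.log 2 + 1 / δ₁ * ((n + 3) * d + 7 * Real.log 2 +
        4 * Real.log 9 + 4 * (δ / δ₁) * Real.log (4 * (2 ^ Y + 1) + 1)) +
        1 / (F₀ * δ₁) * (2 * Real.log (4 * (2 ^ Y + 1) + 1)) := by
  classical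
  have hp := hH.law
  have hp0 := hp.nonneg
  have ht := tup_isLaw hp L (n + 2)
  have ht0 := ht.nonneg
  have him0 : Im (tup p L (n + 2)) p (fun w => w 0) := im_tup hp.nonneg L _ 0
  have hF0 : 0 < F₀ := by linarith
  have hd0 : 0 ≤ d := (MI_nonneg hp.nonneg _ _ _).trans hH.h0
  have hX0 : (0 : ℝ) ≤ X := Nat.cast_nonneg X
  have hn0 : (0 : ℝ) ≤ n := Nat.cast_nonneg n
  have hL2 : 0 ≤ Real.log 2 := Real.log_nonneg (by norm_num)
  have hL9 : 0 ≤ Real.log 9 := Real.log_nonneg (by norm_num)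
  have hlB : 0 ≤ Real.log (4 * ((2 : ℝ) ^ Y + 1) + 1) := Real.log_nonneg (by
    have : (0 : ℝ) < 2 ^ Y := by positivity
    linarith)
  have hlB2 : Real.log (2 * ((2 : ℝ) ^ Y + 1) + 1) ≤ Real.log (4 * ((2 : ℝ) ^ Y + 1) + 1) :=
    Real.log_le_log (by positivity) (by
      have : (0 : ℝ) < 2 ^ Y := by positivity
      linarith)
  -- the same line
  have hs := hH.same hm hX hF hL0 hϖ hR hA hinv hbody (by
    refine le_trans ?_ he
    refine le_trans ?_ (mul_le_mul_of_nonneg_right hF (by positivity))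
    have h1 := le_abs_self e₀
    have h2 := le_abs_self (Pool.POT64.Cch 2 Lm C)
    have h3 := abs_nonneg (Cc 2 (4 * Lm))
    have h4 : (2 * (2 * (n : ℝ) + 4) + 1) * d = (4 * n + 9) * d := by ring
    rw [h4]
    linarith)
  obtain ⟨T, f, hf, hT1, hT2, hT3⟩ := sel hp L (n + 1)
    (fun v => (2 : ℝ) ^ (-(κ * X)) ≤ nb (bdv M b th A0 v))
    (fun v u => RR ((2 : ℝ) ^ (-(3 * κ * X))) (bdv M b th A0 v) (bdv M b th A0 u)) hδ₁
  have hT2' : Pb (tup p L (n + 1)) (fun v => (2 : ℝ) ^ (-(κ * X)) ≤ nb (bdv M b th A0 v) ∧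
      T (L (v 0)) ∧ RR ((2 : ℝ) ^ (-(3 * κ * X))) (bdv M b th A0 v)
        (bdv M b th A0 (f (L (v 0))))) ≤ δ / δ₁ := by
    rw [le_div_iff₀ hδ₁, mul_comm]
    exact hT2.trans hs
  refine ⟨psi M b th A0 T f Y, ?_, ?_⟩
  · refine le_trans (Pb_mono (tup_isLaw hp L (n + 1)).nonneg ?_)
      ((Pb_or (tup_isLaw hp L (n + 1)).nonneg _ _).trans (add_le_add hT1 hT2'))
    rintro v hv ⟨a, ha⟩
    have hv0 := ((tup_pos_iff hp0 L _ v).1 hv).1 0
    exact orth hY hκ0 (fun i a => hKb v i a) (fun h => (hf (v 0) hv0 h).1) ha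
  -- the density
  have hsup : ∀ w, 0 < tup p L (n + 2) w → ∀ j, 0 < p (w j) ∧ L (w j) = L (w 0) ∧
      b (w j) = b (w 0) := fun w hw j => by
    have h1 := (tup_pos_iff hp0 L _ w).1 hw
    exact ⟨h1.1 j, h1.2 j, hH.Lb _ _ (h1.1 j) (h1.1 0) (h1.2 j)⟩
  obtain ⟨PB, hPB⟩ : ∃ PB, PB = Pe (tup p L (n + 2)) (Bg M b th A0 ((2 : ℝ) ^ (-(κ * X)))) :=
    ⟨_, rfl⟩
  have hmg : (fun w : Fin (n + 1 + 1 + 1) → Ω => tup p L (n + 1 + 1) w *
      ci ((2 : ℝ) ^ (-(κ * X)) ≤ nb (bdv M b th A0 fun j => w j.succ))) =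
      fun w => tup p L (n + 2) w * ci (Bg M b th A0 ((2 : ℝ) ^ (-(κ * X))) w) := by
    funext w
    rcases (ht0 w).eq_or_lt with h1 | h1
    · have h1' : tup p L (n + 1 + 1) w = 0 := h1.symm
      rw [h1', zero_mul, zero_mul]
    · have h2 := (hsup w h1 1).2.2
      have h3 : bdv M b th A0 (fun j => w j.succ) = bod M A0 (b (w 0)) fun j => th (w j.succ) := by
        unfold bdv
        have h4 : b (w (Fin.succ 0)) = b (w 0) := h2
        rw [h4]
      rw [h3]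
      rfl
  rw [hmg] at hT3
  have hPT : δ₁ * Pe p (fun ω => T (L ω)) ≤ PB := by
    rw [hPB]
    exact mg_ci_T ht0 (fun w => w 0) _ hT3
  have hX0' : ∀ ω, ¬ T (L ω) → psi M b th A0 T f Y (L ω) = 0 := fun ω h => psi_F h
  have hcnt : ∀ (U : Type) (W : Ω → U) (q : Ω → ℝ), IsLaw q → (∀ ω, 0 < q ω → 0 < p ω) →
      CH q (fun ω => psi M b th A0 T f Y (L ω)) W ≤
        2 * Real.log (4 * (2 ^ Y + 1) + 1) := by
    intro U W q hq hqp
    have h1 := CH_cnt hq (fun ω => psi M b th A0 T f Y (L ω)) W (M := 2 ^ Y + 1)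
      (fun ω hω i => by
        by_cases hT : T (L ω)
        · rw [psi_T hT]
          have h2 := (hf _ (hqp ω hω) hT).1
          exact fl_bd ((un_un (lt_of_lt_of_le (by positivity) h2)).1 i)
        · rw [psi_F hT]
          simp only [Pi.zero_apply, Int.cast_zero, abs_zero]
          positivity)
    push_cast at h1
    exact h1
  have hpos1 : 0 ≤ 1 / δ₁ * ((n + 3) * d + 7 * Real.log 2 +
      4 * Real.log 9 + 4 * (δ / δ₁) * Real.log (4 * (2 ^ Y + 1) + 1)) := by positivity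
  have hpos2 : 0 ≤ 1 / (F₀ * δ₁) * (2 * Real.log (4 * (2 ^ Y + 1) + 1)) := by positivity
  rcases lt_or_ge PB (1 / F₀) with hc | hc
  · -- the bodies are small
    have key : ∀ (U : Type) (W : Ω → U), CH p (fun ω => psi M b th A0 T f Y (L ω)) W ≤
        Real.log 2 + 1 / F₀ / δ₁ * (2 * Real.log (4 * (2 ^ Y + 1) + 1)) := fun U W =>
      tr0 hp (fun ω => T (L ω)) hδ₁ (by positivity) (hPT.trans hc.le) hX0' W (hcnt U W)
    have e1 : 1 / F₀ / δ₁ = 1 / (F₀ * δ₁) := by rw [div_div]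
    rw [e1] at key
    constructor
    · have := key σ Bs
      linarith
    · have := key B b
      linarith
  -- the bodies are big
  have hP0 : 0 < PB := lt_of_lt_of_le (by positivity) hc
  obtain ⟨q, hq⟩ : ∃ q, q = cond (tup p L (n + 2))
    (Bg M b th A0 ((2 : ℝ) ^ (-(κ * X)))) True := ⟨_, rfl⟩
  have hql : IsLaw q := by
    rw [hq]
    exact cond_law ht0 (hPB ▸ hP0)
  have hq0 := hql.nonneg
  have hqt : ∀ w, 0 < q w → 0 < tup p L (n + 2) w ∧
      Bg M b th A0 ((2 : ℝ) ^ (-(κ * X))) w := fun w hw => by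
    rw [hq] at hw
    have := (cond_pos_iff ht0 _ True w).1 hw
    exact ⟨this.1, of_eq_true this.2⟩
  have hPB1 : PB ≤ 1 := by
    rw [hPB]
    have h1 := law_ev ht (Bg M b th A0 ((2 : ℝ) ^ (-(κ * X))))
    have h2 := law_nonneg ht0 (Bg M b th A0 ((2 : ℝ) ^ (-(κ * X)))) False
    have h5 : Pe (tup p L (n + 2)) (Bg M b th A0 ((2 : ℝ) ^ (-(κ * X)))) =
      Pool.Agent.H49.Ent.law (tup p L (n + 2)) (Bg M b th A0 ((2 : ℝ) ^ (-(κ * X)))) True := rfl
    rw [h5]
    linarith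
  have hPB0' : 0 < Pe (tup p L (n + 2)) (Bg M b th A0 ((2 : ℝ) ^ (-(κ * X)))) := hPB ▸ hP0
  have hdens : ∀ ω, T (L ω) → δ₁ * p ω ≤ PB * mg q (fun w => w 0) ω := by
    intro ω hω
    have h1 := hT3 ω hω
    rw [mg_cond_ci (fun w : Fin (n + 2 + 1) → Ω => w 0) hPB0', ← hq, ← hPB] at h1
    exact h1
  have key : ∀ (U : Type) (W : Ω → U), CH p (fun ω => psi M b th A0 T f Y (L ω)) W ≤
      Real.log 2 + 1 / δ₁ * (PB * CH q (fun w => psi M b th A0 T f Y (L (w 0)))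
        (fun w => W (w 0))) := by
    intro U W
    have h1 := tr1 hp (fun ω => T (L ω)) hδ₁ hP0 (mg_law hql fun w => w 0) hdens hX0' W
    have h2 := (im_mg q (fun w : Fin (n + 2 + 1) → Ω => w 0)).CH
      (fun ω => psi M b th A0 T f Y (L ω)) W
    rw [← h2] at h1
    refine h1.trans (le_of_eq ?_)
    ring
  have hsg := q_sgn (X := X) (M := M) hp hH.Lb (fun ω h1 h2 => (hf ω h1 h2).1) hT2' hPB0' hYe
  rw [← hPB, ← hq] at hsg
  have hμ : δ ≤ δ / δ₁ := by
    rw [le_div_iff₀ hδ₁]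
    exact mul_le_of_le_one_right hδ hδ₁1
  have hμ0 : 0 ≤ δ / δ₁ := by positivity
  have hun : ∀ w, 0 < q w → Un (un (bod M A0 (b (w 0)) fun j => th (w j.succ))) := fun w hw => by
    have := (hqt w hw).2
    unfold Bg at this
    exact un_un (lt_of_lt_of_le (by positivity) this)
  have hfin : ∀ (x : ℝ), x ≤ (n + 3) * d + 7 * Real.log 2 + 4 * Real.log 9 +
      4 * (δ / δ₁) * Real.log (4 * (2 ^ Y + 1) + 1) → Real.log 2 + 1 / δ₁ * x ≤
      Real.log 2 + 1 / δ₁ * ((n + 3) * d + 7 * Real.log 2 +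
        4 * Real.log 9 + 4 * (δ / δ₁) * Real.log (4 * (2 ^ Y + 1) + 1)) +
        1 / (F₀ * δ₁) * (2 * Real.log (4 * (2 ^ Y + 1) + 1)) := by
    intro x hx
    have := mul_le_mul_of_nonneg_left hx (by positivity : (0 : ℝ) ≤ 1 / δ₁)
    linarith
  constructor
  · -- given the base
    refine (key σ Bs).trans (hfin _ ?_)
    have hlk := hH.lnk hm hX hF hL0 hϖ hR hA hinv hbody (κ := (2 : ℝ) ^ (-(κ * X)))
      (hPB ▸ hc) (by
        refine le_trans (mul_le_mul_of_nonneg_left ?_ hF0.le) he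
        have h1 : (3 * (n : ℝ) + 8) * d ≤ (4 * n + 9) * d :=
          mul_le_mul_of_nonneg_right (by linarith) hd0
        linarith)
    rw [← hq] at hlk
    have k1 := few_dir hql (fun w => Z (w 0)) (fun w => Bs (w 0)) (dat Wd b th)
      (φ := fun w => un (bod M A0 (b (w 0)) fun j => th (w j.succ)))
      (fun w w' x y e => by
        have := bod_dt (M := M) (A0 := A0) q w w' x y e
        beta_reduce at this ⊢
        rw [this]) hun
      (ε := (2 : ℝ) ^ (-(κ * X))) (δ := δ) (by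
        refine le_trans (Pb_mono (tup_isLaw hql _ 1).nonneg ?_) hlk
        intro W hW hw
        have i0 := cpy_im hq0 (fun w => Z (w 0)) (fun w => Bs (w 0)) 0
        have i1 := cpy_im hq0 (fun w => Z (w 0)) (fun w => Bs (w 0)) 1
        have hc0 := (tup_isLaw hql (fun w => (Z (w 0), Bs (w 0))) 1).nonneg
        have b0 := (hqt _ (i0.pos hc0 hW)).2
        have b1 := (hqt _ (i1.pos hc0 hW)).2
        unfold Bg at b0 b1
        have n0 : (0 : ℝ) < nb (bod M A0 (b (W 0 0)) fun j => th (W 0 j.succ)) :=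
          lt_of_lt_of_le (by positivity) b0
        have n1 : (0 : ℝ) < nb (bod M A0 (b (W 1 0)) fun j => th (W 1 j.succ)) :=
          lt_of_lt_of_le (by positivity) b1
        rw [wg_un2, abs_div, abs_of_pos (mul_pos n0 n1), lt_div_iff₀ (mul_pos n0 n1)] at hw
        refine ⟨_, _, lt_of_le_of_lt ?_ hw⟩
        have h7 : (2 : ℝ) ^ (-(3 * κ * X)) = (2 : ℝ) ^ (-(κ * X)) * ((2 : ℝ) ^ (-(κ * X)) *
            (2 : ℝ) ^ (-(κ * X))) := by
          rw [← Real.rpow_add (by norm_num), ← Real.rpow_add (by norm_num)]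
          congr 1
          ring
        rw [h7]
        exact mul_le_mul_of_nonneg_left (mul_le_mul b0 b1 (by positivity) n0.le)
          (by positivity)) hYe
    have k2 := CH_two hql (fun w => psi M b th A0 T f Y (L (w 0))) (Dg M b th A0 Y)
      (fun w => T (L (w 0))) (fun w => Bs (w 0)) le_rfl (Or.inl k1)
    have k3 : PB * MI q (fun w => Z (w 0)) (dat Wd b th) (fun w => Bs (w 0)) ≤ (n + 3) * d := by
      have m1 := hH.mi_few (n + 2)
      have h1 := MI_ev ht (G := Bg M b th A0 ((2 : ℝ) ^ (-(κ * X)))) (fun w => Z (w 0))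
        (dat Wd b th) (fun w => Bs (w 0)) (fun w w' x y e =>
          Bg_det (Wd := Wd) _ w w' x y (Prod.ext_iff.mp e).1) hPB0'
      rw [← hq, ← hPB, le_div_iff₀ hP0, mul_comm] at h1
      have h3 : ((n + 2 : ℕ) + 1 : ℝ) * d = (n + 3) * d := by push_cast; ring
      rw [h3] at m1
      exact h1.trans m1
    have k4 := mul_le_mul_of_nonneg_left k2 hP0.le
    refine k4.trans ?_
    have e9 : Real.log (2 * (4 : ℝ) + 1) = Real.log 9 := by norm_num
    rw [e9]
    have k5 : 0 ≤ Real.log 2 + 2 * (Real.log 2 + (δ * Real.log (2 * (2 ^ Y + 1) + 1) +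
        Real.log 9)) := by
      have : 0 ≤ Real.log (2 * ((2 : ℝ) ^ Y + 1) + 1) := Real.log_nonneg (by
        have : (0 : ℝ) < 2 ^ Y := by positivity
        linarith)
      positivity
    have k6 : PB * (Real.log 2 + 2 * (Real.log 2 + (δ * Real.log (2 * (2 ^ Y + 1) + 1) +
        Real.log 9))) ≤ Real.log 2 + 2 * (Real.log 2 + (δ * Real.log (2 * (2 ^ Y + 1) + 1) +
        Real.log 9)) := mul_le_of_le_one_left k5 hPB1
    have k7 : PB * Real.log 2 ≤ Real.log 2 := mul_le_of_le_one_left hL2 hPB1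
    have k8 : δ * Real.log (2 * ((2 : ℝ) ^ Y + 1) + 1) ≤
        δ / δ₁ * Real.log (4 * (2 ^ Y + 1) + 1) :=
      mul_le_mul hμ hlB2 (Real.log_nonneg (by
        have : (0 : ℝ) < 2 ^ Y := by positivity
        linarith)) hμ0
    have e1 : PB * (CH q (fun w => psi M b th A0 T f Y (L (w 0)))
        (fun w => if T (L (w 0)) then Dg M b th A0 Y w else 0) +
        (MI q (fun w => Z (w 0)) (dat Wd b th) (fun w => Bs (w 0)) + (Real.log 2 +
          2 * (Real.log 2 + (δ * Real.log (2 * (2 ^ Y + 1) + 1) + Real.log 9)))) +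
        Real.log 2) = PB * CH q (fun w => psi M b th A0 T f Y (L (w 0)))
        (fun w => if T (L (w 0)) then Dg M b th A0 Y w else 0) +
        PB * MI q (fun w => Z (w 0)) (dat Wd b th) (fun w => Bs (w 0)) +
        PB * (Real.log 2 +
          2 * (Real.log 2 + (δ * Real.log (2 * (2 ^ Y + 1) + 1) + Real.log 9))) +
        PB * Real.log 2 := by ring
    rw [e1]
    linarith
  · -- given the context
    refine (key B b).trans (hfin _ ?_)
    have k2 := CH_two hql (fun w => psi M b th A0 T f Y (L (w 0))) (Dg M b th A0 Y)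
      (fun w => T (L (w 0))) (fun w => b (w 0)) le_rfl (Or.inr le_rfl)
    have k3 : PB * MI q (fun w => psi M b th A0 T f Y (L (w 0))) (Dg M b th A0 Y)
        (fun w => b (w 0)) ≤ (n + 2) * d := by
      have h1 : MI q (fun w => psi M b th A0 T f Y (L (w 0))) (Dg M b th A0 Y)
          (fun w => b (w 0)) ≤ MI q (fun w => L (w 0))
          (fun w (j : Fin (n + 2)) => th (w j.succ)) (fun w => b (w 0)) := by
        refine (MI_le_left hq0 (X := fun w => L (w 0)) ?_).trans (MI_le_right hq0 ?_)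
        · intro w w' _ _ e
          have e1 := (Prod.ext_iff.mp e).1
          simp only at e1 ⊢
          rw [e1]
        · intro w w' _ _ e
          simp only [Prod.mk.injEq] at e
          funext i
          unfold Dg
          rw [e.1, e.2]
      have h2 := MI_ev ht (G := Bg M b th A0 ((2 : ℝ) ^ (-(κ * X)))) (fun w => L (w 0))
        (fun w (j : Fin (n + 2)) => th (w j.succ)) (fun w => b (w 0)) (by
          intro w w' _ _ e
          simp only [Prod.mk.injEq] at e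
          unfold Bg
          rw [e.1, e.2]) hPB0'
      rw [← hq, ← hPB, le_div_iff₀ hP0, mul_comm] at h2
      have h3 := tup_cost hp0 th hH.Lb hH.h0 (n + 2)
      have h4 := mul_le_mul_of_nonneg_left h1 hP0.le
      push_cast at h3
      linarith
    have k4 := mul_le_mul_of_nonneg_left k2 hP0.le
    refine k4.trans ?_
    have k7 : PB * Real.log 2 ≤ Real.log 2 := mul_le_of_le_one_left hL2 hPB1
    have e1 : PB * (CH q (fun w => psi M b th A0 T f Y (L (w 0)))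
        (fun w => if T (L (w 0)) then Dg M b th A0 Y w else 0) +
        MI q (fun w => psi M b th A0 T f Y (L (w 0))) (Dg M b th A0 Y) (fun w => b (w 0)) +
        Real.log 2) = PB * CH q (fun w => psi M b th A0 T f Y (L (w 0)))
        (fun w => if T (L (w 0)) then Dg M b th A0 Y w else 0) +
        PB * MI q (fun w => psi M b th A0 T f Y (L (w 0))) (Dg M b th A0 Y) (fun w => b (w 0)) +
        PB * Real.log 2 := by ring
    rw [e1]
    have k8 : 0 ≤ δ / δ₁ * Real.log (4 * (2 ^ Y + 1) + 1) := mul_nonneg hμ0 hlB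
    linarith

end law

end Pool.DIR21
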