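import Pool.Agent.H21.DIR.Cop
import Pool.Agent.H30.TC.Few

/-!
# DIR: the direction is a function of the base up to few bits

`nsg`: two unit vectors of the plane which are almost parallel agree up to the sign. `few_dir`: if the
directions of two copies with the same height and the same base are parallel off a small event, the
digits of the direction are few given the base.
-/

set_option autoImplicit false

namespace Pool.DIR21

open Finset Real Matrix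
open Pool.Agent.H49.Ent Pool.Agent.H32.Dense Pool.STK Pool.POT Pool.FAD Pool.SLO Pool.TQ
open Pool.K2S (Pe)
open Pool.BFL (Pb)

/-- Unit vectors in the maximum norm. -/
def Un (u : Fin 2 → ℝ) : Prop := (∀ i, |u i| ≤ 1) ∧ ∃ i, |u i| = 1

theorem nsg_aux {u0 u1 v0 v1 ε : ℝ} (hu0 : |u0| = 1) (hu1 : |u1| ≤ 1) (hv0 : |v0| ≤ 1)
    (hv1 : |v1| ≤ 1) (hv : |v0| = 1 ∨ |v1| = 1) (h : |u0 * v1 - u1 * v0| ≤ ε) :
    ∃ s : ℝ, (s = 1 ∨ s = -1) ∧ |v0 - s * u0| ≤ 2 * ε ∧ |v1 - s * u1| ≤ 2 * ε := by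
  have hε : 0 ≤ ε := (abs_nonneg _).trans h
  have hsq : u0 * u0 = 1 := by
    rcases (abs_eq zero_le_one).1 hu0 with h1 | h1 <;> rw [h1] <;> norm_num
  have k1 : |v1 - v0 * u0 * u1| ≤ ε := by
    have e1 : v1 - v0 * u0 * u1 = u0 * (u0 * v1 - u1 * v0) := by
      have : u0 * (u0 * v1 - u1 * v0) = u0 * u0 * v1 - v0 * u0 * u1 := by ring
      rw [this, hsq]
      ring
    rw [e1, abs_mul, hu0, one_mul]
    exact h
  have k2 : v0 - v0 * u0 * u0 = 0 := by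
    have : v0 - v0 * u0 * u0 = v0 * (1 - u0 * u0) := by ring
    rw [this, hsq]
    ring
  have ht : |v0 * u0| = |v0| := by rw [abs_mul, hu0, mul_one]
  -- the distance of the factor to the signs
  have k3 : 1 - |v0| ≤ ε := by
    rcases hv with h1 | h1
    · rw [h1]
      linarith
    · have h2 : |v1| ≤ |v1 - v0 * u0 * u1| + |v0 * u0 * u1| := by
        have := abs_add_le (v1 - v0 * u0 * u1) (v0 * u0 * u1)
        rwa [sub_add_cancel] at this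
      have h3 : |v0 * u0 * u1| ≤ |v0| := by
        rw [abs_mul, ht]
        exact mul_le_of_le_one_right (abs_nonneg _) hu1
      rw [h1] at h2
      linarith
  obtain ⟨s, hs, hst⟩ : ∃ s : ℝ, (s = 1 ∨ s = -1) ∧ |v0 * u0 - s| ≤ ε := by
    rcases le_total 0 (v0 * u0) with h1 | h1
    · refine ⟨1, Or.inl rfl, ?_⟩
      rw [abs_of_nonneg h1] at ht
      rw [abs_le]
      constructor <;> linarith
    · refine ⟨-1, Or.inr rfl, ?_⟩
      rw [abs_of_nonpos h1] at ht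
      rw [abs_le]
      constructor <;> linarith
  refine ⟨s, hs, ?_, ?_⟩
  · have e1 : v0 - s * u0 = (v0 * u0 - s) * u0 := by
      have : (v0 * u0 - s) * u0 = v0 * (u0 * u0) - s * u0 := by ring
      rw [this, hsq]
      ring
    rw [e1, abs_mul, hu0, mul_one]
    linarith
  · have e1 : v1 - s * u1 = (v1 - v0 * u0 * u1) + (v0 * u0 - s) * u1 := by ring
    rw [e1]
    refine (abs_add_le _ _).trans ?_
    have h2 : |(v0 * u0 - s) * u1| ≤ ε := by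
      rw [abs_mul]
      exact (mul_le_of_le_one_right (abs_nonneg _) hu1).trans hst
    linarith

/-- Almost parallel unit vectors agree up to the sign. -/
theorem nsg {u v : Fin 2 → ℝ} {ε : ℝ} (hu : Un u) (hv : Un v) (h : |wg u v| ≤ ε) :
    ∃ s : ℝ, (s = 1 ∨ s = -1) ∧ ∀ i, |v i - s * u i| ≤ 2 * ε := by
  obtain ⟨hu1, i, hi⟩ := hu
  obtain ⟨hv1, j, hj⟩ := hv
  have hv' : |v 0| = 1 ∨ |v 1| = 1 := by
    fin_cases j
    · exact Or.inl hj
    · exact Or.inr hj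
  fin_cases i
  · obtain ⟨s, hs, h0, h1⟩ := nsg_aux hi (hu1 1) (hv1 0) (hv1 1) hv' h
    refine ⟨s, hs, fun i => ?_⟩
    fin_cases i
    · exact h0
    · exact h1
  · have h' : |u 1 * v 0 - u 0 * v 1| ≤ ε := by
      rw [abs_sub_comm]
      exact h
    obtain ⟨s, hs, h0, h1⟩ := nsg_aux hi (hu1 0) (hv1 1) (hv1 0) hv'.symm h'
    refine ⟨s, hs, fun i => ?_⟩
    fin_cases i
    · exact h1
    · exact h0

section ent

variable {Ω S : Type} [Fintype Ω] {p : Ω → ℝ}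

theorem CH_vec2 (hp : ∀ ω, 0 ≤ p ω) (X : Ω → Fin 2 → ℤ) (W : Ω → S) :
    CH p X W ≤ CH p (fun ω => X ω 0) W + CH p (fun ω => X ω 1) W := by
  have h1 : CH p X W ≤ CH p (fun ω => (X ω 0, X ω 1)) W := by
    refine CH_mono_left hp fun ω ω' _ _ e => ?_
    simp only [Prod.mk.injEq] at e
    funext i
    fin_cases i
    · exact e.1.1
    · exact e.1.2
  rw [CH_chain hp] at h1
  have h2 := CH_mono_cond hp (X := fun ω => X ω 0) (W' := fun ω => (X ω 1, W ω)) (W := W)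
    (fun ω ω' _ _ e => (Prod.ext_iff.mp e).2)
  linarith

/-- A vector which is known up to the sign and up to a bounded error, off an event. -/
theorem CH_sgn (hp : IsLaw p) (X f : Ω → Fin 2 → ℤ) (F : Ω → Prop) {B D : ℝ} (hB : 0 ≤ B)
    (hD : 0 ≤ D) (hX : ∀ ω, 0 < p ω → ∀ i, |(X ω i : ℝ)| ≤ B)
    (h : ∀ ω, 0 < p ω → ¬ F ω → ∃ s : ℤ, (s = 1 ∨ s = -1) ∧
      ∀ i, |(X ω i : ℝ) - ((s * f ω i : ℤ) : ℝ)| ≤ D) :
    CH p X f ≤ Real.log 2 +
      2 * (Real.log 2 + (Pb p F * Real.log (2 * B + 1) + Real.log (2 * D + 1))) := by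
  classical
  have h0 := hp.nonneg
  have hs : ∀ ω, ∃ s : ℤ, (s = 1 ∨ s = -1) ∧ (0 < p ω → ¬ F ω →
      ∀ i, |(X ω i : ℝ) - ((s * f ω i : ℤ) : ℝ)| ≤ D) := by
    intro ω
    by_cases hω : 0 < p ω ∧ ¬ F ω
    · obtain ⟨s, h1, h2⟩ := h ω hω.1 hω.2
      exact ⟨s, h1, fun _ _ => h2⟩
    · exact ⟨1, Or.inl rfl, fun a b => absurd ⟨a, b⟩ hω⟩
  choose s hs1 hs2 using hs
  have e1 := CH_le_add h0 X s f
  have e2 : CH p s f ≤ Real.log 2 := by
    have k := CH_le_card h0 hp.sum_one s f (fun _ => ({1, -1} : Finset ℤ))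
      (fun ω _ => by
        rw [Finset.mem_insert, Finset.mem_singleton]
        exact hs1 ω)
    rw [Ex_const hp.sum_one] at k
    have hc : ({1, -1} : Finset ℤ).card = 2 := by decide
    rw [hc] at k
    exact_mod_cast k
  have e3 := CH_vec2 h0 X (fun ω => (s ω, f ω))
  have e4 : ∀ i, CH p (fun ω => X ω i) (fun ω => (s ω, f ω)) ≤
      Real.log 2 + (Pb p F * Real.log (2 * B + 1) + Real.log (2 * D + 1)) := by
    intro i
    have k1 := CH_mono_cond h0 (X := fun ω => X ω i) (W' := fun ω => (s ω, f ω))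
      (W := fun ω => s ω * f ω i) (fun ω ω' _ _ e => by
        simp only [Prod.mk.injEq] at e ⊢
        rw [e.1, e.2])
    exact k1.trans (Pool.TC.CH_near1 hp (fun ω => X ω i) (fun ω => s ω * f ω i) F hB hD
      (fun ω hω => hX ω hω i) (fun ω hω hF => hs2 ω hω hF i))
  have := e4 0
  have := e4 1
  linarith

end ent

variable {Γ α S σ : Type} [Fintype Γ] {q : Γ → ℝ}

theorem fl_near {Y : ℕ} {x y : ℝ} {ε : ℝ} (h : |x - y| ≤ 2 * ε) (hY : 2 ^ Y * ε ≤ 1) :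
    |((⌊(2 : ℝ) ^ Y * x⌋ : ℤ) : ℝ) - ((1 * ⌊(2 : ℝ) ^ Y * y⌋ : ℤ) : ℝ)| ≤ 4 := by
  have h1 := Int.floor_le ((2 : ℝ) ^ Y * x)
  have h2 := Int.lt_floor_add_one ((2 : ℝ) ^ Y * x)
  have h3 := Int.floor_le ((2 : ℝ) ^ Y * y)
  have h4 := Int.lt_floor_add_one ((2 : ℝ) ^ Y * y)
  have h5 : |(2 : ℝ) ^ Y * x - 2 ^ Y * y| ≤ 2 := by
    rw [← mul_sub, abs_mul, abs_of_pos (by positivity : (0 : ℝ) < 2 ^ Y)]
    have := mul_le_mul_of_nonneg_left h (by positivity : (0 : ℝ) ≤ 2 ^ Y)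
    linarith
  rw [one_mul]
  rw [abs_le] at h5 ⊢
  constructor <;> linarith [h5.1, h5.2]

theorem fl_near' {Y : ℕ} {x y : ℝ} {ε : ℝ} (h : |x + y| ≤ 2 * ε) (hY : 2 ^ Y * ε ≤ 1) :
    |((⌊(2 : ℝ) ^ Y * x⌋ : ℤ) : ℝ) - ((-1 * ⌊(2 : ℝ) ^ Y * y⌋ : ℤ) : ℝ)| ≤ 4 := by
  have h1 := Int.floor_le ((2 : ℝ) ^ Y * x)
  have h2 := Int.lt_floor_add_one ((2 : ℝ) ^ Y * x)
  have h3 := Int.floor_le ((2 : ℝ) ^ Y * y)
  have h4 := Int.lt_floor_add_one ((2 : ℝ) ^ Y * y)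
  have h5 : |(2 : ℝ) ^ Y * x + 2 ^ Y * y| ≤ 2 := by
    rw [← mul_add, abs_mul, abs_of_pos (by positivity : (0 : ℝ) < 2 ^ Y)]
    have := mul_le_mul_of_nonneg_left h (by positivity : (0 : ℝ) ≤ 2 ^ Y)
    linarith
  push_cast
  rw [abs_le] at h5 ⊢
  constructor <;> linarith [h5.1, h5.2]

theorem fl_bd {Y : ℕ} {x : ℝ} (h : |x| ≤ 1) : |((⌊(2 : ℝ) ^ Y * x⌋ : ℤ) : ℝ)| ≤ 2 ^ Y + 1 := by
  have h1 := Int.floor_le ((2 : ℝ) ^ Y * x)
  have h2 := Int.lt_floor_add_one ((2 : ℝ) ^ Y * x)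
  have h5 : |(2 : ℝ) ^ Y * x| ≤ 2 ^ Y := by
    rw [abs_mul, abs_of_pos (by positivity : (0 : ℝ) < 2 ^ Y)]
    exact mul_le_of_le_one_right (by positivity) h
  rw [abs_le] at h5 ⊢
  constructor <;> linarith [h5.1, h5.2]

/-- The digits of two unit vectors which are almost parallel. -/
theorem dig_sgn {u v : Fin 2 → ℝ} {ε : ℝ} (hu : Un u) (hv : Un v) (h : |wg u v| ≤ ε) {Y : ℕ}
    (hY : 2 ^ Y * ε ≤ 1) : ∃ s : ℤ, (s = 1 ∨ s = -1) ∧
      ∀ i, |((⌊(2 : ℝ) ^ Y * v i⌋ : ℤ) : ℝ) - ((s * ⌊(2 : ℝ) ^ Y * u i⌋ : ℤ) : ℝ)| ≤ 4 := by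
  obtain ⟨s, hs, h1⟩ := nsg hu hv h
  rcases hs with rfl | rfl
  · refine ⟨1, Or.inl rfl, fun i => fl_near ?_ hY⟩
    have := h1 i
    rwa [one_mul] at this
  · refine ⟨-1, Or.inr rfl, fun i => fl_near' ?_ hY⟩
    have := h1 i
    rwa [neg_one_mul, sub_neg_eq_add] at this

/-- **Few**: the direction given the base. -/
theorem few_dir (hq : IsLaw q) (Z : Γ → S) (B : Γ → σ) (a : Γ → α) {φ : Γ → Fin 2 → ℝ}
    (hφ : Det q a φ) (hu : ∀ w, 0 < q w → Un (φ w)) {ε δ : ℝ}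
    (hG : Pb (cpy q Z B) (fun W => ε < |wg (φ (W 0)) (φ (W 1))|) ≤ δ) {Y : ℕ}
    (hY : 2 ^ Y * ε ≤ 1) :
    CH q (fun w i => ⌊(2 : ℝ) ^ Y * φ w i⌋) B ≤ MI q Z a B + (Real.log 2 +
      2 * (Real.log 2 + (δ * Real.log (2 * (2 ^ Y + 1) + 1) + Real.log (2 * 4 + 1)))) := by
  classical
  have hq0 := hq.nonneg
  have hc : IsLaw (cpy q Z B) := tup_isLaw hq _ 1
  have h0 := hc.nonneg
  obtain ⟨F, hF⟩ : ∃ F : Γ → Fin 2 → ℤ, F = fun w i => ⌊(2 : ℝ) ^ Y * φ w i⌋ := ⟨_, rfl⟩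
  have hFa : Det q a F := by
    intro w w' x y e
    rw [hF]
    simp only [hφ w w' x y e]
  rw [← hF]
  have i0 := cpy_im hq0 Z B 0
  have i1 := cpy_im hq0 Z B 1
  rw [← i0.CH F B]
  have e1 : CH (cpy q Z B) (fun W => F (W 0)) (fun W => B (W 0)) =
      MI (cpy q Z B) (fun W => F (W 0)) (fun W => F (W 1)) (fun W => B (W 0)) +
        CH (cpy q Z B) (fun W => F (W 0)) (fun W => (F (W 1), B (W 0))) := by
    unfold MI
    ring
  have e2 : MI (cpy q Z B) (fun W => F (W 0)) (fun W => F (W 1)) (fun W => B (W 0)) ≤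
      MI q Z a B := by
    refine le_trans ?_ (cpy_mi2 hq0 Z B a)
    refine (MI_le_left h0 (X := fun W => a (W 0)) ?_).trans (MI_le_right h0 ?_)
    · intro W W' x y e
      exact i0.det h0 hFa W W' x y (Prod.ext_iff.mp e).1
    · intro W W' x y e
      exact i1.det h0 hFa W W' x y (Prod.ext_iff.mp e).1
  have e3 : CH (cpy q Z B) (fun W => F (W 0)) (fun W => (F (W 1), B (W 0))) ≤
      CH (cpy q Z B) (fun W => F (W 0)) (fun W => F (W 1)) :=
    CH_mono_cond h0 fun W W' _ _ e => (Prod.ext_iff.mp e).1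
  have e4 := CH_sgn hc (fun W => F (W 0)) (fun W => F (W 1))
    (fun W => ε < |wg (φ (W 0)) (φ (W 1))|) (B := 2 ^ Y + 1) (D := 4) (by positivity)
    (by norm_num) (fun W hW i => by
      rw [hF]
      exact fl_bd ((hu _ (i0.pos h0 hW)).1 i)) (fun W hW hn => by
      rw [hF]
      have k1 : |wg (φ (W 1)) (φ (W 0))| ≤ ε := by
        have : wg (φ (W 1)) (φ (W 0)) = -wg (φ (W 0)) (φ (W 1)) := by
          unfold wg
          ring
        rw [this, abs_neg]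
        exact not_lt.1 hn
      exact dig_sgn (hu _ (i1.pos h0 hW)) (hu _ (i0.pos h0 hW)) k1 hY)
  have l1 : 0 ≤ Real.log (2 * ((2 : ℝ) ^ Y + 1) + 1) := Real.log_nonneg (by
    have : (0 : ℝ) < 2 ^ Y := by positivity
    linarith)
  have := mul_le_mul_of_nonneg_right hG l1
  linarith

end Pool.DIR21
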