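import Pool.Agent.H35.TC.Smp
import Pool.Agent.H64.POT.Chart
import Pool.Agent.H16.TT.TqG

/-!
# DIR: two full bodies in the plane

`wg u v` is the determinant of two vectors of the plane. `pair_low`: if an integer vector of the plane
is full in two bodies given `Y`, then its entropy given `Y` is at least the logarithm of `wg` of a
column of the first and a column of the second. `mass`: against a nonfull row.
-/

set_option autoImplicit false

namespace Pool.DIR21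

open Finset Real Matrix
open Pool.Agent.H49.Ent Pool.Agent.H32.Dense Pool.STK Pool.POT Pool.FAD Pool.SLO Pool.TQ
open Pool.K2S (Pe)

/-- The determinant of two vectors of the plane. -/
def wg (u v : Fin 2 → ℝ) : ℝ := u 0 * v 1 - u 1 * v 0

theorem wg_mul (S : Matrix (Fin 2) (Fin 2) ℝ) (x y : Fin 2 → ℝ) :
    wg (S *ᵥ x) (S *ᵥ y) = S.det * wg x y := by
  unfold wg
  rw [Matrix.det_fin_two]
  simp only [Matrix.mulVec, dotProduct, Fin.sum_univ_two]
  ring

theorem wg_le {x y : Fin 2 → ℝ} {a b : ℝ} (hx : ∀ i, |x i| ≤ a) (hy : ∀ i, |y i| ≤ b) :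
    |wg x y| ≤ 2 * (a * b) := by
  have ha : 0 ≤ a := (abs_nonneg _).trans (hx 0)
  unfold wg
  refine (abs_sub _ _).trans ?_
  rw [abs_mul, abs_mul]
  have h1 := mul_le_mul (hx 0) (hy 1) (abs_nonneg _) ha
  have h2 := mul_le_mul (hx 1) (hy 0) (abs_nonneg _) ha
  linarith

/-- A column of a body in the coordinates of a larger body. -/
theorem col_inc {A S : Matrix (Fin 2) (Fin 2) ℝ} (hS : S.det ≠ 0) {c : ℝ} (h : Inc c A S)
    (b : Fin 2) : (fun i => A i b) = S *ᵥ (fun i => (S⁻¹ * A) i b) ∧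
      ∀ i, |(S⁻¹ * A) i b| ≤ c := by
  constructor
  · have e1 : S * (S⁻¹ * A) = A := by
      rw [← Matrix.mul_assoc, Matrix.mul_nonsing_inv _ (isUnit_iff_ne_zero.2 hS), Matrix.one_mul]
    funext i
    have e2 := congrFun (congrFun e1 i) b
    rw [Matrix.mul_apply] at e2
    exact e2.symm
  · intro i
    exact (Finset.single_le_sum (f := fun j => |(S⁻¹ * A) i j|) (fun _ _ => abs_nonneg _)
      (Finset.mem_univ b)).trans (h i)

theorem wg_inc {A B S : Matrix (Fin 2) (Fin 2) ℝ} (hS : S.det ≠ 0) {c : ℝ}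
    (h : Inc c A S) (h' : Inc c B S) (a b : Fin 2) :
    |wg (fun i => A i a) (fun i => B i b)| ≤ |S.det| * (2 * (c * c)) := by
  obtain ⟨e1, k1⟩ := col_inc hS h a
  obtain ⟨e2, k2⟩ := col_inc hS h' b
  rw [e1, e2, wg_mul, abs_mul]
  exact mul_le_mul_of_nonneg_left (wg_le k1 k2) (abs_nonneg _)

variable {Ω ζ : Type} [Fintype Ω] {p : Ω → ℝ}

/-- **Two full bodies.** -/
theorem pair_low (hp : IsLaw p) (X : ℕ) {A B : Ω → Matrix (Fin 2) (Fin 2) ℝ}
    (n : Ω → Fin 2 → ℤ) (Y : Ω → ζ) (hdA : Det p Y A) (hdB : Det p Y B)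
    (hA : ∀ ω, (A ω).det ≠ 0) (hB : ∀ ω, (B ω).det ≠ 0) {c₀ : ℝ} (hc : 0 ≤ c₀)
    (hTA : ∀ ω, Inc c₀ (Tx 2 X) (A ω)) (hTB : ∀ ω, Inc c₀ (Tx 2 X) (B ω)) {e e' : ℝ}
    (h1 : DF p (fun _ => Tx 2 X) A (fun ω => xv X (n ω)) Y ≤ e)
    (h2 : DF p (fun _ => Tx 2 X) B (fun ω => xv X (n ω)) Y ≤ e') {r : ℝ} (hr : 0 < r)
    (hw : ∀ ω, 0 < p ω → ∃ a b : Fin 2, r ≤ |wg (fun i => A ω i a) (fun i => B ω i b)|) :
    Real.log r + 2 * (X * Real.log 2) - (e + e' + Cp 2 c₀) - Real.log 8 ≤ CH p n Y := by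
  have h0 := hp.nonneg
  obtain ⟨S, s1, s2, s3, s4, s5⟩ := DF_pair h0 hp.sum_one (T := fun _ => Tx 2 X)
    (fun ω => xv X (n ω)) Y (fun _ _ _ _ _ => rfl) hdA hdB (fun _ => Tx_det 2 X) hA hB hc hTA hTB
  rw [DF_xv p X S] at s5
  have k1 : Real.log r - Real.log 8 + 2 * (X * Real.log 2) ≤
      Ex p (fun ω => lv (S ω) - lv (Tx 2 X)) := by
    rw [← Ex_const hp.sum_one (Real.log r - Real.log 8 + 2 * (X * Real.log 2))]
    refine Ex_mono h0 fun ω hω => ?_
    obtain ⟨a, b, hab⟩ := hw ω hω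
    have l1 : r ≤ |(S ω).det| * (2 * (2 * 2)) := by
      have := wg_inc (s2 ω) (c := (2 : ℕ)) (s3 ω) (s4 ω) a b
      push_cast at this
      exact hab.trans this
    have l2 : Real.log r ≤ lv (S ω) + Real.log 8 := by
      unfold lv
      rw [← Real.log_mul (abs_ne_zero.2 (s2 ω)) (by norm_num)]
      refine Real.log_le_log hr (l1.trans (le_of_eq ?_))
      norm_num
    have l3 : lv (Tx 2 X) = -(2 * (X * Real.log 2)) := by
      rw [lv_Tx]
      push_cast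
      ring
    rw [l3]
    linarith
  have k2 : CH p n (fun ω => (cl (S ω) (xv X (n ω)), Y ω)) ≤ CH p n Y :=
    CH_mono_cond h0 fun ω ω' _ _ h => (Prod.ext_iff.mp h).2
  linarith

/-! ### Against a row -/

variable {Γ σ : Type} [Fintype Γ] {q : Γ → ℝ} {f : Γ → Ω}

/-- The image of a law given an event. -/
theorem mg_cond (hq : IsLaw q) {F₀ : ℝ} (hden : ∀ ω, mg q f ω ≤ F₀ * p ω) {G : Γ → Prop}
    {m : ℝ} (hm : 0 < m) (hG : m ≤ Pe q G) (ω : Ω) :
    mg (cond q G True) f ω ≤ F₀ / m * p ω := by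
  classical
  have h1 : mg (cond q G True) f ω ≤ 1 / m * mg q f ω := by
    unfold mg
    rw [Finset.mul_sum]
    refine Finset.sum_le_sum fun w _ => ?_
    split_ifs
    · exact (cond_le hq.nonneg w).trans (mul_le_mul_of_nonneg_right
        (one_div_le_one_div_of_le hm hG) (hq.nonneg w))
    · simp
  refine h1.trans ?_
  have h2 := mul_le_mul_of_nonneg_left (hden ω) (by positivity : (0 : ℝ) ≤ 1 / m)
  refine h2.trans (le_of_eq ?_)
  field_simp

/-- **Two bodies against a row.** If the integer vector `Z` is full in `A` and in `B` given `Y`, and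
its row given `Bs` is not full, then the columns are almost parallel off an event of small mass: this
is the inequality which contradicts the row if the mass is at least `m`. -/
theorem mass (hp : IsLaw p) (hq : IsLaw q) (X : ℕ) {F₀ : ℝ} (hF : 0 < F₀)
    (hden : ∀ ω, mg q f ω ≤ F₀ * p ω) (Z : Ω → Fin 2 → ℤ) (Bs : Ω → σ)
    {A B : Γ → Matrix (Fin 2) (Fin 2) ℝ} (Y : Γ → ζ) (hdA : Det q Y A) (hdB : Det q Y B)
    (hdS : Det q Y (fun w => Bs (f w)))
    (hA : ∀ w, (A w).det ≠ 0) (hB : ∀ w, (B w).det ≠ 0) {c₀ : ℝ} (hc : 0 ≤ c₀)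
    (hTA : ∀ w, Inc c₀ (Tx 2 X) (A w)) (hTB : ∀ w, Inc c₀ (Tx 2 X) (B w)) {e : ℝ}
    (h1 : DF q (fun _ => Tx 2 X) A (fun w => xv X (Z (f w))) Y ≤ e)
    (h2 : DF q (fun _ => Tx 2 X) B (fun w => xv X (Z (f w))) Y ≤ e) {r : ℝ} (hr : 0 < r)
    {m : ℝ} (hm : 0 < m)
    (hG : m ≤ Pe q fun w => ∃ a b : Fin 2, r < |wg (fun i => A w i a) (fun i => B w i b)|)
    {C ϖ R : ℝ} (hC : 0 ≤ C) (hϖ : 0 ≤ ϖ) (hR : 0 ≤ R) (hZ : ∀ ω i, |(Z ω i : ℝ)| ≤ C * 2 ^ X)
    (nf : ∀ G : Ω → Prop, ϖ ≤ Pe p G → 0 < Pe p G → CH (cond p G True) Z Bs ≤ R)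
    {K : ℕ} (hK : 0 < K) :
    Real.log r + 2 * (X * Real.log 2) - (2 * ((e + |Cc 2 c₀|) / m) + Cp 2 c₀) - Real.log 8 ≤
      R + (F₀ / m / K + F₀ / m * ϖ) * (2 * Real.log (4 * (C * 2 ^ X) + 1)) +
        Real.log (K + 1) := by
  classical
  obtain ⟨G, hGd⟩ : ∃ G : Γ → Prop, G = fun w =>
    ∃ a b : Fin 2, r < |wg (fun i => A w i a) (fun i => B w i b)| := ⟨_, rfl⟩
  rw [← hGd] at hG
  have hG0 : 0 < Pe q G := hm.trans_le hG
  have hq0 := hq.nonneg
  have hdG : Det q Y G := by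
    intro w w' a b e
    rw [hGd]
    simp only
    rw [hdA w w' a b e, hdB w w' a b e]
  have hrL : IsLaw (cond q G True) := cond_law hq0 hG0
  have hpos : ∀ w, 0 < cond q G True w → 0 < q w ∧ G w := fun w hw => by
    have := (cond_pos_iff hq0 G True w).1 hw
    exact ⟨this.1, of_eq_true this.2⟩
  have hdf : ∀ V : Γ → Matrix (Fin 2) (Fin 2) ℝ, Det q Y V → (∀ w, (V w).det ≠ 0) →
      (∀ w, Inc c₀ (Tx 2 X) (V w)) →
      DF q (fun _ => Tx 2 X) V (fun w => xv X (Z (f w))) Y ≤ e →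
      DF (cond q G True) (fun _ => Tx 2 X) V (fun w => xv X (Z (f w))) Y ≤
        (e + |Cc 2 c₀|) / m := by
    intro V hdV hV hTV h
    have k1 := DF_ev hq (G := G) (T := fun _ => Tx 2 X) (V := V) (fun w => xv X (Z (f w))) Y
      hdG (fun _ _ _ _ _ => rfl) hdV (fun _ => Tx_det 2 X) hV hc hTV hG0
    have k2 := DF_ge hq0 hq.sum_one (T := fun _ => Tx 2 X) (V := V) (fun w => xv X (Z (f w))) Y
      (fun _ _ _ _ _ => rfl) hdV (fun _ => Tx_det 2 X) hV hc hTV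
    have k3 : 0 ≤ e + |Cc 2 c₀| := by
      have := le_abs_self (Cc 2 c₀)
      linarith
    refine k1.trans ?_
    calc (DF q (fun _ => Tx 2 X) V (fun w => xv X (Z (f w))) Y + |Cc 2 c₀|) / Pe q G ≤
          (e + |Cc 2 c₀|) / Pe q G := div_le_div_of_nonneg_right (by linarith) hG0.le
      _ ≤ _ := div_le_div_of_nonneg_left k3 hm hG
  have k1 := pair_low hrL X (fun w => Z (f w)) Y
    (fun w w' a b => hdA w w' (hpos w a).1 (hpos w' b).1)
    (fun w w' a b => hdB w w' (hpos w a).1 (hpos w' b).1) hA hB hc hTA hTB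
    (hdf A hdA hA hTA h1) (hdf B hdB hB hTB h2) hr (fun w hw => by
      have h3 := (hpos w hw).2
      rw [hGd] at h3
      obtain ⟨a, b, h4⟩ := h3
      exact ⟨a, b, h4.le⟩)
  have k2 : CH (cond q G True) (fun w => Z (f w)) Y ≤
      CH (cond q G True) (fun w => Z (f w)) (fun w => Bs (f w)) :=
    CH_mono_cond hrL.nonneg fun w w' a b h => hdS w w' (hpos w a).1 (hpos w' b).1 h
  have k3 := (im_mg (cond q G True) f).CH Z Bs
  have hGn : 0 ≤ 2 * Real.log (4 * (C * 2 ^ X) + 1) := by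
    have : 0 ≤ Real.log (4 * (C * 2 ^ X) + 1) := Real.log_nonneg (by
      have : (0 : ℝ) ≤ C * 2 ^ X := by positivity
      linarith)
    positivity
  have k4 := dens_up hp (mg_law hrL f) (F := F₀ / m) (m₀ := ϖ) (b := R)
    (G := 2 * Real.log (4 * (C * 2 ^ X) + 1)) (by positivity) (mg_cond hq hden hm hG) hϖ hR hGn
    Z Bs nf (fun q' hq' _ => by
      have := CH_cnt hq' Z Bs (fun ω _ i => hZ ω i)
      push_cast at this
      exact this) hK
  rw [← k3] at k4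
  linarith

end Pool.DIR21
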