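import Pool.Agent.H21.DIR.Tup
import Pool.Agent.H35.TC.Rnd

/-!
# DIR: the choice of the samples, and the concavity of the entropy

`CH_conc`: if `c t ≤ s` then `c CH_t ≤ CH_s`. `sel`: the choice of samples with a property `Big` as a
function of the line.
-/

set_option autoImplicit false

namespace Pool.DIR21

open Finset Real Matrix
open Pool.Agent.H49.Ent Pool.Agent.H32.Dense Pool.STK Pool.POT Pool.FAD Pool.SLO Pool.TQ
open Pool.K2S (Pe)
open Pool.BFL (Pb)
open Pool.TC35 (Ex_tup)

section conc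

variable {Ω S T : Type} [Fintype Ω]

/-- **Concavity.** -/
theorem CH_conc {s t : Ω → ℝ} (ht : IsLaw t) {c : ℝ} (hc : 0 < c)
    (h : ∀ ω, c * t ω ≤ s ω) (X : Ω → S) (W : Ω → T) : c * CH t X W ≤ CH s X W := by
  classical
  obtain ⟨u, hu⟩ : ∃ u : Ω × Bool → ℝ, u = fun w =>
      if w.2 = true then c * t w.1 else s w.1 - c * t w.1 := ⟨_, rfl⟩
  have ut : ∀ ω, u (ω, true) = c * t ω := fun ω => by rw [hu]; simp
  have uf : ∀ ω, u (ω, false) = s ω - c * t ω := fun ω => by rw [hu]; simp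
  have u0 : ∀ w, 0 ≤ u w := by
    rintro ⟨ω, b⟩
    cases b
    · rw [uf]
      linarith [h ω]
    · rw [ut]
      exact mul_nonneg hc.le (ht.nonneg ω)
  have him : Im u s Prod.fst := by
    intro ω
    rw [Fintype.sum_prod_type, Finset.sum_eq_single ω]
    · rw [Fintype.sum_bool]
      simp only [if_true]
      rw [ut, uf]
      ring
    · intro x _ hx
      simp [hx]
    · intro hx
      exact absurd (Finset.mem_univ _) hx
  obtain ⟨G, hG⟩ : ∃ G : Ω × Bool → Prop, G = fun w => w.2 = true := ⟨_, rfl⟩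
  have hGt : ∀ ω, G (ω, true) = True := fun ω => by rw [hG]; simp
  have hGf : ∀ ω, G (ω, false) = False := fun ω => by rw [hG]; simp
  have hlaw : law u G True = c := by
    unfold law
    rw [Fintype.sum_prod_type]
    refine Eq.trans ?_ (mul_one c)
    rw [← ht.sum_one, Finset.mul_sum]
    refine Finset.sum_congr rfl fun x _ => ?_
    rw [Fintype.sum_bool, hGt, hGf, if_pos rfl, if_neg false_ne_true, ut, add_zero]
  have hcond : Im (cond u G True) t Prod.fst := by
    intro ω
    rw [Fintype.sum_prod_type, Finset.sum_eq_single ω]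
    · rw [Fintype.sum_bool]
      simp only [if_true]
      unfold Pool.Agent.H49.Ent.cond
      rw [hGt, hGf, if_pos rfl, if_neg false_ne_true, hlaw, ut, add_zero]
      field_simp
    · intro x _ hx
      simp [hx]
    · intro hx
      exact absurd (Finset.mem_univ _) hx
  have k1 : CH u (fun w => X w.1) (fun w => (G w, W w.1)) ≤ CH u (fun w => X w.1)
      (fun w => W w.1) := CH_mono_cond u0 fun _ _ _ _ e => (Prod.ext_iff.mp e).2
  have k2 := CH_ev u0 (G := G) (fun w => X w.1) (fun w => (G w, W w.1))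
    (fun _ _ _ _ e => (Prod.ext_iff.mp e).1)
  have k3 : CH (cond u G True) (fun w => X w.1) (fun w => (G w, W w.1)) = CH t X W := by
    rw [← hcond.CH X W]
    have hT : ∀ w, 0 < cond u G True w → G w = True := fun w hw =>
      ((cond_pos_iff u0 G True w).1 hw).2
    refine CH_congr (cond_nonneg u0 _ _) (fun _ _ _ _ h => (Prod.ext_iff.mp h).1)
      (fun _ _ _ _ h => (Prod.ext_iff.mp h).1) ?_ ?_
    · intro w w' _ _ h
      exact (Prod.ext_iff.mp h).2
    · intro w w' a b h
      exact Prod.ext ((hT w a).trans (hT w' b).symm) h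
  have k4 := him.CH X W
  have k5 : 0 ≤ law u G False * CH (cond u G False) (fun w => X w.1) (fun w => (G w, W w.1)) :=
    mul_nonneg (law_nonneg u0 _ _) (CH_nonneg (cond_nonneg u0 _ _) _ _)
  rw [k3, hlaw] at k2
  linarith

end conc

variable {Ω Λ : Type} [Fintype Ω] {p : Ω → ℝ}

open Classical in
/-- The indicator of a proposition. -/
noncomputable def ci (P : Prop) : ℝ := if P then 1 else 0

theorem ci1 {P : Prop} (h : P) : ci P = 1 := if_pos h

theorem ci0 {P : Prop} (h : ¬ P) : ci P = 0 := if_neg h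

theorem ci_nonneg (P : Prop) : 0 ≤ ci P := by
  by_cases h : P
  · rw [ci1 h]
    norm_num
  · rw [ci0 h]

theorem ci_mono {P Q : Prop} (h : P → Q) : ci P ≤ ci Q := by
  by_cases hp : P
  · rw [ci1 hp, ci1 (h hp)]
  · rw [ci0 hp]
    exact ci_nonneg Q

open Classical in
theorem Pb_tup (hp : ∀ ω, 0 ≤ p ω) (L : Ω → Λ) (n : ℕ) (F : (Fin (n + 1) → Ω) → Prop) :
    Pb (tup p L n) F = ∑ z ∈ univ.image L, law p L z *
      ∑ v : Fin (n + 1) → Ω, (∏ j, cond p L z (v j)) * ci (F v) := by
  rw [← Ex_tup hp]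
  unfold Pb Ex
  refine Finset.sum_congr rfl fun v _ => ?_
  beta_reduce
  by_cases h : F v
  · rw [if_pos h, ci1 h, mul_one]
  · rw [if_neg h, ci0 h, mul_zero]

/-- **The choice of the samples.** -/
theorem sel (hl : IsLaw p) (L : Ω → Λ) (a : ℕ) (Big : (Fin (a + 1) → Ω) → Prop)
    (R : (Fin (a + 1) → Ω) → (Fin (a + 1) → Ω) → Prop) {δ₁ : ℝ} (h1 : 0 < δ₁) :
    ∃ (T : Λ → Prop) (f : Λ → Fin (a + 1) → Ω),
      (∀ ω, 0 < p ω → T (L ω) →
        Big (f (L ω)) ∧ ∀ j, L (f (L ω) j) = L ω ∧ 0 < p (f (L ω) j)) ∧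
      Pb (tup p L a) (fun v => Big v ∧ ¬ T (L (v 0))) ≤ δ₁ ∧
      δ₁ * Pb (tup p L a) (fun v => Big v ∧ T (L (v 0)) ∧ R v (f (L (v 0)))) ≤
        Pb (tup p L (a + 1 + a)) (fun w => R (fun i => w (Fin.castAdd (a + 1) i))
          (fun j => w (Fin.natAdd (a + 1) j))) ∧
      ∀ ω, T (L ω) → δ₁ * p ω ≤ mg (fun w : Fin (a + 1 + 1) → Ω =>
          tup p L (a + 1) w * ci (Big fun j => w j.succ)) (fun w => w 0) ω := by
  classical
  have h0 := hl.nonneg
  obtain ⟨ω₀⟩ : Nonempty Ω := by
    by_contra h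
    rw [not_nonempty_iff] at h
    have := hl.sum_one
    simp at this
  obtain ⟨W, hW⟩ : ∃ W : Λ → (Fin (a + 1) → Ω) → ℝ, W = fun z u =>
      ∑ v : Fin (a + 1) → Ω, (∏ j, cond p L z (v j)) * ci (Big v ∧ R v u) := ⟨_, rfl⟩
  obtain ⟨g, hg⟩ : ∃ g : Λ → ℝ, g = fun z =>
      ∑ v : Fin (a + 1) → Ω, (∏ j, cond p L z (v j)) * ci (Big v) := ⟨_, rfl⟩
  have hc0 : ∀ z ω, 0 ≤ cond p L z ω := fun z => cond_nonneg h0 L z
  have hP0 : ∀ z (v : Fin (a + 1) → Ω), 0 ≤ ∏ j, cond p L z (v j) := fun z v =>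
    Finset.prod_nonneg fun j _ => hc0 z _
  have hW0 : ∀ z u, 0 ≤ W z u := fun z u => by
    rw [hW]
    exact Finset.sum_nonneg fun v _ => mul_nonneg (hP0 z v) (ci_nonneg _)
  obtain ⟨S, hS⟩ : ∃ S : Λ → Finset (Fin (a + 1) → Ω), S = fun z =>
      univ.filter fun u => Big u ∧ ∀ j, L (u j) = z ∧ 0 < p (u j) := ⟨_, rfl⟩
  have hSm : ∀ z u, u ∈ S z ↔ Big u ∧ ∀ j, L (u j) = z ∧ 0 < p (u j) := fun z u => by
    rw [hS]
    simp
  have key : ∀ z, ∃ u : Fin (a + 1) → Ω,
      ((S z).Nonempty → u ∈ S z ∧ ∀ u' ∈ S z, W z u ≤ W z u') := by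
    intro z
    by_cases h : (S z).Nonempty
    · obtain ⟨u, h1, h2⟩ := Finset.exists_min_image (S z) (W z) h
      exact ⟨u, fun _ => ⟨h1, h2⟩⟩
    · exact ⟨fun _ => ω₀, fun h' => absurd h' h⟩
  choose f hf using key
  have hcz : ∀ z ω, cond p L z ω ≠ 0 → L ω = z ∧ 0 < p ω := by
    intro z ω h
    unfold Pool.Agent.H49.Ent.cond at h
    split_ifs at h with h6
    · refine ⟨h6, (h0 ω).lt_of_ne fun h7 => h ?_⟩
      rw [← h7, zero_div]
    · exact absurd rfl h
  have hpz : ∀ z (u : Fin (a + 1) → Ω), ∏ j, cond p L z (u j) ≠ 0 →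
      ∀ j, L (u j) = z ∧ 0 < p (u j) := fun z u h j =>
    hcz z _ fun h' => h (Finset.prod_eq_zero (Finset.mem_univ j) h')
  have hne : ∀ z, δ₁ ≤ g z → (S z).Nonempty := by
    intro z hz
    by_contra hS'
    have h3 : g z = 0 := by
      rw [hg]
      refine Finset.sum_eq_zero fun u _ => ?_
      by_cases hB : Big u
      · by_cases h : ∏ j, cond p L z (u j) = 0
        · rw [h, zero_mul]
        · exact absurd ⟨u, (hSm z u).2 ⟨hB, hpz z u h⟩⟩ hS'
      · rw [ci0 hB, mul_zero]
    linarith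
  refine ⟨fun z => δ₁ ≤ g z, f, fun ω _ hT => (hSm _ _).1 (hf _ (hne _ hT)).1, ?_, ?_, ?_⟩
  · -- the lines with a small mass
    rw [Pb_tup h0]
    have h3 : ∀ z, (∑ v : Fin (a + 1) → Ω, (∏ j, cond p L z (v j)) *
        ci (Big v ∧ ¬ δ₁ ≤ g (L (v 0)))) ≤ δ₁ := by
      intro z
      by_cases hz : δ₁ ≤ g z
      · refine le_trans (le_of_eq (Finset.sum_eq_zero fun v _ => ?_)) h1.le
        by_cases h : ∏ j, cond p L z (v j) = 0
        · rw [h, zero_mul]
        · rw [(hpz z v h 0).1, ci0 (fun h => h.2 hz), mul_zero]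
      · refine le_trans ?_ (not_le.1 hz).le
        rw [hg]
        exact Finset.sum_le_sum fun v _ => mul_le_mul_of_nonneg_left (ci_mono fun h => h.1)
          (hP0 z v)
    calc _ ≤ ∑ z ∈ univ.image L, law p L z * δ₁ :=
          Finset.sum_le_sum fun z _ => mul_le_mul_of_nonneg_left (h3 z) (law_nonneg h0 L z)
      _ = δ₁ := by rw [← Finset.sum_mul, sum_law_one hl.sum_one, one_mul]
  · -- the other lines
    rw [Pb_tup h0, Pb_tup h0, Finset.mul_sum]
    refine Finset.sum_le_sum fun z _ => ?_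
    rw [mul_left_comm]
    refine mul_le_mul_of_nonneg_left ?_ (law_nonneg h0 L z)
    have e2 : ∑ w : Fin (a + 1 + a + 1) → Ω, (∏ j, cond p L z (w j)) *
        ci (R (fun i => w (Fin.castAdd (a + 1) i)) (fun j => w (Fin.natAdd (a + 1) j))) =
          ∑ u : Fin (a + 1) → Ω, (∏ j, cond p L z (u j)) *
          ∑ v : Fin (a + 1) → Ω, (∏ j, cond p L z (v j)) * ci (R v u) := by
      have e3 := (Fin.appendEquiv (α := Ω) (a + 1) (a + 1)).sum_comp (fun w =>
        (∏ j, cond p L z (w j)) * ci (R (fun i => w (Fin.castAdd (a + 1) i))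
          (fun j => w (Fin.natAdd (a + 1) j))))
      refine Eq.trans e3.symm ?_
      rw [Fintype.sum_prod_type, Finset.sum_comm]
      refine Finset.sum_congr rfl fun u _ => ?_
      rw [Finset.mul_sum]
      refine Finset.sum_congr rfl fun v _ => ?_
      have e4 : Fin.appendEquiv (α := Ω) (a + 1) (a + 1) (v, u) = Fin.append v u := rfl
      rw [e4, Fin.prod_univ_add]
      simp only [Fin.append_left, Fin.append_right]
      ring
    rw [e2]
    by_cases hz : δ₁ ≤ g z
    · have e1 : (∑ v : Fin (a + 1) → Ω, (∏ j, cond p L z (v j)) *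
          ci (Big v ∧ δ₁ ≤ g (L (v 0)) ∧ R v (f (L (v 0))))) = W z (f z) := by
        rw [hW]
        refine Finset.sum_congr rfl fun v _ => ?_
        by_cases h : ∏ j, cond p L z (v j) = 0
        · rw [h, zero_mul, zero_mul]
        · have hv := (hpz z v h 0).1
          rw [hv]
          congr 1
          exact le_antisymm (ci_mono fun h => ⟨h.1, h.2.2⟩) (ci_mono fun h => ⟨h.1, hz, h.2⟩)
      rw [e1]
      calc δ₁ * W z (f z) ≤ g z * W z (f z) := mul_le_mul_of_nonneg_right hz (hW0 _ _)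
        _ = ∑ u : Fin (a + 1) → Ω, (∏ j, cond p L z (u j)) * ci (Big u) * W z (f z) := by
            rw [hg, Finset.sum_mul]
        _ ≤ _ := by
            refine Finset.sum_le_sum fun u _ => ?_
            by_cases hB : Big u
            · rw [ci1 hB, mul_one]
              by_cases h : ∏ j, cond p L z (u j) = 0
              · rw [h, zero_mul, zero_mul]
              · have hu : u ∈ S z := (hSm _ _).2 ⟨hB, hpz z u h⟩
                refine mul_le_mul_of_nonneg_left
                  (((hf z (hne z hz)).2 u hu).trans ?_) (hP0 z u)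
                rw [hW]
                exact Finset.sum_le_sum fun v _ => mul_le_mul_of_nonneg_left
                  (ci_mono fun h => h.2) (hP0 z v)
            · rw [ci0 hB, mul_zero, zero_mul]
              exact mul_nonneg (hP0 z u) (Finset.sum_nonneg fun v _ =>
                mul_nonneg (hP0 z v) (ci_nonneg _))
    · have e1 : (∑ v : Fin (a + 1) → Ω, (∏ j, cond p L z (v j)) *
          ci (Big v ∧ δ₁ ≤ g (L (v 0)) ∧ R v (f (L (v 0))))) = 0 := by
        refine Finset.sum_eq_zero fun v _ => ?_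
        by_cases h : ∏ j, cond p L z (v j) = 0
        · rw [h, zero_mul]
        · rw [(hpz z v h 0).1, ci0 (fun h => hz h.2.1), mul_zero]
      rw [e1, mul_zero]
      exact Finset.sum_nonneg fun u _ => mul_nonneg (hP0 z u)
        (Finset.sum_nonneg fun v _ => mul_nonneg (hP0 z v) (ci_nonneg _))
  · -- the density
    intro ω hT
    have e1 : mg (fun w : Fin (a + 1 + 1) → Ω =>
        tup p L (a + 1) w * ci (Big fun j => w j.succ)) (fun w => w 0) ω =
        p ω * g (L ω) := by
      unfold mg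
      have e3 := (Fin.consEquiv (fun _ : Fin (a + 1 + 1) => Ω)).sum_comp
        (fun w : Fin (a + 1 + 1) → Ω => if w 0 = ω then
          tup p L (a + 1) w * ci (Big fun j => w j.succ) else 0)
      rw [← e3, Fintype.sum_prod_type, Finset.sum_eq_single ω]
      · rw [hg, Finset.mul_sum]
        refine Finset.sum_congr rfl fun v _ => ?_
        have e5 : (Fin.consEquiv (fun _ : Fin (a + 1 + 1) => Ω)) (ω, v) =
          (Fin.cons ω v : Fin (a + 1 + 1) → Ω) := rfl
        rw [e5]
        simp only [Fin.cons_zero, Fin.cons_succ, if_true]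
        unfold tup
        simp only [Fin.cons_zero, Fin.cons_succ]
        ring
      · intro x _ hx
        refine Finset.sum_eq_zero fun v _ => ?_
        have e5 : (Fin.consEquiv (fun _ : Fin (a + 1 + 1) => Ω)) (x, v) =
          (Fin.cons x v : Fin (a + 1 + 1) → Ω) := rfl
        rw [e5, Fin.cons_zero, if_neg hx]
      · intro hx
        exact absurd (Finset.mem_univ _) hx
    rw [e1, mul_comm]
    exact mul_le_mul_of_nonneg_left hT (h0 ω)

end Pool.DIR21
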