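import Pool.Agent.H21.DIR.Sel

/-!
# DIR: the transfer of the entropy to the law of the samples

`tr1`: a function of the line which is constant off `T`: its entropy is bounded by the entropy under a
law whose density on `T` is bounded below.
-/

set_option autoImplicit false

namespace Pool.DIR21

open Finset Real Matrix
open Pool.Agent.H49.Ent Pool.Agent.H32.Dense Pool.STK Pool.POT Pool.FAD Pool.SLO Pool.TQ
open Pool.K2S (Pe)
open Pool.BFL (Pb)

section ev

variable {Ω Γ S T U : Type} [Fintype Ω] [Fintype Γ] {p : Ω → ℝ}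

theorem Pe_ci (p : Ω → ℝ) (G : Ω → Prop) : Pe p G = ∑ ω, p ω * ci (G ω) := by
  rw [Pool.K2S.Pe_eq]
  refine Finset.sum_congr rfl fun ω _ => ?_
  by_cases h : G ω
  · rw [if_pos h, ci1 h, mul_one]
  · rw [if_neg h, ci0 h, mul_zero]

theorem Pb_ci (p : Ω → ℝ) (G : Ω → Prop) : Pb p G = ∑ ω, p ω * ci (G ω) := by
  unfold Pb
  refine Finset.sum_congr rfl fun ω _ => ?_
  by_cases h : G ω
  · rw [if_pos h, ci1 h, mul_one]
  · rw [if_neg h, ci0 h, mul_zero]

theorem Pb_Pe (p : Ω → ℝ) (G : Ω → Prop) : Pb p G = Pe p G := by rw [Pb_ci, Pe_ci]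

theorem cond_ci (p : Ω → ℝ) (G : Ω → Prop) (ω : Ω) :
    cond p G True ω = p ω * ci (G ω) / Pe p G := by
  have h5 : Pe p G = law p G True := rfl
  unfold Pool.Agent.H49.Ent.cond
  rw [h5]
  by_cases h : G ω
  · rw [if_pos (eq_true h), ci1 h, mul_one]
  · rw [if_neg (fun h' => h (of_eq_true h')), ci0 h, mul_zero, zero_div]

theorem CH_evl (hp : IsLaw p) (G : Ω → Prop) (W : Ω → U) : CH p G W ≤ Real.log 2 := by
  classical
  have k := CH_le_card hp.nonneg hp.sum_one G W (fun _ => ({True, False} : Finset Prop))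
    (fun ω _ => by
      by_cases h : G ω
      · simp [h]
      · simp [h])
  rw [Ex_const hp.sum_one] at k
  have hcard : ({True, False} : Finset Prop).card = 2 := by
    rw [Finset.card_pair]
    simp
  rw [hcard] at k
  exact_mod_cast k

/-- A variable which is constant off an event. -/
theorem CH_off (hp : IsLaw p) (G : Ω → Prop) {X : Ω → S} {x₀ : S} (hX : ∀ ω, ¬ G ω → X ω = x₀)
    (W : Ω → U) : CH p X W ≤ Real.log 2 + Pe p G * CH (cond p G True) X W := by
  have h0 := hp.nonneg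
  have h1 := CH_le_add h0 X G W
  have h2 := CH_evl hp G W
  have h3 := CH_ev h0 (G := G) X (fun ω => (G ω, W ω)) (fun _ _ _ _ e => (Prod.ext_iff.mp e).1)
  have h4 : CH (cond p G False) X (fun ω => (G ω, W ω)) = 0 := by
    refine CH_eq_zero (cond_nonneg h0 _ _) fun ω ω' a b _ => ?_
    have e1 : ¬ G ω := of_eq_false ((cond_pos_iff h0 G False ω).1 a).2
    have e2 : ¬ G ω' := of_eq_false ((cond_pos_iff h0 G False ω').1 b).2
    rw [hX ω e1, hX ω' e2]
  have h5 : CH (cond p G True) X (fun ω => (G ω, W ω)) ≤ CH (cond p G True) X W :=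
    CH_mono_cond (cond_nonneg h0 _ _) fun _ _ _ _ e => (Prod.ext_iff.mp e).2
  have h6 : Pe p G = law p G True := rfl
  have h7 := mul_le_mul_of_nonneg_left h5 (law_nonneg h0 G True)
  rw [h4, mul_zero, add_zero] at h3
  rw [h6]
  linarith

end ev

variable {Ω Λ S U : Type} [Fintype Ω] {p : Ω → ℝ}

/-- **Transfer.** -/
theorem tr1 (hp : IsLaw p) (G : Ω → Prop) {δ₁ PB : ℝ} (h1 : 0 < δ₁) (hPB : 0 < PB) {s : Ω → ℝ}
    (hs : IsLaw s) (hd : ∀ ω, G ω → δ₁ * p ω ≤ PB * s ω) {X : Ω → S} {x₀ : S}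
    (hX : ∀ ω, ¬ G ω → X ω = x₀) (W : Ω → U) :
    CH p X W ≤ Real.log 2 + PB / δ₁ * CH s X W := by
  have h0 := hp.nonneg
  have h2 := CH_off hp G hX W
  have h5 : 0 ≤ CH s X W := CH_nonneg hs.nonneg _ _
  refine h2.trans ?_
  have h3 : Pe p G * CH (cond p G True) X W ≤ PB / δ₁ * CH s X W := by
    have hP : 0 ≤ Pe p G := law_nonneg h0 _ _
    rcases hP.eq_or_lt with h | h
    · rw [← h, zero_mul]
      exact mul_nonneg (by positivity) h5
    · have hc : 0 < δ₁ * Pe p G / PB := by positivity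
      have h4 := CH_conc (s := s) (cond_law h0 h) hc (fun ω => by
        rw [cond_ci]
        by_cases hG : G ω
        · rw [ci1 hG, mul_one]
          have := hd ω hG
          calc δ₁ * Pe p G / PB * (p ω / Pe p G) = δ₁ * p ω / PB := by field_simp
            _ ≤ s ω := by
              rw [div_le_iff₀ hPB]
              linarith
        · rw [ci0 hG, mul_zero, zero_div, mul_zero]
          exact hs.nonneg ω) X W
      have h6 := mul_le_mul_of_nonneg_left h4 (by positivity : 0 ≤ PB / δ₁)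
      refine le_trans (le_of_eq ?_) h6
      field_simp
  linarith

theorem tr0 (hp : IsLaw p) (G : Ω → Prop) {δ₁ PB V : ℝ} (h1 : 0 < δ₁) (hV : 0 ≤ V)
    (hd : δ₁ * Pe p G ≤ PB) {X : Ω → S} {x₀ : S} (hX : ∀ ω, ¬ G ω → X ω = x₀) (W : Ω → U)
    (hall : ∀ q : Ω → ℝ, IsLaw q → (∀ ω, 0 < q ω → 0 < p ω) → CH q X W ≤ V) :
    CH p X W ≤ Real.log 2 + PB / δ₁ * V := by
  have h0 := hp.nonneg
  have h2 := CH_off hp G hX W
  have hP : 0 ≤ Pe p G := law_nonneg h0 _ _
  have h4 : Pe p G ≤ PB / δ₁ := by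
    rw [le_div_iff₀ h1]
    linarith
  have h3 : Pe p G * CH (cond p G True) X W ≤ PB / δ₁ * V := by
    rcases hP.eq_or_lt with h | h
    · rw [← h, zero_mul]
      exact mul_nonneg (hP.trans h4) hV
    · exact (mul_le_mul_of_nonneg_left (hall _ (cond_law h0 h)
        fun ω hω => ((cond_pos_iff h0 G True ω).1 hω).1) hP).trans
        (mul_le_mul_of_nonneg_right h4 hV)
  linarith

section mg

variable {Γ : Type} [Fintype Γ] {t : Γ → ℝ}

omit [Fintype Ω] in
theorem mg_cond_ci (f : Γ → Ω) {G : Γ → Prop} (h : 0 < Pe t G) (ω : Ω) :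
    mg (fun w => t w * ci (G w)) f ω = Pe t G * mg (cond t G True) f ω := by
  classical
  unfold mg
  rw [Finset.mul_sum]
  refine Finset.sum_congr rfl fun w _ => ?_
  split_ifs
  · rw [cond_ci]
    field_simp
  · rw [mul_zero]

theorem mg_ci_sum (f : Γ → Ω) (G : Γ → Prop) :
    ∑ ω, mg (fun w => t w * ci (G w)) f ω = Pe t G := by
  classical
  rw [Pe_ci]
  unfold mg
  rw [Finset.sum_comm]
  refine Finset.sum_congr rfl fun w _ => ?_
  rw [Finset.sum_ite_eq]
  simp

theorem mg_ci_T (ht : ∀ w, 0 ≤ t w) (f : Γ → Ω) (G : Γ → Prop) {δ₁ : ℝ} {T : Ω → Prop}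
    (h : ∀ ω, T ω → δ₁ * p ω ≤ mg (fun w => t w * ci (G w)) f ω) :
    δ₁ * Pe p T ≤ Pe t G := by
  classical
  rw [← mg_ci_sum f G, Pe_ci, Finset.mul_sum]
  refine Finset.sum_le_sum fun ω _ => ?_
  by_cases hT : T ω
  · rw [ci1 hT, mul_one]
    exact h ω hT
  · rw [ci0 hT, mul_zero, mul_zero]
    unfold mg
    refine Finset.sum_nonneg fun w _ => ?_
    split_ifs
    · exact mul_nonneg (ht w) (ci_nonneg _)
    · exact le_rfl

end mg

end Pool.DIR21
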