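import Pool.Agent.H21.DIR.Few

/-!
# DIR: the samples of one line

`DrOk`: the hypotheses at the level of laws. `df_tup`: the heights over the record are full in the
body of `d + 2` of the times, given all the times and the slow digits. `nfB`: the row given the base.
-/

set_option autoImplicit false

namespace Pool.DIR21

open Finset Real Matrix
open Pool.Agent.H49.Ent Pool.Agent.H32.Dense Pool.STK Pool.POT Pool.FAD Pool.SLO Pool.TQ
open Pool.K2S (Pe)
open Pool.BFL (Pb)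

section gen

variable {Ω S T U : Type} [Fintype Ω] {p : Ω → ℝ}

/-- Informations given any event. -/
theorem mi_evg (hp : IsLaw p) {G : Ω → Prop} (X : Ω → S) (Y : Ω → T) (W : Ω → U)
    (h0 : 0 < Pe p G) : MI (cond p G True) X Y W ≤ (MI p X Y W + Real.log 2) / Pe p G := by
  classical
  have hc := (cond_law hp.nonneg h0).nonneg
  have h1 := MI_le_right hc (A := Y) (X := fun ω => (Y ω, G ω)) (Y := X) (Z := W)
    (fun _ _ _ _ e => (Prod.ext_iff.mp (Prod.ext_iff.mp e).1).1)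
  have h2 := MI_ev hp (G := G) X (fun ω => (Y ω, G ω)) W
    (fun _ _ _ _ e => (Prod.ext_iff.mp (Prod.ext_iff.mp e).1).2) h0
  have h3 := MI_chain hp.nonneg X Y G W
  have h4 : MI p X G (fun ω => (Y ω, W ω)) ≤ Real.log 2 := by
    rw [MI_symm hp.nonneg]
    refine (MI_le_CH hp.nonneg _ _ _).trans ?_
    have k := CH_le_card hp.nonneg hp.sum_one G (fun ω => (Y ω, W ω))
      (fun _ => ({True, False} : Finset Prop))
      (fun ω _ => by
        by_cases h : G ω
        · simp [h]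
        · simp [h])
    rw [Ex_const hp.sum_one] at k
    have hcard : ({True, False} : Finset Prop).card = 2 := by
      rw [Finset.card_pair]
      simp
    rw [hcard] at k
    exact_mod_cast k
  refine h1.trans (h2.trans ?_)
  refine div_le_div_of_nonneg_right ?_ h0.le
  linarith

end gen

section tuples

variable {Ω Λ β τ B S S' : Type} [Fintype Ω] {p : Ω → ℝ} {L : Ω → Λ} {b : Ω → B} {th : Ω → τ}
  {d : ℝ}

/-- The informations of two functions of the first sample, given all the times. -/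
theorem mi_tup (hp : ∀ ω, 0 ≤ p ω) (hb : Det p L b) (h0 : MI p th L b ≤ d) (H : Ω → S)
    (W : Ω → S') (N : ℕ) :
    MI (tup p L N) (fun w => H (w 0)) (fun w => W (w 0))
      (fun w => (b (w 0), (th (w 0), fun j : Fin N => th (w j.succ)))) ≤
      MI p H W (fun ω => (th ω, b ω)) + N * d := by
  have hq0 : ∀ w, 0 ≤ tup p L N w := fun w => tup_nonneg hp L _ w
  have him : Im (tup p L N) p (fun w => w 0) := im_tup hp L N 0
  have a1 : MI (tup p L N) (fun w => H (w 0)) (fun w => W (w 0))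
      (fun w => (b (w 0), (th (w 0), fun j : Fin N => th (w j.succ)))) ≤
      MI (tup p L N) (fun w => H (w 0)) (fun w => (W (w 0), fun j : Fin N => th (w j.succ)))
        (fun w => (th (w 0), b (w 0))) := by
    have b1 := MI_cond_right hq0 (X := fun w => H (w 0))
      (Y := fun w => (W (w 0), fun j : Fin N => th (w j.succ)))
      (B := fun w (j : Fin N) => th (w j.succ)) (Z := fun w => (th (w 0), b (w 0)))
      (fun w w' _ _ e => (Prod.ext_iff.mp (Prod.ext_iff.mp e).1).2)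
    refine le_trans (le_of_eq ?_) b1
    refine MI_congr hq0 ?_ ?_ ?_ ?_ ?_ ?_ <;>
    · intro w w' _ _ e
      simp only [Prod.mk.injEq] at e ⊢
      tauto
  have a2 := MI_chain hq0 (fun w => H (w 0)) (fun w => W (w 0))
    (fun w (j : Fin N) => th (w j.succ)) (fun w => (th (w 0), b (w 0)))
  have a3 : MI (tup p L N) (fun w => H (w 0)) (fun w => W (w 0))
      (fun w => (th (w 0), b (w 0))) = MI p H W (fun ω => (th ω, b ω)) :=
    him.MI H W (fun ω => (th ω, b ω))
  have a4 : MI (tup p L N) (fun w => H (w 0)) (fun w (j : Fin N) => th (w j.succ))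
      (fun w => (W (w 0), (th (w 0), b (w 0)))) ≤ N * d := by
    refine le_trans ?_ (tup_miN hp hb h0 (fun ω => (H ω, (W ω, th ω))))
    have b1 := MI_data hq0 (A := fun w => H (w 0)) (B := fun w => (W (w 0), th (w 0)))
      (X := fun w => (H (w 0), (W (w 0), th (w 0)))) (Y := fun w (j : Fin N) => th (w j.succ))
      (Z := fun w => b (w 0))
      (fun w w' _ _ e => (Prod.ext_iff.mp (Prod.ext_iff.mp e).1).1)
      (fun w w' _ _ e => (Prod.ext_iff.mp (Prod.ext_iff.mp e).1).2)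
    refine le_trans (le_of_eq ?_) b1
    refine MI_congr hq0 ?_ ?_ ?_ ?_ ?_ ?_ <;>
    · intro w w' _ _ e
      simp only [Prod.mk.injEq] at e ⊢
      tauto
  rw [a3] at a2
  linarith

end tuples

/-- The hypotheses at the level of laws. -/
structure DrOk {Ω Λ τ B β ρ σ : Type} [Fintype Ω] (p : Ω → ℝ) (L : Ω → Λ) (th : Ω → τ)
    (b : Ω → B) (hgt : Ω → Fin 2 → ℤ) (S : Ω → ρ) (Wd : Ω → β) (Z : Ω → Fin 2 → ℤ) (Bs : Ω → σ)
    (M : B → Matrix (Fin 2) (Fin 2) ℝ) (X : ℕ) (C Lm d R ϖ : ℝ) : Prop where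
  law : IsLaw p
  Lb : Det p L b
  h0 : MI p th L b ≤ d
  Z_b : ∀ ω i, |(Z ω i : ℝ)| ≤ C * 2 ^ X
  rel : ∀ ω ω', 0 < p ω → 0 < p ω' → Wd ω = Wd ω' → th ω = th ω' → b ω = b ω' → ∀ i,
    |((Z ω i : ℝ) - Z ω' i) - ∑ j, M (b ω) i j * ((hgt ω j : ℝ) - hgt ω' j)| ≤ C
  M_det : ∀ x, |(M x).det| = 1
  M_inv : ∀ x i j, |(M x)⁻¹ i j| ≤ Lm
  wd : MI p hgt Wd (fun ω => (th ω, b ω)) ≤ d
  SY : Det p (fun ω => (Wd ω, (th ω, b ω))) S
  BY : Det p (fun ω => (Wd ω, (th ω, b ω))) Bs
  few : MI p Z (fun ω => (Wd ω, (th ω, b ω))) Bs ≤ d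
  nf : ∀ G : Ω → Prop, ϖ ≤ Pe p G → 0 < Pe p G →
    CH (cond p G True) Z (fun ω => (Wd ω, S ω)) ≤ R

variable {Ω Λ τ B β ρ σ : Type} [Fintype Ω] {p : Ω → ℝ} {L : Ω → Λ} {th : Ω → τ}
  {b : Ω → B} {hgt : Ω → Fin 2 → ℤ} {S : Ω → ρ} {Wd : Ω → β} {Z : Ω → Fin 2 → ℤ} {Bs : Ω → σ}
  {M : B → Matrix (Fin 2) (Fin 2) ℝ} {X : ℕ} {C Lm d R ϖ : ℝ}

/-- **The row given the base.** -/
theorem DrOk.nfB (hH : DrOk p L th b hgt S Wd Z Bs M X C Lm d R ϖ) (hϖ : 0 < ϖ)
    (G : Ω → Prop) (hG : ϖ ≤ Pe p G) (hG0 : 0 < Pe p G) :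
    CH (cond p G True) Z Bs ≤ R + (d + Real.log 2) / ϖ := by
  have hp := hH.law
  have hc := (cond_law hp.nonneg hG0).nonneg
  have hpos : ∀ ω, 0 < cond p G True ω → 0 < p ω := fun ω hω =>
    ((cond_pos_iff hp.nonneg G True ω).1 hω).1
  have h1 := mi_evg hp (G := G) Z (fun ω => (Wd ω, (th ω, b ω))) Bs hG0
  have h2 : CH (cond p G True) Z (fun ω => ((Wd ω, (th ω, b ω)), Bs ω)) ≤
      CH (cond p G True) Z (fun ω => (Wd ω, S ω)) := by
    refine CH_mono_cond hc fun ω ω' x y e => ?_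
    have e1 := (Prod.ext_iff.mp e).1
    exact Prod.ext (Prod.ext_iff.mp e1).1 (hH.SY ω ω' (hpos ω x) (hpos ω' y) e1)
  have h3 := hH.nf G hG hG0
  have h4 : (MI p Z (fun ω => (Wd ω, (th ω, b ω))) Bs + Real.log 2) / Pe p G ≤
      (d + Real.log 2) / ϖ := by
    have k0 : 0 ≤ MI p Z (fun ω => (Wd ω, (th ω, b ω))) Bs := MI_nonneg hp.nonneg _ _ _
    have k1 := hH.few
    have k2 : 0 ≤ Real.log 2 := Real.log_nonneg (by norm_num)
    calc _ ≤ (d + Real.log 2) / Pe p G := div_le_div_of_nonneg_right (by linarith) hG0.le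
      _ ≤ _ := div_le_div_of_nonneg_left (by linarith) hϖ hG
  unfold MI at h1 h4
  linarith

/-- The data of a tuple: the slow digits, the context and all the times. -/
def dat (Wd : Ω → β) (b : Ω → B) (th : Ω → τ) {N : ℕ} (w : Fin (N + 1) → Ω) :
    β × (B × (τ × (Fin N → τ))) :=
  (Wd (w 0), (b (w 0), (th (w 0), fun j : Fin N => th (w j.succ))))

/-- The height and the data, given the base. -/
theorem DrOk.mi_few (hH : DrOk p L th b hgt S Wd Z Bs M X C Lm d R ϖ) (N : ℕ) :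
    MI (tup p L N) (fun w => Z (w 0)) (dat Wd b th) (fun w => Bs (w 0)) ≤ (N + 1) * d := by
  have hp := hH.law.nonneg
  have hq0 : ∀ w, 0 ≤ tup p L N w := fun w => tup_nonneg hp L _ w
  have him : Im (tup p L N) p (fun w => w 0) := im_tup hp L N 0
  have hBY := him.det hq0 hH.BY
  have e1 : MI (tup p L N) (fun w => Z (w 0)) (dat Wd b th) (fun w => Bs (w 0)) =
      MI (tup p L N) (fun w => Z (w 0)) (fun w => ((Wd (w 0), (th (w 0), b (w 0))),
        fun j : Fin N => th (w j.succ))) (fun w => Bs (w 0)) := by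
    refine MI_congr hq0 ?_ ?_ ?_ ?_ ?_ ?_ <;>
    · intro w w' _ _ e
      simp only [dat, Prod.mk.injEq] at e ⊢
      tauto
  rw [e1, MI_chain hq0]
  have e2 : MI (tup p L N) (fun w => Z (w 0)) (fun w => (Wd (w 0), (th (w 0), b (w 0))))
      (fun w => Bs (w 0)) ≤ d := by
    rw [him.MI Z (fun ω => (Wd ω, (th ω, b ω))) Bs]
    exact hH.few
  have e3 : MI (tup p L N) (fun w => Z (w 0)) (fun w (j : Fin N) => th (w j.succ))
      (fun w => ((Wd (w 0), (th (w 0), b (w 0))), Bs (w 0))) ≤ N * d := by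
    refine le_trans ?_ (tup_miN hp hH.Lb hH.h0 (fun ω => (Z ω, (Wd ω, th ω))))
    have b1 := MI_data hq0 (A := fun w => Z (w 0)) (B := fun w => (Wd (w 0), th (w 0)))
      (X := fun w => (Z (w 0), (Wd (w 0), th (w 0)))) (Y := fun w (j : Fin N) => th (w j.succ))
      (Z := fun w => b (w 0))
      (fun w w' _ _ e => (Prod.ext_iff.mp (Prod.ext_iff.mp e).1).1)
      (fun w w' _ _ e => (Prod.ext_iff.mp (Prod.ext_iff.mp e).1).2)
    refine le_trans (le_of_eq ?_) b1
    refine MI_congr hq0 ?_ ?_ ?_ ?_ ?_ ?_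
    · intro w w' _ _ e
      simp only [Prod.mk.injEq] at e ⊢
      tauto
    · intro w w' x y e
      simp only [Prod.mk.injEq] at e ⊢
      have := hBY w w' x y (by simp only [Prod.mk.injEq]; tauto)
      tauto
    · intro w w' _ _ e
      simp only [Prod.mk.injEq] at e ⊢
      tauto
    · intro w w' x y e
      simp only [Prod.mk.injEq] at e ⊢
      have := hBY w w' x y (by simp only [Prod.mk.injEq]; tauto)
      tauto
    · intro w w' _ _ e
      simp only [Prod.mk.injEq] at e ⊢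
      tauto
    · intro w w' x y e
      have := hBY w w' x y (by simp only [Prod.mk.injEq] at e ⊢; tauto)
      simp only [Prod.mk.injEq] at e ⊢
      tauto
  linarith

/-- The body over the record. -/
def bod (M : B → Matrix (Fin 2) (Fin 2) ℝ) {n : ℕ}
    (A0 : (Fin (n + 2) → τ) → Matrix (Fin 2) (Fin 2) ℝ) (x : B) (t : Fin (n + 2) → τ) :
    Matrix (Fin 2) (Fin 2) ℝ := M x * A0 t

theorem DrOk.M_ne (hH : DrOk p L th b hgt S Wd Z Bs M X C Lm d R ϖ) (x : B) :
    (M x).det ≠ 0 := by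
  intro h
  have := hH.M_det x
  rw [h, abs_zero] at this
  exact zero_ne_one this

theorem DrOk.bod_det (hH : DrOk p L th b hgt S Wd Z Bs M X C Lm d R ϖ) {n : ℕ}
    {A0 : (Fin (n + 2) → τ) → Matrix (Fin 2) (Fin 2) ℝ} (hA : ∀ t, (A0 t).det ≠ 0) (x : B)
    (t : Fin (n + 2) → τ) : (bod M A0 x t).det ≠ 0 := by
  unfold bod
  rw [Matrix.det_mul]
  exact mul_ne_zero (hH.M_ne x) (hA t)

theorem DrOk.bod_inc (hH : DrOk p L th b hgt S Wd Z Bs M X C Lm d R ϖ) {n : ℕ}
    {A0 : (Fin (n + 2) → τ) → Matrix (Fin 2) (Fin 2) ℝ}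
    (hinv : ∀ t i j, |(A0 t)⁻¹ i j| ≤ 2 ^ X) (x : B) (t : Fin (n + 2) → τ) :
    Inc (4 * Lm) (Tx 2 X) (bod M A0 x t) := by
  have hX : (0 : ℝ) < 2 ^ X := by positivity
  intro i
  unfold bod
  rw [Matrix.mul_inv_rev]
  have h1 : ∀ j, |((A0 t)⁻¹ * (M x)⁻¹ * Tx 2 X) i j| ≤ 2 * Lm := by
    intro j
    rw [Tx, Matrix.mul_diagonal, abs_mul, abs_of_pos (inv_pos.2 hX), Matrix.mul_apply,
      Fin.sum_univ_two]
    have h2 : |(A0 t)⁻¹ i 0 * (M x)⁻¹ 0 j + (A0 t)⁻¹ i 1 * (M x)⁻¹ 1 j| ≤ 2 ^ X * (2 * Lm) := by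
      refine (abs_add_le _ _).trans ?_
      rw [abs_mul, abs_mul]
      have k1 := mul_le_mul (hinv t i 0) (hH.M_inv x 0 j) (abs_nonneg _) hX.le
      have k2 := mul_le_mul (hinv t i 1) (hH.M_inv x 1 j) (abs_nonneg _) hX.le
      linarith
    rw [← div_eq_mul_inv, div_le_iff₀ hX]
    linarith
  rw [Fin.sum_univ_two]
  have := h1 0
  have := h1 1
  linarith

/-- **The heights are full in the body of `n + 2` of the times.** -/
theorem DrOk.df_tup (hH : DrOk p L th b hgt S Wd Z Bs M X C Lm d R ϖ) (hL0 : 0 ≤ Lm) {n : ℕ}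
    {A0 : (Fin (n + 2) → τ) → Matrix (Fin 2) (Fin 2) ℝ}
    (hinv : ∀ t i j, |(A0 t)⁻¹ i j| ≤ 2 ^ X) {e₀ : ℝ}
    (hbody : DF (tup p L (n + 2)) (fun _ => Tx 2 X) (fun w => A0 fun j => th (w j.succ))
      (fun w => xv X (hgt (w 0)))
      (fun w => (b (w 0), (th (w 0), fun j : Fin (n + 2) => th (w j.succ)))) ≤ e₀)
    (N : ℕ) (s : Fin (n + 2) → Fin (N + 1)) (hs : Function.Injective s) :
    DF (tup p L (N + 1)) (fun _ => Tx 2 X)
      (fun w => bod M A0 (b (w 0)) fun j => th (w (s j).succ))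
      (fun w => xv X (Z (w 0))) (dat Wd b th) ≤
      e₀ + (2 * (N + 1) + 1) * d + Pool.POT64.Cch 2 Lm C := by
  have hp := hH.law
  have hq := tup_isLaw hp L (N + 1)
  have hq0 := hq.nonneg
  have him : Im (tup p L (N + 1)) p (fun w => w 0) := im_tup hp.nonneg L (N + 1) 0
  have k1 := Pool.TC35.DF_sub (X := X) (hgt := hgt) (m₀ := d) hp hH.Lb hH.h0 A0 hbody s hs
  have k2 := DF_more hq0 X (A := fun w => A0 fun j => th (w (s j).succ))
    (n := fun w => hgt (w 0))
    (Z := fun w => (b (w 0), (th (w 0), fun j : Fin (N + 1) => th (w j.succ))))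
    (fun w => Wd (w 0)) (by
      intro w w' _ _ e
      simp only [Prod.mk.injEq] at e
      have := fun j => congrFun e.2.2 (s j)
      simp only [this])
  have k3 := mi_tup hp.nonneg hH.Lb hH.h0 hgt Wd (N + 1)
  have k4 := Pool.POT64.DF_chart hq X (A := fun w => A0 fun j => th (w (s j).succ))
    (M := fun w => M (b (w 0))) (n := fun w => hgt (w 0)) (n' := fun w => Z (w 0))
    (Z := fun w => (Wd (w 0), (b (w 0), (th (w 0), fun j : Fin (N + 1) => th (w j.succ)))))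
    (L := Lm) (R := C) hL0 (by
      intro w w' _ _ e
      simp only [Prod.mk.injEq] at e
      have := fun j => congrFun e.2.2.2 (s j)
      simp only [this]) (by
      intro w w' _ _ e
      simp only [Prod.mk.injEq] at e
      simp only [e.2.1]) (fun w i j => hinv _ i j) (fun w => hH.M_det _)
    (fun w i j => hH.M_inv _ i j) (by
      intro w w' x y e i
      simp only [Prod.mk.injEq] at e
      exact hH.rel _ _ (him.pos hq0 x) (him.pos hq0 y) e.1 e.2.2.1 e.2.1 i)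
  have k5 := hH.wd
  refine k4.trans ?_
  push_cast at k1 k3 ⊢
  linarith

end Pool.DIR21
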