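import Pool.Agent.H21.DIR.Trf

/-!
# DIR: the long column of a body, and the direction of an integer vector
-/

set_option autoImplicit false

namespace Pool.DIR21

open Finset Real Matrix

/-- The column. -/
def co (A : Matrix (Fin 2) (Fin 2) ℝ) (a : Fin 2) : Fin 2 → ℝ := fun i => A i a

theorem ex_nb (A : Matrix (Fin 2) (Fin 2) ℝ) :
    ∃ z : Fin 2 × Fin 2, ∀ i a, |A i a| ≤ |A z.1 z.2| := by
  obtain ⟨z, -, h⟩ := Finset.exists_max_image univ (fun z : Fin 2 × Fin 2 => |A z.1 z.2|)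
    ⟨((0 : Fin 2), (0 : Fin 2)), Finset.mem_univ _⟩
  exact ⟨z, fun i a => h (i, a) (Finset.mem_univ _)⟩

/-- The place of the largest entry. -/
noncomputable def lc (A : Matrix (Fin 2) (Fin 2) ℝ) : Fin 2 × Fin 2 := Classical.choose (ex_nb A)

/-- The largest entry. -/
noncomputable def nb (A : Matrix (Fin 2) (Fin 2) ℝ) : ℝ := |A (lc A).1 (lc A).2|

/-- The unit vector of the long column. -/
noncomputable def un (A : Matrix (Fin 2) (Fin 2) ℝ) : Fin 2 → ℝ := fun i => A i (lc A).2 / nb A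

theorem nb_le (A : Matrix (Fin 2) (Fin 2) ℝ) (i a : Fin 2) : |A i a| ≤ nb A :=
  Classical.choose_spec (ex_nb A) i a

theorem nb_nonneg (A : Matrix (Fin 2) (Fin 2) ℝ) : 0 ≤ nb A := abs_nonneg _

theorem un_un {A : Matrix (Fin 2) (Fin 2) ℝ} (h : 0 < nb A) : Un (un A) := by
  constructor
  · intro i
    unfold un
    rw [abs_div, abs_of_pos h, div_le_one h]
    exact nb_le A _ _
  · refine ⟨(lc A).1, ?_⟩
    unfold un
    rw [abs_div, abs_of_pos h]
    exact div_self h.ne'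

theorem wg_un (A : Matrix (Fin 2) (Fin 2) ℝ) (v : Fin 2 → ℝ) :
    wg v (un A) = wg v (co A (lc A).2) / nb A := by
  unfold wg un co
  ring

theorem wg_un2 (A B : Matrix (Fin 2) (Fin 2) ℝ) :
    wg (un A) (un B) = wg (co A (lc A).2) (co B (lc B).2) / (nb A * nb B) := by
  unfold wg un co
  rw [div_mul_div_comm, div_mul_div_comm, ← sub_div]

/-- The direction orthogonal to an integer vector. -/
noncomputable def pl (a : Fin 2 → ℤ) : Fin 2 → ℝ :=
  if a = 0 then Pi.single 0 1 else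
    ![(a 1 : ℝ) / max |(a 0 : ℝ)| |(a 1 : ℝ)|, -(a 0 : ℝ) / max |(a 0 : ℝ)| |(a 1 : ℝ)|]

theorem pl_pos {a : Fin 2 → ℤ} (h : a ≠ 0) : 0 < max |(a 0 : ℝ)| |(a 1 : ℝ)| := by
  rw [lt_max_iff]
  by_contra hcon
  push Not at hcon
  apply h
  have h0 : (a 0 : ℝ) = 0 := abs_eq_zero.1 (le_antisymm hcon.1 (abs_nonneg _))
  have h1 : (a 1 : ℝ) = 0 := abs_eq_zero.1 (le_antisymm hcon.2 (abs_nonneg _))
  funext i
  fin_cases i
  · exact_mod_cast h0
  · exact_mod_cast h1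

theorem pl_un (a : Fin 2 → ℤ) : Un (pl a) := by
  unfold pl
  split_ifs with h
  · constructor
    · intro i
      fin_cases i <;> simp
    · exact ⟨0, by simp⟩
  · have hm := pl_pos h
    constructor
    · intro i
      fin_cases i
      · simp only [Fin.zero_eta, Matrix.cons_val_zero]
        rw [abs_div, abs_of_pos hm, div_le_one hm]
        exact le_max_right _ _
      · simp only [Fin.mk_one, Matrix.cons_val_one, Matrix.cons_val_fin_one]
        rw [abs_div, abs_neg, abs_of_pos hm, div_le_one hm]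
        exact le_max_left _ _
    · rcases le_total |(a 0 : ℝ)| |(a 1 : ℝ)| with h1 | h1
      · refine ⟨0, ?_⟩
        simp only [Matrix.cons_val_zero]
        rw [abs_div, abs_of_pos hm, max_eq_right h1]
        rw [max_eq_right h1] at hm
        exact div_self hm.ne'
      · refine ⟨1, ?_⟩
        simp only [Matrix.cons_val_one, Matrix.cons_val_fin_one]
        rw [abs_div, abs_neg, abs_of_pos hm, max_eq_left h1]
        rw [max_eq_left h1] at hm
        exact div_self hm.ne'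

/-- Its product with a vector. -/
theorem pl_mul {a : Fin 2 → ℤ} (h : a ≠ 0) (v : Fin 2 → ℝ) :
    ∑ i, pl a i * v i = wg v (fun i => (a i : ℝ)) / max |(a 0 : ℝ)| |(a 1 : ℝ)| := by
  unfold pl
  rw [if_neg h, Fin.sum_univ_two]
  simp only [Matrix.cons_val_zero, Matrix.cons_val_one, Matrix.cons_val_fin_one]
  unfold wg
  ring

/-- The rounded direction. -/
theorem pl_le {φ v : Fin 2 → ℝ} (hφ : Un φ) {Y : ℕ} (hY : 1 ≤ Y) {V : ℝ} (hv : ∀ i, |v i| ≤ V) :
    |∑ i, pl (fun i => ⌊(2 : ℝ) ^ Y * φ i⌋) i * v i| ≤ 2 * |wg v φ| + 4 * V / 2 ^ Y := by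
  have h2 : (2 : ℝ) ≤ 2 ^ Y := by
    calc (2 : ℝ) = 2 ^ 1 := (pow_one 2).symm
      _ ≤ 2 ^ Y := pow_le_pow_right₀ (by norm_num) hY
  have hY0 : (0 : ℝ) < 2 ^ Y := by positivity
  obtain ⟨hφ1, j, hj⟩ := hφ
  obtain ⟨a, ha⟩ : ∃ a : Fin 2 → ℤ, a = fun i => ⌊(2 : ℝ) ^ Y * φ i⌋ := ⟨_, rfl⟩
  rw [← ha]
  obtain ⟨e, he⟩ : ∃ e : Fin 2 → ℝ, e = fun i => (a i : ℝ) - 2 ^ Y * φ i := ⟨_, rfl⟩
  have ei : ∀ i, |e i| ≤ 1 := by
    intro i
    rw [he, ha]
    have k1 := Int.floor_le ((2 : ℝ) ^ Y * φ i)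
    have k2 := Int.lt_floor_add_one ((2 : ℝ) ^ Y * φ i)
    rw [abs_le]
    constructor <;> linarith
  have hae : ∀ i, (a i : ℝ) = 2 ^ Y * φ i + e i := fun i => by rw [he]; ring
  have hbig : (2 : ℝ) ^ Y / 2 ≤ max |(a 0 : ℝ)| |(a 1 : ℝ)| := by
    have k1 : (2 : ℝ) ^ Y - 1 ≤ |(a j : ℝ)| := by
      rw [hae]
      have k2 : |(2 : ℝ) ^ Y * φ j| = 2 ^ Y := by
        rw [abs_mul, hj, mul_one, abs_of_pos hY0]
      have k3 := abs_sub_abs_le_abs_sub ((2 : ℝ) ^ Y * φ j) (-(e j))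
      rw [k2, abs_neg, sub_neg_eq_add] at k3
      linarith [ei j]
    have k4 : |(a j : ℝ)| ≤ max |(a 0 : ℝ)| |(a 1 : ℝ)| := by
      fin_cases j
      · exact le_max_left _ _
      · exact le_max_right _ _
    linarith
  have hne : a ≠ 0 := by
    intro h
    rw [h] at hbig
    simp at hbig
    linarith
  have hm := pl_pos hne
  rw [pl_mul hne, abs_div, abs_of_pos hm, div_le_iff₀ hm]
  have k5 : |wg v (fun i => (a i : ℝ))| ≤ 2 ^ Y * |wg v φ| + 2 * V := by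
    have e1 : wg v (fun i => (a i : ℝ)) = 2 ^ Y * wg v φ + wg v e := by
      unfold wg
      beta_reduce
      rw [hae 0, hae 1]
      ring
    rw [e1]
    refine (abs_add_le _ _).trans ?_
    rw [abs_mul, abs_of_pos hY0]
    have := wg_le hv ei
    linarith
  have hV : 0 ≤ V := (abs_nonneg _).trans (hv 0)
  have k6 : (2 * |wg v φ| + 4 * V / 2 ^ Y) * (2 ^ Y / 2) = 2 ^ Y * |wg v φ| + 2 * V := by
    field_simp
    ring
  have k7 : (2 * |wg v φ| + 4 * V / 2 ^ Y) * (2 ^ Y / 2) ≤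
      (2 * |wg v φ| + 4 * V / 2 ^ Y) * max |(a 0 : ℝ)| |(a 1 : ℝ)| :=
    mul_le_mul_of_nonneg_left hbig (by positivity)
  linarith

end Pool.DIR21
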